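import Pool.Agent.T5X.B7

/-!
# [E8T5-A] the series of exponents `4` modulo `5`, modulo `25`

`y = t(X⁵)`, `S = S(X⁵) A(y)²`, `t⁵ A(y) = B(y)`, `h = S(X⁵) (1 - y - y²)⁵`.
-/

set_option autoImplicit false

open PowerSeries
open N19 (ex)
open NC11 (D)
open E8X (Sg Dl F3Cl J tau)
open T5X

namespace E8T5

section poly

variable {K : Type*} [CommRing K]

/-- `A(y)` -/
def pA (y : K) : K := 1 + 3 * y + 4 * y ^ 2 + 2 * y ^ 3 + y ^ 4

/-- `B(y)` -/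
def pB (y : K) : K := y - 2 * y ^ 2 + 4 * y ^ 3 - 3 * y ^ 4 + y ^ 5

/-- `1 - y - y²` -/
def pL (y : K) : K := 1 - y - y ^ 2

/-- `(1 - 11 y⁵ - y¹⁰) / (1 - y - y²)` -/
def pM (y : K) : K :=
  1 + y + 2 * y ^ 2 + 3 * y ^ 3 + 5 * y ^ 4 - 3 * y ^ 5 + 2 * y ^ 6 - y ^ 7 + y ^ 8

/-- the bracket of `∑ σ₅(n) X^n` -/
def pR (y : K) : K := 1057 * pA y ^ 5 + 44495 * pA y ^ 4 * pB y + 51680 * pA y ^ 3 * pB y ^ 2 -
  64490 * pA y ^ 2 * pB y ^ 3 + 8035 * pA y * pB y ^ 4 - pB y ^ 5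

/-- a cofactor -/
def pG (y : K) : K := (-128) + (-7239) * y + (-73560) * y ^ 2 + (-356185) * y ^ 3 + (-1199428) * y ^ 4 + (-2946461) * y ^ 5 + (-6070823) * y ^ 6 + (-10176613) * y ^ 7 + (-14808139) * y ^ 8 + (-16942986) * y ^ 9 + (-17708274) * y ^ 10 + (-13088267) * y ^ 11 + (-10333508) * y ^ 12 + (-3491304) * y ^ 13 + (-6467099) * y ^ 14 + (2243315) * y ^ 15 + (-5330165) * y ^ 16 + (2774554) * y ^ 17 + (-2719018) * y ^ 18 + (1303215) * y ^ 19 + (-724539) * y ^ 20 + (269978) * y ^ 21 + (-93179) * y ^ 22 + (17403) * y ^ 23 + (-964) * y ^ 24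

/-- a cofactor -/
def pK (y : K) : K := (1274) + (72379) * y + (735552) * y ^ 2 + (3562061) * y ^ 3 + (11994803) * y ^ 4 + (29464344) * y ^ 5 + (60705937) * y ^ 6 + (101764281) * y ^ 7 + (148085883) * y ^ 8 + (169431784) * y ^ 9 + (177084422) * y ^ 10 + (130889001) * y ^ 11 + (103330363) * y ^ 12 + (34896484) * y ^ 13 + (64661007) * y ^ 14 + (-22427329) * y ^ 15 + (53313513) * y ^ 16 + (-27738756) * y ^ 17 + (27193042) * y ^ 18 + (-13030309) * y ^ 19 + (7246083) * y ^ 20 + (-2699546) * y ^ 21 + (932077) * y ^ 22 + (-173889) * y ^ 23 + (9653) * y ^ 24 + (-3) * y ^ 25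

theorem polyG (y : K) : -(pL y ^ 12 * (1 + 2 * y)) - 3 * pR y - (28 * pA y - 9 * pB y) * pL y ^ 10 -
    5 * ((y + 2 * y ^ 2) * pM y * (7 * pA y - pB y) * pL y ^ 5) -
    15 * (pA y * (7 * pA y - pB y) * pB y * pL y ^ 5) = 25 * pG y := by
  unfold pL pR pA pB pM pG
  ring

theorem polyK (y : K) : 6 * pR y + (28 * pA y - 9 * pB y) * pL y ^ 10 = 5 * pK y := by
  unfold pL pR pA pB pK
  ring

end poly

/-- `y = t(X⁵)` -/
noncomputable def yy : PowerSeries ℤ := ex 5 t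

/-- `S(X⁵)` -/
noncomputable def aa : PowerSeries ℤ := ex 5 S

theorem ex_A : ex 5 At = pA yy := by
  rw [At, pA, yy, E8X.ex_add, E8X.ex_add, E8X.ex_add, E8X.ex_add, ex_one 5 (by norm_num),
    show (3 : PowerSeries ℤ) = C 3 from rfl, show (4 : PowerSeries ℤ) = C 4 from rfl,
    show (2 : PowerSeries ℤ) = C 2 from rfl, E8X.ex_mul (by norm_num), E8X.ex_mul (by norm_num),
    E8X.ex_mul (by norm_num), E8X.ex_ofNat (by norm_num), E8X.ex_ofNat (by norm_num), E8X.ex_ofNat (by norm_num),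
    E8X.ex_pow (by norm_num), E8X.ex_pow (by norm_num), E8X.ex_pow (by norm_num)]

theorem ex_B : ex 5 Bt = pB yy := by
  rw [Bt, pB, yy, E8X.ex_add, ex_sub, E8X.ex_add, ex_sub,
    show (3 : PowerSeries ℤ) = C 3 from rfl, show (4 : PowerSeries ℤ) = C 4 from rfl,
    show (2 : PowerSeries ℤ) = C 2 from rfl, E8X.ex_mul (by norm_num), E8X.ex_mul (by norm_num),
    E8X.ex_mul (by norm_num), E8X.ex_ofNat (by norm_num), E8X.ex_ofNat (by norm_num), E8X.ex_ofNat (by norm_num),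
    E8X.ex_pow (by norm_num), E8X.ex_pow (by norm_num), E8X.ex_pow (by norm_num), E8X.ex_pow (by norm_num)]

theorem ex_L : ex 5 (1 - t - t ^ 2) = pL yy := by
  rw [pL, yy, ex_sub, ex_sub, ex_one 5 (by norm_num), E8X.ex_pow (by norm_num)]

theorem ex_La : ex 5 La = pM yy := by
  rw [La, pM, yy]
  simp only [E8X.ex_add, ex_sub, ex_one 5 (by norm_num)]
  rw [
    show (3 : PowerSeries ℤ) = C 3 from rfl, show (5 : PowerSeries ℤ) = C 5 from rfl,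
    show (2 : PowerSeries ℤ) = C 2 from rfl]
  simp only [E8X.ex_mul (show 0 < 5 by norm_num), E8X.ex_ofNat (show 0 < 5 by norm_num),
    E8X.ex_pow (show 0 < 5 by norm_num)]

theorem S_aa : S = aa * pA yy ^ 2 := by
  have h1 : S = ex 5 s := rfl
  rw [h1, s_eq, E8X.ex_mul (by norm_num), E8X.ex_pow (by norm_num), ex_A, aa]

theorem sAt_ne : S * At ≠ 0 := by
  refine ne_zero_of_one ?_
  rw [At]
  simp only [map_add, map_mul, map_pow, map_one, S_zero, t_zero]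
  norm_num

theorem rAt : r * At = Bt := by
  refine mul_left_cancel₀ sAt_ne ?_
  have h1 := sr_eq
  rw [s_eq] at h1
  linear_combination h1

theorem t5A : t ^ 5 * pA yy = pB yy := by
  rw [← ex_A, ← ex_B, ← ex_r, ← E8X.ex_mul (by norm_num), rAt]

theorem h_aa : h = aa * pL yy ^ 5 := by
  have h1 := congrArg (ex 5) h1_eq
  rw [E8X.ex_mul (by norm_num), ex_H, E8X.ex_mul (by norm_num), E8X.ex_pow (by norm_num), ex_L] at h1
  rw [h_eq, aa]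
  exact h1

theorem gt_h : gt = h := by
  rw [← ex_gr, gr_eq, E8X.ex_mul (by norm_num), ex_H, h_eq, S]

theorem D_s' : D s = s * (5 * le + Sg 1) := by
  have h1 : D (s * E) = D (eps ^ 5) := by rw [s_E]
  have h5 : D (eps ^ 5) = 5 * le * eps ^ 5 := by
    rw [show (5 : ℕ) = 4 + 1 from rfl, D_pow, D_eps]
    push_cast
    ring
  rw [E8T.D_mul, D_E, h5, ← s_E] at h1
  refine mul_right_cancel₀ E_ne ?_
  linear_combination h1

theorem D_S : D S = 5 * (S * (5 * ex 5 le + ex 5 (Sg 1))) := by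
  rw [S, D_ex5, D_s', E8X.ex_mul (by norm_num), E8X.ex_add, show (5 : PowerSeries ℤ) = C 5 from rfl,
    E8X.ex_mul (by norm_num), E8X.ex_ofNat (by norm_num)]

theorem lam_zero : constantCoeff (1 - t - t ^ 2) = 1 := by
  simp only [map_sub, map_pow, map_one, t_zero]
  norm_num

theorem S1_eq : Sg 1 = S * La * (t + 2 * t ^ 2) - 5 * ex 5 le := by
  refine mul_right_cancel₀ (ne_zero_of_one lam_zero) ?_
  have h1 := log_a
  rw [gt_h, h_eq, ← La_mul] at h1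
  linear_combination -h1

theorem ex_S1 : ex 5 (Sg 1) = aa * pM yy * (yy + 2 * yy ^ 2) - 5 * ex 25 le := by
  have h1 := congrArg (ex 5) S1_eq
  rw [ex_sub, E8X.ex_mul (by norm_num), E8X.ex_mul (by norm_num), E8X.ex_add, ex_La,
    show (2 : PowerSeries ℤ) = C 2 from rfl, show (5 : PowerSeries ℤ) = C 5 from rfl, E8X.ex_mul (by norm_num),
    E8X.ex_mul (by norm_num), E8X.ex_ofNat (by norm_num), E8X.ex_ofNat (by norm_num), E8X.ex_pow (by norm_num),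
    E8X.ex_ex (by norm_num) (by norm_num)] at h1
  exact h1

/-- the generating function of the traces, in terms of `t` and `y` -/
noncomputable def TR : PowerSeries ℤ := -(t ^ 4 * aa * pA yy * pL yy ^ 2 * (1 + 2 * yy))


theorem c5_ex (S5 : PowerSeries ℤ) (hS5 : S5 = cl4 (Sg 5)) : S5 = t ^ 4 * aa * pA yy * (aa ^ 2 * pR yy) := by
  rw [hS5, cl4_S5, S_aa]
  have h1 := t5A
  obtain ⟨T, hT⟩ : ∃ T, T = t ^ 5 := ⟨_, rfl⟩
  obtain ⟨A, hA⟩ : ∃ A, A = pA yy := ⟨_, rfl⟩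
  obtain ⟨B, hB⟩ : ∃ B, B = pB yy := ⟨_, rfl⟩
  rw [pR, ← hA, ← hB]
  rw [← hT, ← hA, ← hB] at h1
  have e9 : t ^ 9 = t ^ 4 * T := by rw [hT]; ring
  have e14 : t ^ 14 = t ^ 4 * T ^ 2 := by rw [hT]; ring
  have e19 : t ^ 19 = t ^ 4 * T ^ 3 := by rw [hT]; ring
  have e24 : t ^ 24 = t ^ 4 * T ^ 4 := by rw [hT]; ring
  have e29 : t ^ 29 = t ^ 4 * T ^ 5 := by rw [hT]; ring
  rw [e9, e14, e19, e24, e29, ← h1]
  ring

theorem c1_ex : cl4 (Sg 1) = t ^ 4 * aa * pA yy * (7 * pA yy - pB yy) := by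
  rw [cl4_S1, S_aa]
  linear_combination (-(t ^ 4 * aa * pA yy)) * t5A

theorem D_c1 : D (cl4 (Sg 1)) = D S * (7 * t ^ 4 - t ^ 9) + S * h * (28 * t ^ 4 - 9 * t ^ 9) := by
  have h4 : D (t ^ 4) = 4 * h * t ^ 4 := by
    rw [show (4 : ℕ) = 3 + 1 from rfl, D_pow, D_t, gt_h]
    push_cast
    ring
  have h9 : D (t ^ 9) = 9 * h * t ^ 9 := by
    rw [show (9 : ℕ) = 8 + 1 from rfl, D_pow, D_t, gt_h]
    push_cast
    ring
  rw [cl4_S1, E8T.D_mul, D_sub, show (7 : PowerSeries ℤ) = C 7 from rfl, E8T.D_mul, E8T.D_C, h4, h9,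
    show (C 7 : PowerSeries ℤ) = 7 from rfl]
  ring

theorem D_c1' : D (cl4 (Sg 1)) = t ^ 4 * aa * pA yy * ((28 * pA yy - 9 * pB yy) * h +
    5 * ((7 * pA yy - pB yy) * (5 * ex 5 le + ex 5 (Sg 1)))) := by
  rw [D_c1, D_S, S_aa]
  linear_combination (-(t ^ 4 * aa * pA yy) * (5 * (5 * ex 5 le + ex 5 (Sg 1)) + 9 * h)) * t5A

theorem Z_aa : Z = aa * pA yy * pB yy := by
  rw [Z_eq, S_aa]
  linear_combination (aa * pA yy) * t5A

theorem pL_zero : constantCoeff (pL yy) = 1 := by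
  rw [← ex_L]
  exact ex_zero lam_zero

/-- the traces modulo `25` -/
theorem TR_25 : ∃ k, TR = 3 * cl4 (Sg 5) + D (cl4 (Sg 1)) + 15 * (cl4 (Sg 1) * ex 5 (D (Sg 1))) + 25 * k := by
  obtain ⟨κ, hκ⟩ := h_five
  obtain ⟨v, hv⟩ := Z_five
  obtain ⟨u, hu⟩ : ∃ u, u = ex 25 le := ⟨_, rfl⟩
  obtain ⟨w, hw⟩ : ∃ w, w = ex 5 le := ⟨_, rfl⟩
  have h1 := ex_S1
  have h2 := h_aa
  have h3 := Z_aa
  have hG := polyG yy
  have hK := polyK yy
  rw [← hu] at h1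
  rw [h3] at hv
  rw [c5_ex _ rfl, D_c1', c1_ex, ← hw, h1]
  rw [hκ] at h2 ⊢
  obtain ⟨A, hA⟩ : ∃ A, A = pA yy := ⟨_, rfl⟩
  obtain ⟨B, hB⟩ : ∃ B, B = pB yy := ⟨_, rfl⟩
  obtain ⟨L, hL⟩ : ∃ L, L = pL yy := ⟨_, rfl⟩
  obtain ⟨N, hN⟩ : ∃ N, N = pM yy := ⟨_, rfl⟩
  obtain ⟨Rr, hR⟩ : ∃ Rr, Rr = pR yy := ⟨_, rfl⟩
  obtain ⟨m, hm⟩ : ∃ m, m = ex 5 (D (Sg 1)) := ⟨_, rfl⟩
  have hi := iv_mul pL_zero
  rw [TR, ← hA, ← hL]
  rw [← hL] at h2 hi hG hK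
  rw [← hA, ← hB] at hv hG hK
  rw [← hN, ← hR] at hG
  rw [← hR] at hK
  rw [← hm] at hv
  rw [← hB, ← hN, ← hR, ← hm]
  have hi10 : L ^ 10 * iv L ^ 10 = 1 := by rw [← mul_pow, hi, one_pow]
  obtain ⟨W, hW⟩ : ∃ W, W = t ^ 4 * aa * A := ⟨_, rfl⟩
  have key : L ^ 10 * (-(t ^ 4 * aa * A * L ^ 2 * (1 + 2 * yy)) -
      (3 * (t ^ 4 * aa * A * (aa ^ 2 * Rr)) + t ^ 4 * aa * A * ((28 * A - 9 * B) * (1 + 5 * κ) +
        5 * ((7 * A - B) * (5 * w + (aa * N * (yy + 2 * yy ^ 2) - 5 * u)))) +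
      15 * (t ^ 4 * aa * A * (7 * A - B) * m))) =
      25 * (W * (pG yy - κ * pK yy - 3 * κ ^ 2 * Rr - κ * ((7 * A - B) * L ^ 5 * N * (yy + 2 * yy ^ 2)) -
        3 * κ * ((7 * A - B) * L ^ 5 * A * B) + (7 * A - B) * L ^ 10 * (u - w) + 3 * (7 * A - B) * L ^ 10 * v)) := by
    rw [← hW]
    linear_combination W * hG - 5 * κ * W * hK +
      (3 * W * Rr * (1 + 5 * κ + aa * L ^ 5) + 5 * W * (7 * A - B) * N * (yy + 2 * yy ^ 2) * L ^ 5 +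
        15 * W * (7 * A - B) * A * B * L ^ 5) * h2 + 15 * W * (7 * A - B) * L ^ 10 * hv
  refine ⟨iv L ^ 10 * (W * (pG yy - κ * pK yy - 3 * κ ^ 2 * Rr - κ * ((7 * A - B) * L ^ 5 * N * (yy + 2 * yy ^ 2)) -
        3 * κ * ((7 * A - B) * L ^ 5 * A * B) + (7 * A - B) * L ^ 10 * (u - w) + 3 * (7 * A - B) * L ^ 10 * v)), ?_⟩
  linear_combination (iv L ^ 10) * key - (-(t ^ 4 * aa * A * L ^ 2 * (1 + 2 * yy)) -
      (3 * (t ^ 4 * aa * A * (aa ^ 2 * Rr)) + t ^ 4 * aa * A * ((28 * A - 9 * B) * (1 + 5 * κ) +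
        5 * ((7 * A - B) * (5 * w + (aa * N * (yy + 2 * yy ^ 2) - 5 * u)))) +
      15 * (t ^ 4 * aa * A * (7 * A - B) * m))) * hi10

/-- the traces modulo `25`, coefficientwise -/
theorem tr_25 {n : ℕ} (hn : n % 5 = 4) : (25 : ℤ) ∣ coeff n TR - (3 * (ArithmeticFunction.sigma 5 n : ℤ) +
    n * (ArithmeticFunction.sigma 1 n : ℤ) + 15 * (Wn n : ℤ)) := by
  obtain ⟨k, hk⟩ := TR_25
  have h := congrArg (coeff n) hk
  rw [show cl4 (Sg 1) * ex 5 (D (Sg 1)) = ex 5 (D (Sg 1)) * cl4 (Sg 1) by ring,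
    ← cl4_mul (cl_ex5 (D (Sg 1))), mul_comm (ex 5 (D (Sg 1))) (Sg 1),
    show (3 : PowerSeries ℤ) = C 3 from rfl, show (15 : PowerSeries ℤ) = C 15 from rfl,
    show (25 : PowerSeries ℤ) = C 25 from rfl, map_add, map_add, map_add, coeff_C_mul, coeff_C_mul, coeff_C_mul,
    cl4_coeff hn, cl4_coeff hn, coeff_conv_D, D, coeff_mk, cl4_coeff hn, Sg, Sg, coeff_mk, coeff_mk] at h
  refine ⟨coeff n k, ?_⟩
  rw [h]
  ring

/-- `τ` modulo `625` and the traces -/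
theorem tau_tr {n : ℕ} (hn : n % 5 = 4) : (625 : ℤ) ∣ tau n - (106 * (ArithmeticFunction.sigma 11 n : ℤ) -
    200 * (ArithmeticFunction.sigma 5 n : ℤ) + (155 - 50 * n) * (ArithmeticFunction.sigma 1 n : ℤ) +
    50 * coeff n TR) := by
  obtain ⟨a, ha⟩ := tr_25 hn
  obtain ⟨b, hb⟩ := tau_625 hn
  refine ⟨b - 2 * a - (Wn n : ℤ), ?_⟩
  linear_combination hb - 50 * ha

end E8T5
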