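import Mathlib

/-!
The count `N0(p)` modulo `p`, for a prime `p = 5 m + 4`.
`T = {t in F_(p^2) : t^(p+1) = -1}`, `tp s = (-11 + 5 s)/2` with `s^2 = 5`.
-/

set_option linter.unusedSectionVars false

namespace E8T5.CN

open Finset

variable {K : Type*} [Field K] [Fintype K] [DecidableEq K]

/-- the root `(-11 + 5 s)/2` of `t^2 + 11 t - 1`. -/
noncomputable def tp (s : K) : K := (-11 + 5 * s) / 2

/-- `t^(p+1) = -1`. -/
def TT (K : Type*) [Field K] [Fintype K] [DecidableEq K] (p : ℕ) : Finset K :=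
  univ.filter (fun t => t ^ (p + 1) = -1)

open Classical in
/-- the number of `t` with `t^(p+1) = -1` and `t ((t-t+)/(t-t-))^2` a fifth power. -/
noncomputable def N0 (p : ℕ) (s : K) : ℕ :=
  ((TT K p).filter (fun t => ∃ z : K, z ^ 5 = t * ((t - tp s) / (t - tp (-s))) ^ 2)).card

/-- the coefficient of `X^m` in `(1 - X/t+)^(2m+1) (1 - X/t-)^(3m+2)`. -/
noncomputable def HH (s : K) (m : ℕ) : K :=
  ((1 - Polynomial.C (tp s)⁻¹ * Polynomial.X) ^ (2 * m + 1) *
    (1 - Polynomial.C (tp (-s))⁻¹ * Polynomial.X) ^ (3 * m + 2) : Polynomial K).coeff m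

lemma mem_TT {p : ℕ} {t : K} : t ∈ TT K p ↔ t ^ (p + 1) = -1 := by
  simp [TT]

section basic

variable {p : ℕ}

lemma two_ne [CharP K p] (hp2 : p ≠ 2) (hp : p.Prime) : (2 : K) ≠ 0 := by
  intro h
  have : ((2 : ℕ) : K) = 0 := by exact_mod_cast h
  rw [CharP.cast_eq_zero_iff K p] at this
  exact hp2 ((Nat.prime_dvd_prime_iff_eq hp Nat.prime_two).mp this)

lemma five_ne [CharP K p] (hp5 : p ≠ 5) (hp : p.Prime) : (5 : K) ≠ 0 := by
  intro h
  have : ((5 : ℕ) : K) = 0 := by exact_mod_cast h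
  rw [CharP.cast_eq_zero_iff K p] at this
  exact hp5 ((Nat.prime_dvd_prime_iff_eq hp Nat.prime_five).mp this)

lemma tp_mul (h2 : (2 : K) ≠ 0) {s : K} (hs : s ^ 2 = 5) : tp s * tp (-s) = -1 := by
  unfold tp
  have h4 : (4 : K) ≠ 0 := by
    have : (4 : K) = 2 * 2 := by norm_num
    rw [this]; exact mul_ne_zero h2 h2
  field_simp
  linear_combination (-25) * hs

lemma tp_ne (h2 : (2 : K) ≠ 0) {s : K} (hs : s ^ 2 = 5) : tp s ≠ 0 := by
  intro h
  have := tp_mul h2 hs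
  rw [h, zero_mul] at this
  have h1 : (1 : K) = 0 := by linear_combination this
  exact one_ne_zero h1

lemma tp_sub (h2 : (2 : K) ≠ 0) (s : K) : tp (-s) - tp s = -(5 * s) := by
  unfold tp
  field_simp
  ring

end basic

section main

variable {p m : ℕ}

lemma tp_frob [Fact p.Prime] [CharP K p] {s : K} (hsp : s ^ p = s) : tp s ^ p = tp s := by
  have h : frobenius K p (tp s) = tp s := by
    unfold tp
    rw [map_div₀, map_add, map_neg, map_mul, map_ofNat, map_ofNat, map_ofNat]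
    simp only [frobenius_def, hsp]
  simpa [frobenius_def] using h

lemma neg_frob [Fact p.Prime] [CharP K p] {s : K} (hsp : s ^ p = s) : (-s) ^ p = -s := by
  have h : frobenius K p (-s) = -s := by
    rw [map_neg]
    simp only [frobenius_def, hsp]
  simpa [frobenius_def] using h

lemma T_ne {t : K} (ht : t ^ (p + 1) = -1) : t ≠ 0 := by
  rintro rfl
  rw [zero_pow (Nat.succ_ne_zero p)] at ht
  have h1 : (1 : K) = 0 := by linear_combination ht
  exact one_ne_zero h1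

lemma T_pow {t : K} (ht : t ^ (p + 1) = -1) : t ^ p = -t⁻¹ := by
  have h0 := T_ne ht
  rw [pow_succ] at ht
  field_simp
  linear_combination ht

/-- Frobenius of `t - t+`. -/
lemma frob_u [Fact p.Prime] [CharP K p] (h2 : (2 : K) ≠ 0) {s : K} (hs : s ^ 2 = 5)
    (hsp : s ^ p = s) {t : K} (ht : t ^ (p + 1) = -1) :
    (t - tp s) ^ p = -(tp s) * t⁻¹ * (t - tp (-s)) := by
  have h0 := T_ne ht
  rw [sub_pow_char, T_pow ht, tp_frob hsp]
  have := tp_mul h2 hs
  field_simp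
  linear_combination -this

lemma pow_e_fix [Fact p.Prime] {x : K} (hx : x ≠ 0) (hf : x ^ p = x) (k : ℕ) :
    x ^ (k * (p - 1)) = 1 := by
  have hp : 1 ≤ p := (Fact.out : p.Prime).one_lt.le
  have h1 : x ^ (p - 1) = 1 := by
    have : x ^ (p - 1) * x = 1 * x := by
      rw [← pow_succ, Nat.sub_add_cancel hp, hf, one_mul]
    exact mul_right_cancel₀ hx this
  rw [mul_comm, pow_mul, h1, one_pow]

lemma pow_5e (hcard : Fintype.card K = p ^ 2) (hpm : p = 5 * m + 4) {x : K} (hx : x ≠ 0) :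
    (x ^ ((m + 1) * (p - 1))) ^ 5 = 1 := by
  have h := FiniteField.pow_card_sub_one_eq_one x hx
  rw [hcard] at h
  rw [← pow_mul]
  have : (m + 1) * (p - 1) * 5 = p ^ 2 - 1 := by
    subst hpm
    have h1 : 5 * m + 4 - 1 = 5 * m + 3 := by omega
    rw [h1]
    have h2 : (5 * m + 4) ^ 2 = (m + 1) * (5 * m + 3) * 5 + 1 := by ring
    rw [h2]; rfl
  rw [this, h]

lemma u_ne [Fact p.Prime] [CharP K p] (h2 : (2 : K) ≠ 0) (h5 : (5 : K) ≠ 0) {s : K}
    (hs : s ^ 2 = 5) (hsp : s ^ p = s) {t : K} (ht : t ^ (p + 1) = -1) : t - tp s ≠ 0 := by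
  intro h
  have h1 : t = tp s := sub_eq_zero.mp h
  have h3 : tp s ^ (p + 1) = -1 := by rw [← h1]; exact ht
  rw [pow_succ, tp_frob hsp] at h3
  have h4 := tp_mul h2 hs
  have h6 : tp s * (tp (-s) - tp s) = 0 := by linear_combination h4 - h3
  rw [tp_sub h2] at h6
  rcases mul_eq_zero.mp h6 with h7 | h7
  · exact tp_ne h2 hs h7
  · have h8 : s = 0 := by
      have h9 : (5 : K) * s = 0 := by linear_combination -h7
      rcases mul_eq_zero.mp h9 with h10 | h10
      · exact absurd h10 h5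
      · exact h10
    rw [h8] at hs
    apply h5
    rw [← hs]; norm_num

/-- `chi(t - t+) chi(t - t-) = chi(t)`. -/
lemma bc_eq [Fact p.Prime] [CharP K p] (hcard : Fintype.card K = p ^ 2) (hpm : p = 5 * m + 4)
    (h2 : (2 : K) ≠ 0) (h5 : (5 : K) ≠ 0) {s : K}
    (hs : s ^ 2 = 5) (hsp : s ^ p = s) {t : K} (ht : t ^ (p + 1) = -1) :
    (t - tp s) ^ ((m + 1) * (p - 1)) * (t - tp (-s)) ^ ((m + 1) * (p - 1))
      = t ^ ((m + 1) * (p - 1)) := by
  set e := (m + 1) * (p - 1) with he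
  have hu := u_ne h2 h5 hs hsp ht
  have h0 := T_ne ht
  have h1 := frob_u h2 hs hsp ht
  have hn : (-(tp s)) ^ e = 1 := pow_e_fix (neg_ne_zero.mpr (tp_ne h2 hs))
    (neg_frob (tp_frob hsp)) (m + 1)
  have h3 : ((t - tp s) ^ p) ^ e = (t ^ e)⁻¹ * (t - tp (-s)) ^ e := by
    rw [h1, mul_pow, mul_pow, hn, one_mul, inv_pow]
  have h4 : ((t - tp s) ^ p) ^ e * (t - tp s) ^ e = 1 := by
    rw [← pow_mul, ← pow_add]
    have h6 : p * e + e = e * 5 * (m + 1) := by
      rw [hpm]; ring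
    rw [h6, pow_mul, pow_mul, he, pow_5e hcard hpm hu, one_pow]
  rw [h3] at h4
  have h7 : t ^ e ≠ 0 := pow_ne_zero _ h0
  field_simp at h4
  linear_combination h4

/-- the sums of `chi(t - t+)^i chi(t - t-)^j`. -/
noncomputable def PS (p m : ℕ) (s : K) (i j : ℕ) : K :=
  ∑ t ∈ TT K p, ((t - tp s) ^ ((m + 1) * (p - 1))) ^ i *
    ((t - tp (-s)) ^ ((m + 1) * (p - 1))) ^ j

lemma neg_sq {s : K} (hs : s ^ 2 = 5) : (-s) ^ 2 = 5 := by
  rw [neg_pow_two]; exact hs

lemma pow_mod5 {x : K} (hx : x ^ 5 = 1) (a b : ℕ) (h : a % 5 = b % 5) : x ^ a = x ^ b := by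
  rw [← Nat.div_add_mod a 5, ← Nat.div_add_mod b 5, pow_add, pow_add, pow_mul, pow_mul, hx,
    one_pow, one_pow, h]

lemma frob_T [Fact p.Prime] [CharP K p] (hp2 : p ≠ 2) {t : K} (ht : t ^ (p + 1) = -1) :
    (t ^ p) ^ (p + 1) = -1 := by
  rw [← pow_mul, mul_comm, pow_mul, ht]
  exact Odd.neg_one_pow ((Fact.out : p.Prime).odd_of_ne_two hp2)

lemma frob_frob (hcard : Fintype.card K = p ^ 2) (t : K) : (t ^ p) ^ p = t := by
  rw [← pow_mul, ← sq, ← hcard]
  exact FiniteField.pow_card t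

lemma PS_frob [Fact p.Prime] [CharP K p] (hcard : Fintype.card K = p ^ 2) (hpm : p = 5 * m + 4)
    (h2 : (2 : K) ≠ 0) (h5 : (5 : K) ≠ 0) (hp2 : p ≠ 2) {s : K}
    (hs : s ^ 2 = 5) (hsp : s ^ p = s) (i j : ℕ) :
    PS p m s i j = PS p m s (4 * i) (4 * j) := by
  unfold PS
  set e := (m + 1) * (p - 1) with he
  refine Finset.sum_nbij' (fun t => t ^ p) (fun t => t ^ p) ?_ ?_ ?_ ?_ ?_
  · intro t ht
    rw [mem_TT] at ht ⊢
    exact frob_T hp2 ht
  · intro t ht
    rw [mem_TT] at ht ⊢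
    exact frob_T hp2 ht
  · intro t _
    exact frob_frob hcard t
  · intro t _
    exact frob_frob hcard t
  · intro t ht
    rw [mem_TT] at ht
    have key : ∀ x : K, x ^ p = x → t - x ≠ 0 → ∀ i : ℕ,
        ((t ^ p - x) ^ e) ^ (4 * i) = ((t - x) ^ e) ^ i := by
      intro x hx hne i
      have h1 : (t ^ p - x) ^ e = ((t - x) ^ e) ^ p := by
        have hsub : (t - x) ^ p = t ^ p - x := by rw [sub_pow_char, hx]
        rw [pow_right_comm (t - x) e p, hsub]
      have h3 := pow_5e hcard hpm hne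
      rw [h1, ← pow_mul]
      apply pow_mod5 h3
      rw [hpm]
      have : (5 * m + 4) * (4 * i) = 5 * (4 * m * i + 3 * i) + i := by ring
      rw [this]; omega
    rw [key _ (tp_frob hsp) (u_ne h2 h5 hs hsp ht) i,
      key _ (tp_frob (neg_frob hsp)) (u_ne h2 h5 (neg_sq hs) (neg_frob hsp) ht) j]

/-- the involution `t ↦ t- (t - t+)/(t - t-)`. -/
noncomputable def sg (s t : K) : K := tp (-s) * (t - tp s) / (t - tp (-s))

lemma sg_sub1 (h2 : (2 : K) ≠ 0) {s : K} (hs : s ^ 2 = 5) {t : K} (hv : t - tp (-s) ≠ 0) :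
    sg s t - tp s = t * (tp (-s) - tp s) / (t - tp (-s)) := by
  unfold sg
  have := tp_mul h2 hs
  field_simp
  ring

lemma sg_sub2 {s : K} {t : K} (hv : t - tp (-s) ≠ 0) :
    sg s t - tp (-s) = tp (-s) * (tp (-s) - tp s) / (t - tp (-s)) := by
  unfold sg
  field_simp
  ring

lemma diff_ne [Fact p.Prime] [CharP K p] (h2 : (2 : K) ≠ 0) (h5 : (5 : K) ≠ 0) {s : K}
    (hs : s ^ 2 = 5) : tp (-s) - tp s ≠ 0 := by
  rw [tp_sub h2]
  intro h
  have h9 : (5 : K) * s = 0 := by linear_combination -h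
  rcases mul_eq_zero.mp h9 with h10 | h10
  · exact h5 h10
  · rw [h10] at hs
    apply h5
    rw [← hs]; norm_num

lemma sg_sg [Fact p.Prime] [CharP K p] (h2 : (2 : K) ≠ 0) (h5 : (5 : K) ≠ 0) {s : K}
    (hs : s ^ 2 = 5) {t : K} (hv : t - tp (-s) ≠ 0) : sg s (sg s t) = t := by
  have hd := diff_ne (p := p) h2 h5 hs
  have hm := tp_ne h2 (neg_sq hs)
  have e1 := sg_sub1 h2 hs hv
  have e2 := sg_sub2 (s := s) hv
  have : sg s (sg s t) = tp (-s) * (sg s t - tp s) / (sg s t - tp (-s)) := rfl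
  rw [this, e1, e2]
  field_simp

lemma sg_T [Fact p.Prime] [CharP K p] (h2 : (2 : K) ≠ 0) (h5 : (5 : K) ≠ 0) {s : K}
    (hs : s ^ 2 = 5) (hsp : s ^ p = s) {t : K} (ht : t ^ (p + 1) = -1) :
    (sg s t) ^ (p + 1) = -1 := by
  have hu := u_ne h2 h5 hs hsp ht
  have hv := u_ne h2 h5 (neg_sq hs) (neg_frob hsp) ht
  have h0 := T_ne ht
  have f1 := frob_u h2 hs hsp ht
  have f2 := frob_u h2 (neg_sq hs) (neg_frob hsp) ht
  rw [neg_neg] at f2
  have h1 := tp_ne h2 hs
  have h3 := tp_ne h2 (neg_sq hs)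
  have h4 := tp_mul h2 hs
  unfold sg
  rw [pow_succ, div_pow, mul_pow, f1, f2, tp_frob (neg_frob hsp)]
  field_simp
  linear_combination h4

lemma PS_sg [Fact p.Prime] [CharP K p] (hcard : Fintype.card K = p ^ 2) (hpm : p = 5 * m + 4)
    (h2 : (2 : K) ≠ 0) (h5 : (5 : K) ≠ 0) {s : K}
    (hs : s ^ 2 = 5) (hsp : s ^ p = s) (i j : ℕ) :
    PS p m s i j = PS p m s i (4 * j) := by
  unfold PS
  set e := (m + 1) * (p - 1) with he
  refine Finset.sum_nbij' (sg s) (sg s) ?_ ?_ ?_ ?_ ?_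
  · intro t ht
    rw [mem_TT] at ht ⊢
    exact sg_T h2 h5 hs hsp ht
  · intro t ht
    rw [mem_TT] at ht ⊢
    exact sg_T h2 h5 hs hsp ht
  · intro t ht
    rw [mem_TT] at ht
    exact sg_sg (p := p) h2 h5 hs (u_ne h2 h5 (neg_sq hs) (neg_frob hsp) ht)
  · intro t ht
    rw [mem_TT] at ht
    exact sg_sg (p := p) h2 h5 hs (u_ne h2 h5 (neg_sq hs) (neg_frob hsp) ht)
  · intro t ht
    rw [mem_TT] at ht
    have hu := u_ne h2 h5 hs hsp ht
    have hv := u_ne h2 h5 (neg_sq hs) (neg_frob hsp) ht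
    have hd := diff_ne (p := p) h2 h5 hs
    have hdf : (tp (-s) - tp s) ^ p = tp (-s) - tp s := by
      rw [sub_pow_char, tp_frob hsp, tp_frob (neg_frob hsp)]
    have hd1 : (tp (-s) - tp s) ^ e = 1 := pow_e_fix hd hdf (m + 1)
    have hm1 : (tp (-s)) ^ e = 1 := pow_e_fix (tp_ne h2 (neg_sq hs)) (tp_frob (neg_frob hsp)) (m + 1)
    have hbc := bc_eq hcard hpm h2 h5 hs hsp ht
    rw [← he] at hbc
    have hc0 : (t - tp (-s)) ^ e ≠ 0 := pow_ne_zero _ hv
    have e1 : (sg s t - tp s) ^ e = (t - tp s) ^ e := by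
      rw [sg_sub1 h2 hs hv, div_pow, mul_pow, hd1, mul_one, ← hbc]
      field_simp
    have e2 : (sg s t - tp (-s)) ^ e = ((t - tp (-s)) ^ e)⁻¹ := by
      rw [sg_sub2 hv, div_pow, mul_pow, hd1, hm1, mul_one, one_div]
    have h5e := pow_5e hcard hpm hv
    rw [← he] at h5e
    have e3 : (((t - tp (-s)) ^ e)⁻¹) = ((t - tp (-s)) ^ e) ^ 4 := by
      field_simp
      rw [← h5e]
    rw [e1, e2, e3]
    congr 1
    rw [← pow_mul ((t - tp (-s)) ^ e) 4 (4 * j)]
    apply pow_mod5 h5e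
    have : 4 * (4 * j) = 5 * (3 * j) + j := by ring
    rw [this]; omega

/-- fifth powers in the multiplicative group. -/
lemma fifth_iff (hcard : Fintype.card K = p ^ 2) (hpm : p = 5 * m + 4) {x : K} (hx : x ≠ 0) :
    (∃ z : K, z ^ 5 = x) ↔ x ^ ((m + 1) * (p - 1)) = 1 := by
  set e := (m + 1) * (p - 1) with he
  have he5 : Fintype.card Kˣ = e * 5 := by
    rw [Fintype.card_units, hcard, he]
    subst hpm
    have h1 : 5 * m + 4 - 1 = 5 * m + 3 := by omega
    rw [h1]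
    have h2 : (5 * m + 4) ^ 2 = (m + 1) * (5 * m + 3) * 5 + 1 := by ring
    rw [h2]; rfl
  have hepos : 0 < e := by
    rw [he]; apply Nat.mul_pos (Nat.succ_pos m)
    rw [hpm]; omega
  constructor
  · rintro ⟨z, hz⟩
    have hz0 : z ≠ 0 := by
      rintro rfl
      apply hx
      rw [← hz]; norm_num
    rw [← hz, pow_right_comm]
    exact pow_5e hcard hpm hz0
  · intro h
    obtain ⟨g, hg⟩ := IsCyclic.exists_monoid_generator (α := Kˣ)
    obtain ⟨k, hk⟩ := hg (Units.mk0 x hx)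
    simp only at hk
    have hord : orderOf g = e * 5 := by
      rw [← he5, ← Nat.card_eq_fintype_card]
      exact orderOf_eq_card_of_forall_mem_powers hg
    have h1 : g ^ (k * e) = 1 := by
      rw [pow_mul, hk]
      ext
      push_cast
      rw [Units.val_mk0]; exact h
    have h2 : e * 5 ∣ k * e := by
      rw [← hord]; exact orderOf_dvd_of_pow_eq_one h1
    have h3 : 5 ∣ k := by
      rw [mul_comm k e] at h2
      exact Nat.dvd_of_mul_dvd_mul_left hepos h2
    obtain ⟨l, rfl⟩ := h3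
    refine ⟨((g ^ l : Kˣ) : K), ?_⟩
    have h4 : (g ^ l) ^ 5 = Units.mk0 x hx := by
      rw [← hk, ← pow_mul, mul_comm]
    have h6 := congrArg (fun u : Kˣ => (u : K)) h4
    simpa using h6

open Classical in
lemma five_N0 [Fact p.Prime] [CharP K p] (hcard : Fintype.card K = p ^ 2) (hpm : p = 5 * m + 4)
    (h2 : (2 : K) ≠ 0) (h5 : (5 : K) ≠ 0) {s : K}
    (hs : s ^ 2 = 5) (hsp : s ^ p = s) :
    ((5 * N0 p s : ℕ) : K) = ∑ t ∈ TT K p, ∑ k ∈ range 5,
      (((t - tp s) ^ ((m + 1) * (p - 1))) ^ 3 * ((t - tp (-s)) ^ ((m + 1) * (p - 1))) ^ 4) ^ k := by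
  set e := (m + 1) * (p - 1) with he
  have h1 : ((5 * N0 p s : ℕ) : K) = ∑ t ∈ TT K p,
      if (∃ z : K, z ^ 5 = t * ((t - tp s) / (t - tp (-s))) ^ 2) then (5 : K) else 0 := by
    rw [← Finset.sum_filter, Finset.sum_const, nsmul_eq_mul]
    unfold N0
    push_cast
    ring
  rw [h1]
  apply Finset.sum_congr rfl
  intro t ht
  rw [mem_TT] at ht
  have hu := u_ne h2 h5 hs hsp ht
  have hv := u_ne h2 h5 (neg_sq hs) (neg_frob hsp) ht
  have h0 := T_ne ht
  have hx : t * ((t - tp s) / (t - tp (-s))) ^ 2 ≠ 0 :=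
    mul_ne_zero h0 (pow_ne_zero _ (div_ne_zero hu hv))
  have hiff := fifth_iff hcard hpm hx
  rw [← he] at hiff
  have hbc := bc_eq hcard hpm h2 h5 hs hsp ht
  rw [← he] at hbc
  have hc5 := pow_5e hcard hpm hv
  have hb5 := pow_5e hcard hpm hu
  rw [← he] at hc5 hb5
  have hchi : (t * ((t - tp s) / (t - tp (-s))) ^ 2) ^ e =
      ((t - tp s) ^ e) ^ 3 * ((t - tp (-s)) ^ e) ^ 4 := by
    have hc0 : (t - tp (-s)) ^ e ≠ 0 := pow_ne_zero _ hv
    rw [mul_pow, pow_right_comm _ 2 e, div_pow, ← hbc]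
    generalize (t - tp s) ^ e = b at *
    generalize (t - tp (-s)) ^ e = c at *
    field_simp
    rw [hc5, mul_one]
  rw [hchi] at hiff
  have hw5 : (((t - tp s) ^ e) ^ 3 * ((t - tp (-s)) ^ e) ^ 4) ^ 5 = 1 := by
    rw [mul_pow, pow_right_comm, hb5, pow_right_comm, hc5]; norm_num
  generalize ((t - tp s) ^ e) ^ 3 * ((t - tp (-s)) ^ e) ^ 4 = w at *
  split_ifs with hex
  · rw [hiff.mp hex]; simp
  · have h6 : (w - 1) * ∑ k ∈ range 5, w ^ k = 0 := by
      rw [mul_geom_sum, hw5, sub_self]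
    rcases mul_eq_zero.mp h6 with h7 | h7
    · exact absurd (hiff.mpr (sub_eq_zero.mp h7)) hex
    · exact h7.symm

lemma PS_mod (hcard : Fintype.card K = p ^ 2) [Fact p.Prime] [CharP K p] (hpm : p = 5 * m + 4)
    (h2 : (2 : K) ≠ 0) (h5 : (5 : K) ≠ 0) {s : K}
    (hs : s ^ 2 = 5) (hsp : s ^ p = s) (i j i' j' : ℕ) (hi : i % 5 = i' % 5) (hj : j % 5 = j' % 5) :
    PS p m s i j = PS p m s i' j' := by
  unfold PS
  apply Finset.sum_congr rfl
  intro t ht
  rw [mem_TT] at ht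
  rw [pow_mod5 (pow_5e hcard hpm (u_ne h2 h5 hs hsp ht)) i i' hi,
    pow_mod5 (pow_5e hcard hpm (u_ne h2 h5 (neg_sq hs) (neg_frob hsp) ht)) j j' hj]

/-- `5 N0 = |T| + 2 (S + S')`. -/
lemma five_N0' [Fact p.Prime] [CharP K p] (hcard : Fintype.card K = p ^ 2) (hpm : p = 5 * m + 4)
    (h2 : (2 : K) ≠ 0) (h5 : (5 : K) ≠ 0) (hp2 : p ≠ 2) {s : K}
    (hs : s ^ 2 = 5) (hsp : s ^ p = s) :
    ((5 * N0 p s : ℕ) : K) = ((TT K p).card : K) + 2 * (PS p m s 2 4 + PS p m s 4 2) := by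
  rw [five_N0 hcard hpm h2 h5 hs hsp, Finset.sum_comm]
  have h : ∀ k : ℕ, ∑ t ∈ TT K p, (((t - tp s) ^ ((m + 1) * (p - 1))) ^ 3 *
      ((t - tp (-s)) ^ ((m + 1) * (p - 1))) ^ 4) ^ k = PS p m s (3 * k) (4 * k) := by
    intro k
    unfold PS
    apply Finset.sum_congr rfl
    intro t _
    rw [mul_pow, ← pow_mul, ← pow_mul, ← pow_mul, ← pow_mul]
  simp only [h]
  rw [Finset.sum_range_succ, Finset.sum_range_succ, Finset.sum_range_succ, Finset.sum_range_succ,
    Finset.sum_range_one]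
  have M := fun i j i' j' hi hj => PS_mod hcard hpm h2 h5 hs hsp i j i' j' hi hj
  have F := fun i j => PS_frob hcard hpm h2 h5 hp2 hs hsp i j
  have G := fun i j => PS_sg hcard hpm h2 h5 hs hsp i j
  have e0 : PS p m s (3 * 0) (4 * 0) = ((TT K p).card : K) := by
    unfold PS; simp
  have e21 : PS p m s 2 1 = PS p m s 2 4 := by rw [G 2 1]
  have e1 : PS p m s (3 * 1) (4 * 1) = PS p m s 2 4 := by
    rw [F, M _ _ 2 1 (by norm_num) (by norm_num), e21]
  have e2 : PS p m s (3 * 2) (4 * 2) = PS p m s 4 2 := by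
    rw [F, M _ _ 4 2 (by norm_num) (by norm_num)]
  have e3 : PS p m s (3 * 3) (4 * 3) = PS p m s 4 2 := by
    rw [M _ _ 4 2 (by norm_num) (by norm_num)]
  have e4 : PS p m s (3 * 4) (4 * 4) = PS p m s 2 4 := by
    rw [M _ _ 2 1 (by norm_num) (by norm_num), e21]
  rw [e0, e1, e2, e3, e4]
  ring

/-- the geometry of `T`: `T = {t0 u^i}`. -/
lemma T_param [Fact p.Prime] (hcard : Fintype.card K = p ^ 2) (hp2 : p ≠ 2) :
    ∃ t0 u : K, IsPrimitiveRoot u (p + 1) ∧ t0 ≠ 0 ∧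
      TT K p = (range (p + 1)).image (fun i => t0 * u ^ i) := by
  have hp : p.Prime := Fact.out
  have hodd := hp.odd_of_ne_two hp2
  obtain ⟨n, hn⟩ := hodd
  obtain ⟨g, hg⟩ := IsCyclic.exists_monoid_generator (α := Kˣ)
  have hord : orderOf g = (p + 1) * (p - 1) := by
    rw [orderOf_eq_card_of_forall_mem_powers hg, Nat.card_eq_fintype_card, Fintype.card_units,
      hcard]
    subst hn
    have h1 : 2 * n + 1 - 1 = 2 * n := by omega
    rw [h1]
    have h2 : (2 * n + 1) ^ 2 = (2 * n + 1 + 1) * (2 * n) + 1 := by ring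
    rw [h2]; rfl
  have hu : IsPrimitiveRoot ((g ^ (p - 1) : Kˣ) : K) (p + 1) := by
    have h1 : IsPrimitiveRoot g (orderOf g) := IsPrimitiveRoot.orderOf g
    rw [hord] at h1
    have h2 : IsPrimitiveRoot (g ^ (p - 1)) (p + 1) := by
      apply h1.pow
      · apply Nat.mul_pos (Nat.succ_pos p)
        have := hp.two_le; omega
      · rw [mul_comm]
    exact IsPrimitiveRoot.coe_units_iff.mpr h2
  set t0 : K := ((g ^ n : Kˣ) : K) with ht0
  have ht00 : t0 ≠ 0 := Units.ne_zero _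
  have ht1 : t0 ^ (p + 1) = -1 := by
    have h1 : (t0 ^ (p + 1)) ^ 2 = 1 := by
      rw [ht0]
      have h3 : (((g ^ n) ^ (p + 1)) ^ 2 : Kˣ) = 1 := by
        rw [← pow_mul, ← pow_mul]
        have h4 : n * ((p + 1) * 2) = orderOf g := by
          rw [hord, hn]
          have : 2 * n + 1 - 1 = 2 * n := by omega
          rw [this]; ring
        rw [h4, pow_orderOf_eq_one]
      have h5 := congrArg (fun u : Kˣ => (u : K)) h3
      simpa using h5
    have h2 : t0 ^ (p + 1) ≠ 1 := by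
      intro h
      have h3 : ((g ^ n) ^ (p + 1) : Kˣ) = 1 := by
        ext
        push_cast
        rw [ht0] at h
        simpa using h
      rw [← pow_mul] at h3
      have h4 := orderOf_dvd_of_pow_eq_one h3
      rw [hord] at h4
      have hnpos : 0 < n := by
        rcases Nat.eq_zero_or_pos n with h0 | h0
        · rw [h0] at hn
          have := hp.two_le
          omega
        · exact h0
      have h6 := Nat.le_of_dvd (Nat.mul_pos hnpos (Nat.succ_pos p)) h4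
      have h7 : p - 1 = 2 * n := by omega
      rw [h7] at h6
      nlinarith
    have h3 : (t0 ^ (p + 1) - 1) * (t0 ^ (p + 1) + 1) = 0 := by
      linear_combination h1
    rcases mul_eq_zero.mp h3 with h4 | h4
    · exact absurd (sub_eq_zero.mp h4) h2
    · exact eq_neg_of_add_eq_zero_left h4
  refine ⟨t0, ((g ^ (p - 1) : Kˣ) : K), hu, ht00, ?_⟩
  ext t
  rw [mem_TT, Finset.mem_image]
  constructor
  · intro ht
    have h1 : (t / t0) ^ (p + 1) = 1 := by
      rw [div_pow, ht, ht1]; norm_num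
    obtain ⟨i, hi, h2⟩ := hu.eq_pow_of_pow_eq_one h1
    refine ⟨i, Finset.mem_range.mpr hi, ?_⟩
    rw [h2]
    field_simp
  · rintro ⟨i, _, rfl⟩
    rw [mul_pow, ht1, ← pow_mul, mul_comm i, pow_mul, hu.pow_eq_one, one_pow, mul_one]

lemma T_inj {t0 u : K} (hu : IsPrimitiveRoot u (p + 1)) (ht0 : t0 ≠ 0) :
    Set.InjOn (fun i => t0 * u ^ i) (range (p + 1) : Finset ℕ) := by
  intro i hi j hj h
  simp only at h
  have h1 := mul_left_cancel₀ ht0 h
  exact hu.pow_inj (Finset.mem_range.mp hi) (Finset.mem_range.mp hj) h1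

lemma T_card [Fact p.Prime] (hcard : Fintype.card K = p ^ 2) (hp2 : p ≠ 2) :
    (TT K p).card = p + 1 := by
  obtain ⟨t0, u, hu, ht0, h⟩ := T_param hcard hp2
  rw [h, Finset.card_image_of_injOn (T_inj hu ht0), Finset.card_range]

/-- power sums over `T`. -/
lemma T_sum [Fact p.Prime] (hcard : Fintype.card K = p ^ 2) (hp2 : p ≠ 2) {a b : ℕ} (hab : a ≠ b)
    (ha : a ≤ b + p) (hb : b ≤ a + p) :
    ∑ t ∈ TT K p, t ^ a * (t⁻¹) ^ b = 0 := by
  obtain ⟨t0, u, hu, ht0, h⟩ := T_param hcard hp2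
  rw [h, Finset.sum_image (T_inj hu ht0)]
  have hu0 : u ≠ 0 := hu.ne_zero (Nat.succ_ne_zero p)
  have h1 : ∀ i : ℕ, (t0 * u ^ i) ^ a * ((t0 * u ^ i)⁻¹) ^ b =
      (t0 ^ a * (t0⁻¹) ^ b) * (u ^ a * (u⁻¹) ^ b) ^ i := by
    intro i
    rw [mul_inv, mul_pow, mul_pow, mul_pow, inv_pow, inv_pow, inv_pow, inv_pow, ← pow_mul,
      ← pow_mul, ← pow_mul, ← pow_mul, mul_comm i a, mul_comm i b]
    ring
  simp only [h1]
  rw [← Finset.mul_sum]
  set w := u ^ a * (u⁻¹) ^ b with hw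
  have hw1 : w ^ (p + 1) = 1 := by
    rw [hw, mul_pow, inv_pow, inv_pow, ← pow_mul, ← pow_mul, mul_comm a, mul_comm b, pow_mul,
      pow_mul, hu.pow_eq_one, one_pow, one_pow, inv_one, one_mul]
  have hwne : w ≠ 1 := by
    intro h2
    have h3 : u ^ a = u ^ b := by
      rw [hw, inv_pow] at h2
      have h4 : u ^ b ≠ 0 := pow_ne_zero _ hu0
      field_simp at h2
      exact h2
    have hone : ∀ x y : ℕ, x < y → y ≤ x + p → u ^ x ≠ u ^ y := by
      intro x y hxy hyx h4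
      have h5 : u ^ (y - x) = 1 := by
        have h6 : u ^ x * u ^ (y - x) = u ^ x * 1 := by
          rw [← pow_add, mul_one, h4]; congr 1; omega
        exact mul_left_cancel₀ (pow_ne_zero _ hu0) h6
      exact hu.pow_ne_one_of_pos_of_lt (by omega) (by omega) h5
    rcases Nat.lt_or_ge a b with h7 | h7
    · exact hone a b h7 hb h3
    · exact hone b a (by omega) ha h3.symm
  have h6 : (w - 1) * ∑ i ∈ range (p + 1), w ^ i = 0 := by
    rw [mul_geom_sum, hw1, sub_self]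
  rcases mul_eq_zero.mp h6 with h7 | h7
  · exact absurd (sub_eq_zero.mp h7) hwne
  · rw [h7, mul_zero]

lemma expo_b (hpm : p = 5 * m + 4) :
    (m + 1) * (p - 1) * 3 = p * (3 * m + 2) + (2 * m + 1) := by
  subst hpm
  have h1 : 5 * m + 4 - 1 = 5 * m + 3 := by omega
  rw [h1]; ring

/-- one term of `S`. -/
lemma term_eq [Fact p.Prime] [CharP K p] (hcard : Fintype.card K = p ^ 2) (hpm : p = 5 * m + 4)
    (h2 : (2 : K) ≠ 0) (h5 : (5 : K) ≠ 0) {s : K}
    (hs : s ^ 2 = 5) (hsp : s ^ p = s) {t : K} (ht : t ^ (p + 1) = -1) :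
    ((t - tp s) ^ ((m + 1) * (p - 1))) ^ 2 * ((t - tp (-s)) ^ ((m + 1) * (p - 1))) ^ 4 =
      -(tp s) ^ (3 * m + 2) * ((t - tp (-s)) ^ (3 * m + 2) * (t - tp s) ^ (2 * m + 1) *
        (t⁻¹) ^ m) := by
  have hu := u_ne h2 h5 hs hsp ht
  have hv := u_ne h2 h5 (neg_sq hs) (neg_frob hsp) ht
  have h0 := T_ne ht
  have hbc := bc_eq hcard hpm h2 h5 hs hsp ht
  have hc5 := pow_5e hcard hpm hv
  have ha : (t ^ ((m + 1) * (p - 1)))⁻¹ = (-t ^ 2) ^ (m + 1) := by
    have h1 : t ^ (p - 1) = -(t⁻¹) ^ 2 := by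
      have hp1 : 1 ≤ p := (Fact.out : p.Prime).one_lt.le
      have h3 : t ^ (p - 1) * t = -(t⁻¹) ^ 2 * t := by
        rw [← pow_succ, Nat.sub_add_cancel hp1, T_pow ht]
        field_simp
      exact mul_right_cancel₀ h0 h3
    rw [mul_comm (m + 1), pow_mul, h1, ← inv_pow]
    congr 1
    field_simp
  have hb3 : ((t - tp s) ^ ((m + 1) * (p - 1))) ^ 3 =
      (-(tp s) * t⁻¹ * (t - tp (-s))) ^ (3 * m + 2) * (t - tp s) ^ (2 * m + 1) := by
    rw [← pow_mul, expo_b hpm, pow_add, pow_mul, frob_u h2 hs hsp ht]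
  have h6 : ((t - tp s) ^ ((m + 1) * (p - 1))) ^ 2 * ((t - tp (-s)) ^ ((m + 1) * (p - 1))) ^ 4 =
      (t ^ ((m + 1) * (p - 1)))⁻¹ * ((t - tp s) ^ ((m + 1) * (p - 1))) ^ 3 := by
    have hb0 : (t - tp s) ^ ((m + 1) * (p - 1)) ≠ 0 := pow_ne_zero _ hu
    have hc0 : (t - tp (-s)) ^ ((m + 1) * (p - 1)) ≠ 0 := pow_ne_zero _ hv
    rw [← hbc]
    generalize (t - tp s) ^ ((m + 1) * (p - 1)) = b at *
    generalize (t - tp (-s)) ^ ((m + 1) * (p - 1)) = c at *
    field_simp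
    rw [hc5]
  rw [h6, ha, hb3]
  have e1 : (-t ^ 2) ^ (m + 1) = (-1) ^ (m + 1) * (t ^ (2 * m + 2)) := by
    rw [neg_eq_neg_one_mul, mul_pow, ← pow_mul]; ring
  have e2 : (-(tp s) * t⁻¹ * (t - tp (-s))) ^ (3 * m + 2) =
      (-1) ^ (3 * m + 2) * (tp s) ^ (3 * m + 2) * (t⁻¹) ^ (3 * m + 2) *
        (t - tp (-s)) ^ (3 * m + 2) := by
    rw [← mul_pow, ← mul_pow, ← mul_pow]; ring
  have e3 : t ^ (2 * m + 2) * (t⁻¹) ^ (3 * m + 2) = (t⁻¹) ^ m := by
    have h7 : (t⁻¹) ^ (3 * m + 2) = (t⁻¹) ^ (2 * m + 2) * (t⁻¹) ^ m := by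
      rw [← pow_add]; congr 1; ring
    calc t ^ (2 * m + 2) * (t⁻¹) ^ (3 * m + 2)
        = (t * t⁻¹) ^ (2 * m + 2) * (t⁻¹) ^ m := by rw [h7, mul_pow]; ring
      _ = (t⁻¹) ^ m := by rw [mul_inv_cancel₀ h0, one_pow, one_mul]
  have e4 : ((-1 : K)) ^ (m + 1) * (-1) ^ (3 * m + 2) = -1 := by
    rw [← pow_add]
    exact Odd.neg_one_pow ⟨2 * m + 1, by ring⟩
  rw [e1, e2]
  linear_combination (tp s) ^ (3 * m + 2) * (t - tp (-s)) ^ (3 * m + 2) *
    (t - tp s) ^ (2 * m + 1) * ((-1) ^ (m + 1) * (-1) ^ (3 * m + 2) * e3 + (t⁻¹) ^ m * e4)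

open Polynomial in
/-- `S` as a coefficient. -/
lemma S_eq [Fact p.Prime] [CharP K p] (hcard : Fintype.card K = p ^ 2) (hpm : p = 5 * m + 4)
    (h2 : (2 : K) ≠ 0) (h5 : (5 : K) ≠ 0) (hp2 : p ≠ 2) {s : K}
    (hs : s ^ 2 = 5) (hsp : s ^ p = s) :
    PS p m s 2 4 = (1 + s) / 2 * HH s m := by
  have hA := tp_ne h2 hs
  have hB := tp_ne h2 (neg_sq hs)
  set F : K[X] := (X - C (tp (-s))) ^ (3 * m + 2) * (X - C (tp s)) ^ (2 * m + 1) with hF
  have hdeg : F.natDegree < p + 1 := by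
    have h1 : F.natDegree ≤ (3 * m + 2) + (2 * m + 1) := by
      rw [hF]
      refine (natDegree_mul_le).trans (Nat.add_le_add ?_ ?_)
      · refine (natDegree_pow_le).trans ?_
        rw [natDegree_X_sub_C, mul_one]
      · refine (natDegree_pow_le).trans ?_
        rw [natDegree_X_sub_C, mul_one]
    rw [hpm]; omega
  have h1 : PS p m s 2 4 = -(tp s) ^ (3 * m + 2) * ∑ t ∈ TT K p, F.eval t * (t⁻¹) ^ m := by
    unfold PS
    rw [Finset.mul_sum]
    apply Finset.sum_congr rfl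
    intro t ht
    rw [mem_TT] at ht
    rw [term_eq hcard hpm h2 h5 hs hsp ht, hF]
    simp only [eval_mul, eval_pow, eval_sub, eval_X, eval_C]
  have h3 : ∑ t ∈ TT K p, F.eval t * (t⁻¹) ^ m = F.coeff m := by
    have h4 : ∀ t : K, F.eval t * (t⁻¹) ^ m =
        ∑ k ∈ range (p + 1), F.coeff k * (t ^ k * (t⁻¹) ^ m) := by
      intro t
      rw [eval_eq_sum_range' hdeg, Finset.sum_mul]
      apply Finset.sum_congr rfl
      intro k _
      ring
    simp only [h4]
    rw [Finset.sum_comm]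
    simp only [← Finset.mul_sum]
    rw [Finset.sum_eq_single m]
    · have h6 : ∑ t ∈ TT K p, t ^ m * (t⁻¹) ^ m = 1 := by
        have h7 : ∑ t ∈ TT K p, t ^ m * (t⁻¹) ^ m = ∑ t ∈ TT K p, (1 : K) := by
          apply Finset.sum_congr rfl
          intro t ht
          rw [mem_TT] at ht
          rw [← mul_pow, mul_inv_cancel₀ (T_ne ht), one_pow]
        rw [h7, Finset.sum_const, T_card hcard hp2, nsmul_eq_mul, mul_one]
        push_cast
        rw [CharP.cast_eq_zero, zero_add]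
      rw [h6, mul_one]
    · intro k hk hkm
      rw [Finset.mem_range] at hk
      rw [T_sum hcard hp2 hkm (by omega) (by omega), mul_zero]
    · intro hm
      exfalso
      apply hm
      rw [Finset.mem_range, hpm]; omega
  have h8 : F = C ((-(tp (-s))) ^ (3 * m + 2) * (-(tp s)) ^ (2 * m + 1)) *
      ((1 - C (tp s)⁻¹ * X) ^ (2 * m + 1) * (1 - C (tp (-s))⁻¹ * X) ^ (3 * m + 2)) := by
    have hx : ∀ r : K, r ≠ 0 → (X - C r : K[X]) = C (-r) * (1 - C r⁻¹ * X) := by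
      intro r hr
      have : (C r : K[X]) * C r⁻¹ = 1 := by
        rw [← C_mul, mul_inv_cancel₀ hr, C_1]
      rw [C_neg]
      linear_combination (-X) * this
    rw [hF, hx _ hA, hx _ hB, mul_pow, mul_pow, C_mul, C_pow, C_pow]
    ring
  have h9 : F.coeff m = (-(tp (-s))) ^ (3 * m + 2) * (-(tp s)) ^ (2 * m + 1) * HH s m := by
    rw [h8, coeff_C_mul]; rfl
  rw [h1, h3, h9]
  have h10 : (tp s) ^ (3 * m + 2) * (-(tp (-s))) ^ (3 * m + 2) = 1 := by
    rw [← mul_pow]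
    have : tp s * -(tp (-s)) = 1 := by linear_combination -(tp_mul h2 hs)
    rw [this, one_pow]
  have h11 : (-(tp s)) ^ (2 * m + 1) = -(tp s) ^ (2 * m + 1) :=
    Odd.neg_pow ⟨m, rfl⟩ _
  have h12 : (tp s) ^ (2 * m + 1) = (1 + s) / 2 := by
    set y : K := (-1 + s) / 2 with hy
    have hy5 : y ^ 5 = tp s := by
      have hy2 : y ^ 2 = (3 - s) / 2 := by
        rw [hy]
        have h4 : (4 : K) ≠ 0 := by
          have : (4 : K) = 2 * 2 := by norm_num
          rw [this]; exact mul_ne_zero h2 h2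
        field_simp
        linear_combination hs
      have hy4 : y ^ 4 = (7 - 3 * s) / 2 := by
        have : y ^ 4 = (y ^ 2) ^ 2 := by ring
        rw [this, hy2]
        have h4 : (4 : K) ≠ 0 := by
          have : (4 : K) = 2 * 2 := by norm_num
          rw [this]; exact mul_ne_zero h2 h2
        field_simp
        linear_combination hs
      have : y ^ 5 = y ^ 4 * y := by ring
      rw [this, hy4, hy]
      unfold tp
      have h4 : (4 : K) ≠ 0 := by
        have : (4 : K) = 2 * 2 := by norm_num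
        rw [this]; exact mul_ne_zero h2 h2
      field_simp
      linear_combination (-3) * hs
    have hyi : y * ((1 + s) / 2) = 1 := by
      rw [hy]
      have h4 : (4 : K) ≠ 0 := by
        have : (4 : K) = 2 * 2 := by norm_num
        rw [this]; exact mul_ne_zero h2 h2
      field_simp
      linear_combination hs
    have hy0 : y ≠ 0 := by
      intro h
      rw [h, zero_mul] at hyi
      exact zero_ne_one hyi
    have hyp : y ^ p = y := by
      have h : frobenius K p y = y := by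
        rw [hy, map_div₀, map_add, map_neg, map_one, map_ofNat]
        simp only [frobenius_def, hsp]
      simpa [frobenius_def] using h
    have h13 : y ^ (10 * m + 5) * y ^ 3 = y ^ 2 := by
      rw [← pow_add]
      have : 10 * m + 5 + 3 = p * 2 := by rw [hpm]; ring
      rw [this, pow_mul, hyp]
    have h14 : y ^ (10 * m + 5) * y = 1 := by
      have h15 : y ^ (10 * m + 5) * y * y ^ 2 = 1 * y ^ 2 := by
        linear_combination h13
      exact mul_right_cancel₀ (pow_ne_zero _ hy0) h15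
    have h16 : (tp s) ^ (2 * m + 1) = y ^ (10 * m + 5) := by
      rw [← hy5, ← pow_mul]; congr 1; ring
    rw [h16]
    calc y ^ (10 * m + 5) = y ^ (10 * m + 5) * (y * ((1 + s) / 2)) := by rw [hyi, mul_one]
      _ = (y ^ (10 * m + 5) * y) * ((1 + s) / 2) := by ring
      _ = (1 + s) / 2 := by rw [h14, one_mul]
  rw [h11]
  linear_combination (tp s) ^ (2 * m + 1) * HH s m * h10 + HH s m * h12

/-- **C1**: the count modulo `p`. -/
theorem count_modp [Fact p.Prime] [CharP K p] (hcard : Fintype.card K = p ^ 2)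
    (hpm : p = 5 * m + 4) {s : K} (hs : s ^ 2 = 5) (hsp : s ^ p = s) :
    ((5 * N0 p s : ℕ) : K) = 1 + 2 * ((1 + s) / 2 * HH s m + (1 - s) / 2 * HH (-s) m) := by
  have hp2 : p ≠ 2 := by omega
  have hp5 : p ≠ 5 := by omega
  have h2 : (2 : K) ≠ 0 := two_ne hp2 Fact.out
  have h5 : (5 : K) ≠ 0 := five_ne hp5 Fact.out
  have hsw : PS p m s 4 2 = PS p m (-s) 2 4 := by
    unfold PS
    rw [neg_neg]
    apply Finset.sum_congr rfl
    intro t _
    rw [mul_comm]
  rw [five_N0' hcard hpm h2 h5 hp2 hs hsp, hsw, S_eq hcard hpm h2 h5 hp2 hs hsp,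
    S_eq hcard hpm h2 h5 hp2 (neg_sq hs) (neg_frob hsp), T_card hcard hp2]
  push_cast
  rw [CharP.cast_eq_zero]
  ring

/-- **C3**. -/
theorem N0_le [Fact p.Prime] (hcard : Fintype.card K = p ^ 2) (hp2 : p ≠ 2) (s : K) :
    N0 p s ≤ p + 1 := by
  unfold N0
  rw [← T_card hcard hp2]
  exact Finset.card_filter_le _ _

open Classical in
/-- a finite set with a fixed point free involution has even cardinality. -/
lemma even_card_of_inv {α : Type*} (S : Finset α) (g : α → α) (hg : ∀ a ∈ S, g a ∈ S)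
    (hne : ∀ a ∈ S, g a ≠ a) (hgg : ∀ a ∈ S, g (g a) = a) : Even S.card := by
  have h : ∑ a ∈ S, (1 : ZMod 2) = 0 := by
    refine Finset.sum_involution (fun a _ => g a) ?_ ?_ ?_ ?_
    · intro a _; decide
    · intro a ha _; exact hne a ha
    · intro a ha; exact hg a ha
    · intro a ha; exact hgg a ha
  rw [Finset.sum_const, nsmul_eq_mul, mul_one] at h
  exact (ZMod.natCast_eq_zero_iff_even).mp h

open Classical in
/-- **C2**: `N0` is even. -/
theorem N0_even [Fact p.Prime] [CharP K p] (hcard : Fintype.card K = p ^ 2)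
    (hpm : p = 5 * m + 4) {s : K} (hs : s ^ 2 = 5) (hsp : s ^ p = s) : Even (N0 p s) := by
  have hp2 : p ≠ 2 := by omega
  have hp5 : p ≠ 5 := by omega
  have h2 : (2 : K) ≠ 0 := two_ne hp2 Fact.out
  have h5 : (5 : K) ≠ 0 := five_ne hp5 Fact.out
  have hodd := (Fact.out : p.Prime).odd_of_ne_two hp2
  unfold N0
  set S := (TT K p).filter (fun t => ∃ z : K, z ^ 5 = t * ((t - tp s) / (t - tp (-s))) ^ 2)
    with hS
  have hsplit := Finset.card_filter_add_card_filter_not (s := S) (fun t => t ^ p = t)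
  rw [← hsplit]
  apply Even.add
  · apply even_card_of_inv _ (fun t => -t)
    · intro t ht
      rw [Finset.mem_filter, hS, Finset.mem_filter, mem_TT] at ht ⊢
      obtain ⟨⟨ht1, _⟩, ht3⟩ := ht
      have hn1 : (-t) ^ (p + 1) = -1 := by
        rw [Even.neg_pow (by
          obtain ⟨n, hn⟩ := hodd
          exact ⟨n + 1, by omega⟩)]
        exact ht1
      have hn2 : (-t) ^ p = -t := neg_frob ht3
      refine ⟨⟨hn1, ?_⟩, hn2⟩
      have hu := u_ne h2 h5 hs hsp hn1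
      have hv := u_ne h2 h5 (neg_sq hs) (neg_frob hsp) hn1
      have hx : -t * ((-t - tp s) / (-t - tp (-s))) ^ 2 ≠ 0 :=
        mul_ne_zero (T_ne hn1) (pow_ne_zero _ (div_ne_zero hu hv))
      rw [fifth_iff hcard hpm hx]
      apply pow_e_fix hx
      have h : frobenius K p (-t * ((-t - tp s) / (-t - tp (-s))) ^ 2) =
          -t * ((-t - tp s) / (-t - tp (-s))) ^ 2 := by
        rw [map_mul, map_pow, map_div₀, map_sub, map_sub]
        simp only [frobenius_def, hn2, tp_frob hsp, tp_frob (neg_frob hsp)]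
      simpa [frobenius_def] using h
    · intro t ht
      rw [Finset.mem_filter, hS, Finset.mem_filter, mem_TT] at ht
      intro h
      have h0 := T_ne ht.1.1
      have h3 : (2 : K) * t = 0 := by linear_combination -h
      rcases mul_eq_zero.mp h3 with h4 | h4
      · exact h2 h4
      · exact h0 h4
    · intro t _
      exact neg_neg t
  · apply even_card_of_inv _ (fun t => t ^ p)
    · intro t ht
      rw [Finset.mem_filter, hS, Finset.mem_filter, mem_TT] at ht ⊢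
      obtain ⟨⟨ht1, z, hz⟩, ht3⟩ := ht
      refine ⟨⟨frob_T hp2 ht1, z ^ p, ?_⟩, ?_⟩
      · have h : frobenius K p (z ^ 5) =
            t ^ p * ((t ^ p - tp s) / (t ^ p - tp (-s))) ^ 2 := by
          rw [hz, map_mul, map_pow, map_div₀, map_sub, map_sub]
          simp only [frobenius_def, tp_frob hsp, tp_frob (neg_frob hsp)]
        rw [← h, frobenius_def, pow_right_comm]
      · rw [frob_frob hcard t]
        exact fun h => ht3 h.symm
    · intro t ht
      rw [Finset.mem_filter] at ht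
      intro h
      exact ht.2 h
    · intro t _
      exact frob_frob hcard t

end main

/-- **C4**: `5` is a square modulo `p`. -/
theorem exists_sqrt5 {p : ℕ} [Fact p.Prime] (h : p % 5 = 4) : ∃ s : ZMod p, s ^ 2 = 5 := by
  have hp2 : p ≠ 2 := by omega
  have : Fact (Nat.Prime 5) := ⟨Nat.prime_five⟩
  have h3 : IsSquare ((p : ℕ) : ZMod 5) := by
    have h4 : ((p : ℕ) : ZMod 5) = ((4 : ℕ) : ZMod 5) := by
      rw [ZMod.natCast_eq_natCast_iff']
      omega
    exact ⟨2, by rw [h4]; rfl⟩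
  obtain ⟨r, hr⟩ := (ZMod.exists_sq_eq_prime_iff_of_mod_four_eq_one (p := 5) (q := p)
    (by norm_num) hp2).mp h3
  refine ⟨r, ?_⟩
  rw [sq, ← hr]
  norm_num

end E8T5.CN
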