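import Pool.Agent.T5X.A9

/-!
# [E8T5-B] the Cartier row: `tr(p)` modulo `p`

`F4 = t⁴ S(X⁵) M (1 - y - y²)² (1 + 2y)`, `y = t(X⁵)`, `M = 1 + 3y + 4y² + 2y³ + y⁴`.
For `p = 5m + 4` prime the coefficient of `X^p` in `F4` is, modulo `p`, a combination of two
coefficients of explicit polynomials.
-/

set_option autoImplicit false

open PowerSeries
open N19 (ex)
open NC11 (D)
open T5X (S At Bt gt)

namespace E8T5

/-- `y = t(X⁵)` -/
noncomputable def y : PowerSeries ℤ := ex 5 T5X.t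

/-- `F4 = t⁴ S(X⁵) M (1 - y - y²)² (1 + 2y)` -/
noncomputable def F4 : PowerSeries ℤ :=
  T5X.t ^ 4 * ex 5 S * ex 5 At * (1 - y - y ^ 2) ^ 2 * (1 + 2 * y)

/-- `(-11 + 5 s)/2` -/
def tp {K : Type*} [Field K] (s : K) : K := (-11 + 5 * s) / 2

/-- the coefficient of `X^m` in `(1 - X/tp s)^(2m+1) (1 - X/tp (-s))^(3m+2)` -/
noncomputable def HH {K : Type*} [Field K] (s : K) (m : ℕ) : K :=
  ((1 - Polynomial.C (tp s)⁻¹ * Polynomial.X) ^ (2 * m + 1) *
    (1 - Polynomial.C (tp (-s))⁻¹ * Polynomial.X) ^ (3 * m + 2)).coeff m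

theorem ex_At : ex 5 At = 1 + 3 * y + 4 * y ^ 2 + 2 * y ^ 3 + y ^ 4 := by
  have h3 : ex 5 (3 : PowerSeries ℤ) = 3 := by
    rw [show (3 : PowerSeries ℤ) = 1 + 1 + 1 by norm_num, E8X.ex_add, E8X.ex_add,
      T5X.ex_one 5 (by norm_num)]
  have h4 : ex 5 (4 : PowerSeries ℤ) = 4 := by
    rw [show (4 : PowerSeries ℤ) = 3 + 1 by norm_num, E8X.ex_add, h3, T5X.ex_one 5 (by norm_num)]
  have h2 : ex 5 (2 : PowerSeries ℤ) = 2 := by
    rw [show (2 : PowerSeries ℤ) = 1 + 1 by norm_num, E8X.ex_add, T5X.ex_one 5 (by norm_num)]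
  rw [At, E8X.ex_add, E8X.ex_add, E8X.ex_add, E8X.ex_add, E8X.ex_mul (by norm_num),
    E8X.ex_mul (by norm_num), E8X.ex_mul (by norm_num), E8X.ex_pow (by norm_num),
    E8X.ex_pow (by norm_num), E8X.ex_pow (by norm_num), h2, h3, h4, T5X.ex_one 5 (by norm_num)]
  rfl

theorem ex_Bt : ex 5 Bt = y - 2 * y ^ 2 + 4 * y ^ 3 - 3 * y ^ 4 + y ^ 5 := by
  have h3 : ex 5 (3 : PowerSeries ℤ) = 3 := by
    rw [show (3 : PowerSeries ℤ) = 1 + 1 + 1 by norm_num, E8X.ex_add, E8X.ex_add,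
      T5X.ex_one 5 (by norm_num)]
  have h4 : ex 5 (4 : PowerSeries ℤ) = 4 := by
    rw [show (4 : PowerSeries ℤ) = 3 + 1 by norm_num, E8X.ex_add, h3, T5X.ex_one 5 (by norm_num)]
  have h2 : ex 5 (2 : PowerSeries ℤ) = 2 := by
    rw [show (2 : PowerSeries ℤ) = 1 + 1 by norm_num, E8X.ex_add, T5X.ex_one 5 (by norm_num)]
  rw [Bt, E8X.ex_add, T5X.ex_sub, E8X.ex_add, T5X.ex_sub, E8X.ex_mul (by norm_num),
    E8X.ex_mul (by norm_num), E8X.ex_mul (by norm_num), E8X.ex_pow (by norm_num),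
    E8X.ex_pow (by norm_num), E8X.ex_pow (by norm_num), E8X.ex_pow (by norm_num), h2, h3, h4]
  rfl

theorem At_zero : constantCoeff At = 1 := by
  rw [At]
  simp [T5X.t_zero]

theorem S_ne : S ≠ 0 := T5X.ne_zero_of_one T5X.S_zero

theorem At_ne : At ≠ 0 := T5X.ne_zero_of_one At_zero

theorem At_r : At * T5X.r = Bt := by
  have h1 := T5X.sr_eq
  have h2 := T5X.s_eq
  have h3 : S * At * (At * T5X.r) = S * At * Bt := by
    rw [h2] at h1
    linear_combination h1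
  exact mul_left_cancel₀ (mul_ne_zero S_ne At_ne) h3

/-- `M t⁵ = y N` -/
theorem M_t5 : ex 5 At * T5X.t ^ 5 = ex 5 Bt := by
  rw [← T5X.ex_r, ← E8X.ex_mul (by norm_num), At_r]

/-- `Dt/t = S(X⁵) (1 - y - y²)⁵` -/
theorem gt_eq : gt = ex 5 S * (1 - y - y ^ 2) ^ 5 := by
  rw [← T5X.ex_gr, T5X.gr_eq, T5X.h1_eq, E8X.ex_mul (by norm_num), E8X.ex_pow (by norm_num),
    T5X.ex_sub, T5X.ex_sub, E8X.ex_pow (by norm_num), T5X.ex_one 5 (by norm_num)]
  rfl

theorem t_one : ∃ T1 : PowerSeries ℤ, T5X.t = X * T1 ∧ constantCoeff T1 = 1 := by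
  refine ⟨ex 25 T5X.E * T5X.iv (ex 5 T5X.eps), ?_, ?_⟩
  · rw [T5X.t]
    ring
  · have h := congrArg constantCoeff T5X.e0_iv
    rw [map_mul, map_one, T5X.ex_zero T5X.eps_zero, one_mul] at h
    rw [map_mul, T5X.ex_zero T5X.E_zero, h, one_mul]

section general

variable {K : Type*} [Field K]

theorem map_D (f : PowerSeries ℤ) : map (Int.castRingHom K) (D f) = D (map (Int.castRingHom K) f) := by
  ext n
  simp [D]

/-- coefficient `p` of `T^k g`, where `D T = g T` -/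
theorem coeff_pw {p : ℕ} [Fact p.Prime] [CharP K p] {T T1 g : PowerSeries K} (hT : T = X * T1)
    (h1 : constantCoeff T1 = 1) (hg : constantCoeff g = 1) (hD : D T = g * T) {k : ℕ} (hk : 0 < k) :
    coeff p (T ^ k * g) = if k = p then 1 else 0 := by
  rcases lt_trichotomy k p with h | h | h
  · rw [if_neg h.ne]
    have h2 : D (T ^ k) = (k : PowerSeries K) * (T ^ k * g) := by
      obtain ⟨j, rfl⟩ : ∃ j, k = j + 1 := ⟨k - 1, by omega⟩
      rw [T5X.Dg_pow, hD]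
      push_cast
      ring
    have h3 := congrArg (coeff p) h2
    rw [D, coeff_mk, CharP.cast_eq_zero, zero_mul, show ((k : ℕ) : PowerSeries K) = C (k : K) by simp,
      coeff_C_mul] at h3
    have h4 : (k : K) ≠ 0 := by
      intro h5
      rw [CharP.cast_eq_zero_iff K p] at h5
      exact absurd (Nat.le_of_dvd hk h5) (by omega)
    rcases mul_eq_zero.1 h3.symm with h5 | h5
    · exact absurd h5 h4
    · exact h5
  · rw [if_pos h, h, hT, mul_pow, mul_assoc, coeff_X_pow_mul', if_pos le_rfl, Nat.sub_self]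
    simp [h1, hg]
  · rw [if_neg h.ne', hT, mul_pow, mul_assoc, coeff_X_pow_mul', if_neg (by omega)]

theorem coeff_poly {p m : ℕ} [Fact p.Prime] [CharP K p] (hp : p = 5 * m + 4) {T T1 g : PowerSeries K}
    (hT : T = X * T1) (h1 : constantCoeff T1 = 1) (hg : constantCoeff g = 1) (hD : D T = g * T)
    (P : Polynomial K) : coeff p (T ^ 4 * Polynomial.aeval (T ^ 5) P * g) = P.coeff m := by
  rw [Polynomial.aeval_eq_sum_range, Finset.mul_sum, Finset.sum_mul, map_sum]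
  have h : ∀ i ∈ Finset.range (P.natDegree + 1),
      coeff p (T ^ 4 * (P.coeff i • (T ^ 5) ^ i) * g) = P.coeff i * (if i = m then 1 else 0) := by
    intro i _
    rw [show T ^ 4 * (P.coeff i • (T ^ 5) ^ i) * g = P.coeff i • (T ^ (4 + 5 * i) * g) by
      rw [mul_smul_comm, smul_mul_assoc, pow_add, pow_mul]]
    rw [coeff_smul, coeff_pw hT h1 hg hD (by omega), smul_eq_mul]
    congr 1
    have : (4 + 5 * i = p) ↔ (i = m) := by omega
    simp only [this]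
  rw [Finset.sum_congr rfl h, Finset.sum_eq_single m]
  · simp
  · intro b _ hb
    rw [if_neg hb, mul_zero]
  · intro hm
    rw [if_pos rfl, mul_one]
    apply Polynomial.coeff_eq_zero_of_natDegree_lt
    simpa using hm

theorem coeff_frob {p : ℕ} [Fact p.Prime] [CharP K p] {H G : PowerSeries K}
    (hH : constantCoeff H = 1) (hG : constantCoeff G = 0) : coeff p (H ^ p * G) = coeff p G := by
  have : CharP (PowerSeries K) p :=
    charP_of_injective_ringHom (f := (C : K →+* PowerSeries K)) C_injective p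
  obtain ⟨H1, h1⟩ : (X : PowerSeries K) ∣ H - 1 := by
    rw [X_dvd_iff, map_sub, hH, map_one, sub_self]
  have h2 : H = 1 + X * H1 := by linear_combination h1
  rw [h2, add_pow_char, one_pow, mul_pow, add_mul, one_mul, map_add, mul_assoc,
    show coeff p (X ^ p * (H1 ^ p * G)) = coeff (0 + p) (X ^ p * (H1 ^ p * G)) by rw [zero_add],
    coeff_X_pow_mul]
  simp [hG]

end general

section half

variable {K : Type*} [Field K]

/-- `(1 + s)/2` -/
def ph (s : K) : K := (1 + s) / 2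

theorem two_ne {p : ℕ} [CharP K p] {m : ℕ} (h : p = 5 * m + 4) : (2 : K) ≠ 0 := by
  intro h2
  have h3 : ((2 : ℕ) : K) = 0 := by exact_mod_cast h2
  rw [CharP.cast_eq_zero_iff K p] at h3
  have := Nat.le_of_dvd (by norm_num) h3
  omega

theorem ph_sq (h2 : (2 : K) ≠ 0) {s : K} (hs : s ^ 2 = 5) : ph s ^ 2 = ph s + 1 := by
  rw [ph]
  field_simp
  linear_combination hs

theorem ph_add (h2 : (2 : K) ≠ 0) (s : K) : ph s + ph (-s) = 1 := by
  rw [ph, ph]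
  field_simp
  ring

theorem ph_mul (h2 : (2 : K) ≠ 0) {s : K} (hs : s ^ 2 = 5) : ph s * ph (-s) = -1 := by
  rw [ph, ph]
  field_simp
  linear_combination -hs

theorem tp_inv (h2 : (2 : K) ≠ 0) {s : K} (hs : s ^ 2 = 5) : (tp s)⁻¹ = ph s ^ 5 := by
  have h : ph s ^ 5 * tp s = 1 := by
    have h1 : ph s ^ 5 = 5 * ph s + 3 := by
      have := ph_sq h2 hs
      linear_combination (ph s ^ 3 + ph s ^ 2 + 2 * ph s + 3) * this
    rw [h1, ph, tp]
    field_simp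
    linear_combination 25 * hs
  exact inv_eq_of_mul_eq_one_left h

/-- `u = 1 - φ Y` -/
noncomputable def u (s : K) (Y : PowerSeries K) : PowerSeries K := 1 - C (ph s) * Y

theorem u_five (h2 : (2 : K) ≠ 0) {s : K} (hs : s ^ 2 = 5) {Y M T : PowerSeries K}
    (hM : M = 1 + 3 * Y + 4 * Y ^ 2 + 2 * Y ^ 3 + Y ^ 4)
    (hT : M * T ^ 5 = Y - 2 * Y ^ 2 + 4 * Y ^ 3 - 3 * Y ^ 4 + Y ^ 5) :
    M * (1 - C (ph s ^ 5) * T ^ 5) = u s Y ^ 5 := by
  have hf : (C (ph s) : PowerSeries K) ^ 2 = C (ph s) + 1 := by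
    rw [← map_pow, ph_sq h2 hs, map_add, map_one]
  rw [u, map_pow]
  set f : PowerSeries K := C (ph s)
  linear_combination (-(f ^ 5)) * hT + hM +
    (-((f ^ 3 + f ^ 2 + 2 * f + 3) * Y + (-2 * (f ^ 3 + f ^ 2 + 2 * f + 3) + 10) * Y ^ 2 +
    (4 * (f ^ 3 + f ^ 2 + 2 * f + 3) - 10 * (f + 1)) * Y ^ 3 +
    (-3 * (f ^ 3 + f ^ 2 + 2 * f + 3) + 5 * (f ^ 2 + f + 2)) * Y ^ 4)) * hf

theorem half {p m : ℕ} [Fact p.Prime] [CharP K p] (hp : p = 5 * m + 4) {s : K} (hs : s ^ 2 = 5)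
    {Y M T T1 g A : PowerSeries K} (hM : M = 1 + 3 * Y + 4 * Y ^ 2 + 2 * Y ^ 3 + Y ^ 4)
    (hMT : M * T ^ 5 = Y - 2 * Y ^ 2 + 4 * Y ^ 3 - 3 * Y ^ 4 + Y ^ 5) (hT : T = X * T1)
    (h1 : constantCoeff T1 = 1) (hY : constantCoeff Y = 0) (hg1 : constantCoeff g = 1)
    (hD : D T = g * T) (hg : g = A * (u s Y * u (-s) Y) ^ 5) :
    coeff p (T ^ 4 * A * M * u s Y ^ 2 * u (-s) Y ^ 3) = HH s m := by
  have h2 : (2 : K) ≠ 0 := two_ne hp
  have hs' : (-s) ^ 2 = 5 := by rw [neg_sq, hs]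
  have hu := u_five h2 hs hM hMT
  have hv := u_five h2 hs' hM hMT
  have hc : ∀ z : K, constantCoeff (u z Y) = 1 := by
    intro z
    rw [u, map_sub, map_mul, hY, mul_zero, sub_zero, map_one]
  have hM1 : constantCoeff M = 1 := by
    rw [hM]
    simp [hY]
  have hT0 : constantCoeff T = 0 := by
    rw [hT]
    simp
  rw [HH, tp_inv h2 hs, tp_inv h2 hs']
  rw [← coeff_poly (K := K) hp hT h1 hg1 hD]
  rw [← coeff_frob (p := p) (H := u s Y ^ 2 * u (-s) Y ^ 3) (G := T ^ 4 * A * M * u s Y ^ 2 * u (-s) Y ^ 3)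
    (by simp [hc]) (by simp [hT0])]
  rw [← coeff_frob (p := p) (H := M) (G := T ^ 4 * Polynomial.aeval (T ^ 5)
      ((1 - Polynomial.C (ph s ^ 5) * Polynomial.X) ^ (2 * m + 1) *
      (1 - Polynomial.C (ph (-s) ^ 5) * Polynomial.X) ^ (3 * m + 2)) * g) hM1 (by simp [hT0])]
  congr 1
  have hP : Polynomial.aeval (T ^ 5) ((1 - Polynomial.C (ph s ^ 5) * Polynomial.X) ^ (2 * m + 1) *
      (1 - Polynomial.C (ph (-s) ^ 5) * Polynomial.X) ^ (3 * m + 2)) =
      (1 - C (ph s ^ 5) * T ^ 5) ^ (2 * m + 1) * (1 - C (ph (-s) ^ 5) * T ^ 5) ^ (3 * m + 2) := by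
    simp only [map_mul, map_pow, map_sub, map_one, Polynomial.aeval_C, Polynomial.aeval_X]
    rfl
  rw [hP, hg]
  have hMp : M ^ p = M * (M ^ (2 * m + 1) * M ^ (3 * m + 2)) := by
    rw [hp]
    ring
  rw [hMp]
  have e1 : M * (M ^ (2 * m + 1) * M ^ (3 * m + 2)) * (T ^ 4 * ((1 - C (ph s ^ 5) * T ^ 5) ^ (2 * m + 1) *
      (1 - C (ph (-s) ^ 5) * T ^ 5) ^ (3 * m + 2)) * (A * (u s Y * u (-s) Y) ^ 5)) =
      M * T ^ 4 * A * (u s Y * u (-s) Y) ^ 5 * ((M * (1 - C (ph s ^ 5) * T ^ 5)) ^ (2 * m + 1) *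
      (M * (1 - C (ph (-s) ^ 5) * T ^ 5)) ^ (3 * m + 2)) := by
    rw [mul_pow M, mul_pow M]
    ring
  rw [e1, hu, hv, hp]
  ring

end half

theorem y_zero : constantCoeff y = 0 := by
  rw [y, ← coeff_zero_eq_constantCoeff_apply, E8X.f3_coeff_ex, if_pos (dvd_zero _), Nat.zero_div,
    coeff_zero_eq_constantCoeff_apply, T5X.t_zero]

theorem exS_zero : constantCoeff (ex 5 S) = 1 := T5X.ex_zero T5X.S_zero

/-- **Row B.** -/
theorem cartier {p m : ℕ} (hp : p.Prime) (h : p = 5 * m + 4) {K : Type*} [Field K] [CharP K p]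
    {s : K} (hs : s ^ 2 = 5) :
    ((coeff p F4 : ℤ) : K) = (1 + s) / 2 * HH s m + (1 - s) / 2 * HH (-s) m := by
  have : Fact p.Prime := ⟨hp⟩
  have h2 : (2 : K) ≠ 0 := two_ne h
  have hs' : (-s) ^ 2 = 5 := by rw [neg_sq, hs]
  set φ : PowerSeries ℤ →+* PowerSeries K := map (Int.castRingHom K) with hφ
  obtain ⟨T1, ht, ht1⟩ := t_one
  have hφc : ∀ f : PowerSeries ℤ, constantCoeff (φ f) = ((constantCoeff f : ℤ) : K) := by
    intro f
    rw [hφ, ← coeff_zero_eq_constantCoeff_apply, coeff_map, coeff_zero_eq_constantCoeff_apply]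
    rfl
  have hT : φ T5X.t = X * φ T1 := by
    rw [ht, map_mul, hφ, map_X]
  have h1 : constantCoeff (φ T1) = 1 := by
    rw [hφc, ht1, Int.cast_one]
  have hY : constantCoeff (φ y) = 0 := by
    rw [hφc, y_zero, Int.cast_zero]
  have hM : φ (ex 5 At) = 1 + 3 * φ y + 4 * φ y ^ 2 + 2 * φ y ^ 3 + φ y ^ 4 := by
    rw [ex_At]
    simp only [map_add, map_mul, map_pow, map_one, map_ofNat]
  have hMT : φ (ex 5 At) * φ T5X.t ^ 5 = φ y - 2 * φ y ^ 2 + 4 * φ y ^ 3 - 3 * φ y ^ 4 + φ y ^ 5 := by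
    rw [← map_pow, ← map_mul, M_t5, ex_Bt]
    simp only [map_add, map_sub, map_mul, map_pow, map_ofNat]
  have hgD : D (φ T5X.t) = φ gt * φ T5X.t := by
    rw [← map_mul, ← T5X.D_t, hφ, map_D]
  have hL : ∀ z : K, z ^ 2 = 5 → u z (φ y) * u (-z) (φ y) = 1 - φ y - φ y ^ 2 := by
    intro z hz
    have e1 : (C (ph z) : PowerSeries K) + C (ph (-z)) = 1 := by
      rw [← map_add, ph_add h2, map_one]
    have e2 : (C (ph z) : PowerSeries K) * C (ph (-z)) = -1 := by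
      rw [← map_mul, ph_mul h2 hz, map_neg, map_one]
    rw [u, u]
    linear_combination (-(φ y)) * e1 + φ y ^ 2 * e2
  have hg : ∀ z : K, z ^ 2 = 5 → φ gt = φ (ex 5 S) * (u z (φ y) * u (-z) (φ y)) ^ 5 := by
    intro z hz
    rw [hL z hz, gt_eq]
    simp only [map_sub, map_mul, map_pow, map_one]
  have hg1 : constantCoeff (φ gt) = 1 := by
    rw [hφc, gt_eq]
    simp [y_zero, exS_zero]
  have A1 := half h hs hM hMT hT h1 hY hg1 hgD (hg s hs)
  have A2 := half h hs' hM hMT hT h1 hY hg1 hgD (hg (-s) hs')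
  rw [neg_neg] at A2
  have hF : φ F4 = C (ph s) * (φ T5X.t ^ 4 * φ (ex 5 S) * φ (ex 5 At) * u s (φ y) ^ 2 * u (-s) (φ y) ^ 3) +
      C (ph (-s)) * (φ T5X.t ^ 4 * φ (ex 5 S) * φ (ex 5 At) * u (-s) (φ y) ^ 2 * u s (φ y) ^ 3) := by
    have e0 : φ F4 = φ T5X.t ^ 4 * φ (ex 5 S) * φ (ex 5 At) * (1 - φ y - φ y ^ 2) ^ 2 * (1 + 2 * φ y) := by
      rw [F4]
      simp only [map_add, map_sub, map_mul, map_pow, map_one, map_ofNat]
    have e1 : (C (ph s) : PowerSeries K) + C (ph (-s)) = 1 := by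
      rw [← map_add, ph_add h2, map_one]
    have e2 : (C (ph s) : PowerSeries K) * C (ph (-s)) = -1 := by
      rw [← map_mul, ph_mul h2 hs, map_neg, map_one]
    have e3 : 1 + 2 * φ y = C (ph s) * u (-s) (φ y) + C (ph (-s)) * u s (φ y) := by
      rw [u, u]
      linear_combination -e1 + 2 * φ y * e2
    rw [e0, e3, ← hL s hs]
    ring
  have hco : ((coeff p F4 : ℤ) : K) = coeff p (φ F4) := by
    rw [hφ, coeff_map]
    rfl
  rw [hco, hF, map_add, coeff_C_mul, coeff_C_mul, A1, A2, ph, ph]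
  ring

end E8T5
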