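import Pool.Agent.T5X.Defs

/-!
# [E8T5] the two theta series and the weight 2 form `trS`
-/

set_option autoImplicit false

open PowerSeries
open N19 (ex)

namespace E8T5

/-- `(-1)^m` -/
def sgn (m : ℤ) : ℤ := if m % 2 = 0 then 1 else -1

/-- `∑_{m ∈ ℤ} (-1)^m X^((5 m² + c m) / 2)` for `c = 1, 3` -/
noncomputable def th (c : ℤ) : PowerSeries ℤ :=
  mk fun n => ∑ m ∈ Finset.Icc (-(n : ℤ)) n, if 5 * m ^ 2 + c * m = 2 * n then sgn m else 0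

/-- `th1 = ∑ (-1)^m X^((5 m² + m) / 2)` -/
noncomputable def th1 : PowerSeries ℤ := th 1

/-- `th3 = ∑ (-1)^m X^((5 m² + 3 m) / 2)` -/
noncomputable def th3 : PowerSeries ℤ := th 3

/-- `- X⁴ th3(X⁵)³ (th1(X²⁵) + 2 X⁵ th3(X²⁵))` -/
noncomputable def trS : PowerSeries ℤ := -(X ^ 4 * ex 5 th3 ^ 3 * (ex 25 th1 + 2 * X ^ 5 * ex 25 th3))

end E8T5
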