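import Pool.Agent.E8T5.A

/-!
# [E8T5-L] the traces in theta form

If `a b = E E(X⁵)` and `ε b = E(X⁵) a` then the series `TR` is `-X⁴ b(X⁵)³ (a(X²⁵) + 2 X⁵ b(X²⁵))`.
-/

set_option autoImplicit false

open PowerSeries
open N19 (ex)
open NC11 (D)
open E8X (Sg Dl F3Cl J tau)
open T5X

namespace E8T5

theorem pow_two_eq {f g : PowerSeries ℤ} (hf : constantCoeff f = 1) (hg : constantCoeff g = 1)
    (h : f ^ 2 = g ^ 2) : f = g := by
  have h1 : (f - g) * (f + g) = 0 := by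
    linear_combination h
  rcases mul_eq_zero.1 h1 with h2 | h2
  · exact sub_eq_zero.1 h2
  · exfalso
    have h3 := congrArg (constantCoeff (R := ℤ)) h2
    rw [map_add, hf, hg, map_zero] at h3
    norm_num at h3

theorem aa_zero : constantCoeff aa = 1 := ex_zero S_zero

theorem pA_zero : constantCoeff (pA yy) = 1 := by
  rw [← ex_A]
  refine ex_zero ?_
  rw [At]
  simp only [map_add, map_mul, map_pow, map_one, t_zero]
  norm_num

theorem aa_E : aa * ex 25 E = ex 25 eps ^ 5 := by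
  have h := congrArg (ex 5) S_E5
  rw [E8X.ex_mul (by norm_num), E8X.ex_ex (by norm_num) (by norm_num), E8X.ex_pow (by norm_num),
    E8X.ex_ex (by norm_num) (by norm_num)] at h
  exact h

theorem pL_E : ex 25 eps * pL yy = ex 5 E := by
  have h := congrArg (ex 5) E_eq
  rw [E8X.ex_mul (by norm_num), E8X.ex_ex (by norm_num) (by norm_num), ex_L] at h
  exact h.symm

/-- the square of `S(X⁵) A(y) (1 - y - y²)²` -/
theorem Q_sq : (aa * pA yy * pL yy ^ 2) ^ 2 * ex 25 E = ex 5 eps ^ 5 * ex 25 eps * ex 5 E ^ 3 := by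
  have h1 := S_E5
  rw [S_aa] at h1
  have h2 := aa_E
  have h3 := pL_E
  have hne : ex 5 E * ex 25 eps ^ 4 ≠ 0 :=
    mul_ne_zero E5_ne (pow_ne_zero 4 (ne_zero_of_one (ex_zero eps_zero)))
  refine mul_right_cancel₀ hne ?_
  have h4 : (ex 25 eps * pL yy) ^ 4 = ex 5 E ^ 4 := by rw [h3]
  linear_combination (aa * ex 25 E * (ex 25 eps * pL yy) ^ 4) * h1 + (ex 5 eps ^ 5 * (ex 25 eps * pL yy) ^ 4) * h2 +
    (ex 5 eps ^ 5 * ex 25 eps ^ 5) * h4

variable {a b : PowerSeries ℤ}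

theorem t_ab (h2 : eps * b = ex 5 E * a) : t * ex 5 a = X * ex 5 b := by
  have h := congrArg (ex 5) h2
  rw [E8X.ex_mul (by norm_num), E8X.ex_mul (by norm_num), E8X.ex_ex (by norm_num) (by norm_num)] at h
  have hne : ex 25 E ≠ 0 := ne_zero_of_one (ex_zero E_zero)
  refine mul_left_cancel₀ hne ?_
  have h' : ex 5 eps * ex 5 b = ex 25 E * ex 5 a := h
  linear_combination (-t) * h' + ex 5 b * t_mul

theorem y_ab (h2 : eps * b = ex 5 E * a) : yy * ex 25 a = X ^ 5 * ex 25 b := by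
  have h := congrArg (ex 5) (t_ab h2)
  rw [E8X.ex_mul (by norm_num), E8X.ex_mul (by norm_num), E8X.ex_ex (by norm_num) (by norm_num),
    E8X.ex_ex (by norm_num) (by norm_num), E8X.ex_X (by norm_num)] at h
  exact h

theorem Q_ab (ha : constantCoeff a = 1) (hb : constantCoeff b = 1) (h1 : a * b = E * ex 5 E)
    (h2 : eps * b = ex 5 E * a) : aa * pA yy * pL yy ^ 2 * ex 5 b = ex 5 a ^ 4 * ex 25 a := by
  refine pow_two_eq ?_ ?_ ?_
  · rw [map_mul, map_mul, map_mul, map_pow, aa_zero, pA_zero, pL_zero, ex_zero hb]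
    norm_num
  · rw [map_mul, map_pow, ex_zero ha, ex_zero ha]
    norm_num
  · have e1 := congrArg (ex 5) h1
    have e2 := congrArg (ex 5) h2
    rw [E8X.ex_mul (by norm_num), E8X.ex_mul (by norm_num), E8X.ex_ex (by norm_num) (by norm_num)] at e1 e2
    have e3 := congrArg (ex 5) e1
    have e4 := congrArg (ex 5) e2
    rw [E8X.ex_mul (by norm_num), E8X.ex_mul (by norm_num), E8X.ex_ex (by norm_num) (by norm_num),
      E8X.ex_ex (by norm_num) (by norm_num), E8X.ex_ex (by norm_num) (by norm_num),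
      E8X.ex_ex (by norm_num) (by norm_num)] at e3 e4
    norm_num only at e1 e2 e3 e4
    have hq := Q_sq
    obtain ⟨q, hq'⟩ : ∃ q, q = aa * pA yy * pL yy ^ 2 := ⟨_, rfl⟩
    rw [← hq'] at hq ⊢
    have hne : ex 25 E * (ex 5 b ^ 3 * ex 25 b) ≠ 0 :=
      mul_ne_zero (ne_zero_of_one (ex_zero E_zero))
        (mul_ne_zero (pow_ne_zero 3 (ne_zero_of_one (ex_zero hb))) (ne_zero_of_one (ex_zero hb)))
    refine mul_right_cancel₀ hne ?_
    have f1 : (ex 5 eps * ex 5 b) ^ 5 = (ex 25 E * ex 5 a) ^ 5 := by rw [e2]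
    have f3 : (ex 5 a * ex 5 b) ^ 3 = (ex 5 E * ex 25 E) ^ 3 := by rw [e1]
    linear_combination (ex 5 b ^ 5 * ex 25 b) * hq + (ex 25 eps * ex 25 b * ex 5 E ^ 3) * f1 +
      ((ex 25 E * ex 5 a) ^ 5 * ex 5 E ^ 3) * e4 - (ex 5 a ^ 5 * ex 25 a * ex 25 E * (ex 25 a * ex 25 b)) * f3 -
      (ex 5 a ^ 5 * ex 25 a * ex 25 E * (ex 5 E * ex 25 E) ^ 3) * e3

/-- the theta form of the traces -/
theorem TR_ab (ha : constantCoeff a = 1) (hb : constantCoeff b = 1) (h1 : a * b = E * ex 5 E)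
    (h2 : eps * b = ex 5 E * a) : TR = -(X ^ 4 * ex 5 b ^ 3 * (ex 25 a + 2 * X ^ 5 * ex 25 b)) := by
  have e1 := t_ab h2
  have e2 := y_ab h2
  have e3 := Q_ab ha hb h1 h2
  have hne : ex 5 a ^ 4 * ex 5 b ≠ 0 :=
    mul_ne_zero (pow_ne_zero 4 (ne_zero_of_one (ex_zero ha))) (ne_zero_of_one (ex_zero hb))
  refine mul_right_cancel₀ hne ?_
  have e4 : (t * ex 5 a) ^ 4 = (X * ex 5 b) ^ 4 := by rw [e1]
  rw [TR]
  linear_combination (-(aa * pA yy * pL yy ^ 2 * (1 + 2 * yy) * ex 5 b)) * e4 -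
    ((X * ex 5 b) ^ 4 * (1 + 2 * yy)) * e3 - (2 * (X * ex 5 b) ^ 4 * ex 5 a ^ 4) * e2

end E8T5
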