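import Pool.Agent.E8T5.TH
import Pool.Agent.E8T5.Defs
import Pool.Agent.E8X.F2

/-!
# [E8T5] `coeff n trS = trc n`
-/

set_option autoImplicit false

open PowerSeries
open N19 (ex)
open E8X

namespace E8T5

theorem tl_ex (k n : ℕ) (B : PowerSeries ℤ) :
    coeff n (ex k B) = if k ∣ n then coeff (n / k) B else 0 := by
  rw [ex, coeff_mk]

/-- the box may be enlarged -/
theorem th_coeff {c : ℤ} (hc : c = 1 ∨ c = 3) {n N : ℕ} (hN : n ≤ N) :
    coeff n (th c) = ∑ m ∈ Finset.Icc (-(N : ℤ)) N, if 5 * m ^ 2 + c * m = 2 * n then sgn m else 0 := by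
  rw [th, coeff_mk]
  refine Finset.sum_subset ?_ ?_
  · intro m hm
    rw [Finset.mem_Icc] at hm ⊢
    constructor <;> omega
  · intro m _ hm
    rw [if_neg]
    intro h
    apply hm
    rw [Finset.mem_Icc]
    rcases hc with rfl | rfl
    · constructor <;> nlinarith
    · constructor
      · by_contra hcon
        rw [not_le] at hcon
        nlinarith
      · nlinarith

/-- the sign character of the class `c` modulo `10` -/
def fc (c x : ℤ) : ℤ := if x % 20 = c then 1 else if x % 20 = c + 10 then -1 else 0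

theorem fc_eq {c : ℤ} (hc : c = 1 ∨ c = 3) (m : ℤ) : fc c (10 * m + c) = sgn m := by
  unfold fc sgn
  rcases hc with rfl | rfl <;> split_ifs <;> omega

theorem fc_ne {c x : ℤ} (hc : c = 1 ∨ c = 3) (h : fc c x ≠ 0) : ∃ m, x = 10 * m + c := by
  unfold fc at h
  refine ⟨(x - c) / 10, ?_⟩
  rcases hc with rfl | rfl <;> split_ifs at h <;> omega

theorem sq_box {w : ℕ} (hw : 0 < w) {x : ℤ} {N : ℕ} (h : (w : ℤ) * x ^ 2 = N) : |x| ≤ N := by
  have hw' : (1 : ℤ) ≤ w := by exact_mod_cast hw
  have h1 : x ^ 2 ≤ N := by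
    rw [← h]
    nlinarith [sq_nonneg x]
  have h3 : |x| ≤ x ^ 2 := by
    rw [← sq_abs]
    rcases eq_or_ne x 0 with h4 | h4
    · rw [h4]
      simp
    · have h5 : 1 ≤ |x| := Int.one_le_abs h4
      nlinarith
  exact h3.trans h1

/-- the unary theta series -/
theorem ts_fc {c : ℕ} (hc : c = 1 ∨ c = 3) {w : ℕ} (hw : 0 < w) :
    ts w (fc c) = X ^ (w * c ^ 2) * ex (40 * w) (th c) := by
  have hc' : (c : ℤ) = 1 ∨ (c : ℤ) = 3 := by
    rcases hc with rfl | rfl
    · exact Or.inl rfl
    · exact Or.inr rfl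
  have hw' : (0 : ℤ) < w := by exact_mod_cast hw
  ext N
  have e1 : coeff N (ts w (fc c)) =
      ∑ m ∈ Finset.Icc (-(N : ℤ)) N, if (w : ℤ) * (10 * m + c) ^ 2 = N then sgn m else 0 := by
    rw [coeff_ts hw _ (le_refl N), ← Finset.sum_filter, ← Finset.sum_filter]
    symm
    refine Finset.sum_bij_ne_zero (fun m _ _ => 10 * m + (c : ℤ)) ?_ ?_ ?_ ?_
    · intro m hm _
      rw [Finset.mem_filter] at hm ⊢
      refine ⟨Finset.mem_Icc.2 (abs_le.1 (sq_box hw hm.2)), hm.2⟩
    · intro a _ _ b _ _ h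
      have : (10 : ℤ) * a + c = 10 * b + c := h
      linarith
    · intro x hx hx0
      obtain ⟨m, hm⟩ := fc_ne hc' hx0
      rw [Finset.mem_filter] at hx
      have hb := sq_box hw hx.2
      refine ⟨m, ?_, ?_, hm.symm⟩
      · rw [Finset.mem_filter, ← hm]
        refine ⟨?_, hx.2⟩
        rw [Finset.mem_Icc]
        have := abs_le.1 hb
        rcases hc' with h | h <;> rw [h] at hm <;> constructor <;> omega
      · unfold sgn
        split_ifs <;> norm_num
    · intro m _ _
      exact (fc_eq hc' m).symm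
  rw [e1, coeff_X_pow_mul', tl_ex]
  by_cases hd : ∃ k : ℕ, N = w * c ^ 2 + 40 * w * k
  · obtain ⟨k, rfl⟩ := hd
    have hk : (w * c ^ 2 + 40 * w * k - w * c ^ 2) = 40 * w * k := by omega
    rw [if_pos (by omega), hk, if_pos (dvd_mul_right _ _), Nat.mul_div_cancel_left k (by positivity),
      th_coeff hc' (n := k) (N := w * c ^ 2 + 40 * w * k) (by nlinarith)]
    refine Finset.sum_congr rfl fun m _ => ?_
    have : ((w : ℤ) * (10 * m + c) ^ 2 = ((w * c ^ 2 + 40 * w * k : ℕ) : ℤ)) ↔ 5 * m ^ 2 + (c : ℤ) * m = 2 * k := by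
      push_cast
      constructor
      · intro h
        have h2 : (w : ℤ) * (20 * (5 * m ^ 2 + (c : ℤ) * m)) = w * (20 * (2 * k)) := by
          linear_combination h
        have h3 := mul_left_cancel₀ hw'.ne' h2
        linarith
      · intro h
        linear_combination (20 * (w : ℤ)) * h
    by_cases h : 5 * m ^ 2 + (c : ℤ) * m = 2 * k
    · rw [if_pos h, if_pos (this.2 h)]
    · rw [if_neg h, if_neg (fun h' => h (this.1 h'))]
  · have h0 : (if w * c ^ 2 ≤ N then (if 40 * w ∣ N - w * c ^ 2 then coeff ((N - w * c ^ 2) / (40 * w)) (th c) else 0)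
        else 0) = (0 : ℤ) := by
      split_ifs with h1 h2
      · exfalso
        apply hd
        obtain ⟨k, hk⟩ := h2
        exact ⟨k, by omega⟩
      · rfl
      · rfl
    rw [h0]
    refine Finset.sum_eq_zero fun m _ => ?_
    rw [if_neg]
    intro h
    apply hd
    have h2 : ∃ j : ℤ, 5 * m ^ 2 + (c : ℤ) * m = 2 * j ∧ 0 ≤ j := by
      have hpar : (5 * m ^ 2 + (c : ℤ) * m) % 2 = 0 := by
        rcases Int.emod_two_eq_zero_or_one m with h3 | h3 <;> rcases hc' with h4 | h4 <;> rw [h4] <;>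
          simp [Int.add_emod, Int.mul_emod, pow_two, h3]
      refine ⟨(5 * m ^ 2 + (c : ℤ) * m) / 2, by omega, ?_⟩
      have : 0 ≤ 5 * m ^ 2 + (c : ℤ) * m := by
        rcases hc' with h4 | h4 <;> rw [h4]
        · rcases le_or_gt 0 m with h5 | h5
          · positivity
          · nlinarith
        · rcases le_or_gt 0 m with h5 | h5
          · positivity
          · nlinarith
      omega
    obtain ⟨j, hj, hj0⟩ := h2
    refine ⟨j.toNat, ?_⟩
    have h3 : ((w * c ^ 2 + 40 * w * j.toNat : ℕ) : ℤ) = N := by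
      push_cast
      rw [Int.toNat_of_nonneg hj0, ← h]
      linear_combination (-(20 * (w : ℤ))) * hj
    exact_mod_cast h3.symm

theorem ts_f3 : ts 1 f3 = X ^ 9 * ex 40 th3 := by
  have h := ts_fc (c := 3) (Or.inr rfl) (w := 1) (by norm_num)
  have e : (fc ((3 : ℕ) : ℤ)) = f3 := by
    funext x
    unfold fc f3
    norm_num
  rw [e] at h
  exact h

theorem ts_g5 : ts 5 g5 = X ^ 5 * ex 200 th1 + 2 * (X ^ 45 * ex 200 th3) := by
  have h1 := ts_fc (c := 1) (Or.inl rfl) (w := 5) (by norm_num)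
  have h3 := ts_fc (c := 3) (Or.inr rfl) (w := 5) (by norm_num)
  norm_num at h1 h3
  have e : ts 5 g5 = ts 5 (fc 1) + 2 * ts 5 (fc 3) := by
    ext n
    rw [map_add, show (2 : PowerSeries ℤ) = C 2 from rfl, coeff_C_mul, ts, ts, ts, coeff_mk, coeff_mk, coeff_mk,
      Finset.mul_sum, ← Finset.sum_add_distrib]
    refine Finset.sum_congr rfl fun x _ => ?_
    by_cases h : (5 : ℕ) * x ^ 2 = (n : ℤ)
    · simp only [if_pos h]
      unfold g5 fc
      split_ifs <;> omega
    · simp only [if_neg h]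
      rfl
  rw [e, h1, h3, th1, th3]

theorem TS_ex : TS = -ex 8 trS := by
  have e8 : (0 : ℕ) < 8 := by norm_num
  have h : ex 8 trS = -(ex 8 (X ^ 4 * ex 5 th3 ^ 3 * (ex 25 th1 + 2 * X ^ 5 * ex 25 th3))) := by
    rw [trS]
    ext n
    rw [map_neg, tl_ex, tl_ex]
    split_ifs
    · rw [map_neg]
    · ring
  have hpow : ∀ (f : PowerSeries ℤ) (k : ℕ), ex 8 (f ^ k) = ex 8 f ^ k := by
    intro f k
    induction k with
    | zero =>
      rw [pow_zero, pow_zero]
      ext n
      rw [tl_ex, coeff_one, coeff_one]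
      by_cases h0 : n = 0
      · subst h0
        simp
      · rw [if_neg h0]
        split_ifs with h1 h2
        · exfalso
          apply h0
          have := Nat.div_mul_cancel h1
          rw [h2, zero_mul] at this
          exact this.symm
        · rfl
        · rfl
    | succ k ih => rw [pow_succ, pow_succ, ex_mul e8, ih]
  have h2 : ex 8 (2 : PowerSeries ℤ) = 2 := by
    ext n
    rw [show (2 : PowerSeries ℤ) = C 2 from rfl, tl_ex, coeff_C, coeff_C]
    by_cases h0 : n = 0
    · subst h0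
      simp
    · rw [if_neg h0]
      split_ifs with h1 h2
      · exfalso
        apply h0
        have := Nat.div_mul_cancel h1
        rw [h2, zero_mul] at this
        exact this.symm
      · rfl
      · rfl
  rw [h, neg_neg, ex_mul e8, ex_mul e8, hpow, hpow, ex_add, ex_mul e8, ex_mul e8, hpow, h2, ex_X e8,
    ex_ex e8 (by norm_num), ex_ex e8 (by norm_num), ex_ex e8 (by norm_num), TS, ts_f3, ts_g5]
  norm_num
  ring

/-- **The coefficients of `trS`.** -/
theorem trS_coeff (n : ℕ) : coeff n trS = trc n := by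
  rw [trc, TS_ex, map_neg, neg_neg, tl_ex, if_pos (dvd_mul_right 8 n), Nat.mul_div_cancel_left n (by norm_num)]

theorem trS_bound {p : ℕ} (hp : p.Prime) (h5 : p % 5 = 4) : |coeff p trS| ≤ 2 * (p + 1) := by
  rw [trS_coeff]
  exact trc_bound hp h5

end E8T5
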