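import Pool.Agent.E8T5.CT
import Pool.Agent.E8T5.L
import Pool.Agent.E8T5.TL

/-!
# [E8T5-FIN] the assembly: `5 N0 = p + 1 - 2 tr(p)` and `τ(p)` modulo `625`
-/

set_option autoImplicit false

open PowerSeries
open N19 (ex)
open NC11 (D)
open E8X (tau)

namespace E8T5

theorem F4_TR : F4 = -TR := by
  rw [TR, F4, ex_A, neg_neg]
  rfl

/-- `5` divides `tr(p)` -/
theorem five_TR {p : ℕ} (hp : p.Prime) (h5 : p % 5 = 4) : (5 : ℤ) ∣ coeff p TR := by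
  have h := tr_25 h5
  rw [ArithmeticFunction.sigma_apply, ArithmeticFunction.sigma_apply, hp.divisors,
    Finset.sum_pair hp.one_lt.ne, Finset.sum_pair hp.one_lt.ne] at h
  have h' : (5 : ℤ) ∣ coeff p TR - (3 * ((1 ^ 5 + p ^ 5 : ℕ) : ℤ) +
      p * ((1 ^ 1 + p ^ 1 : ℕ) : ℤ) + 15 * (T5X.Wn p : ℤ)) := dvd_trans (by norm_num) h
  obtain ⟨k, hk⟩ : ∃ k : ℕ, p = 5 * k + 4 := ⟨p / 5, by omega⟩
  have h2 : (5 : ℤ) ∣ 3 * ((1 ^ 5 + p ^ 5 : ℕ) : ℤ) + p * ((1 ^ 1 + p ^ 1 : ℕ) : ℤ) := by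
    have hp1 : (5 : ℤ) ∣ (p : ℤ) + 1 := ⟨k + 1, by rw [hk]; push_cast; ring⟩
    have hp5 : (5 : ℤ) ∣ (p : ℤ) ^ 5 + 1 := by
      obtain ⟨c, hc⟩ := hp1
      exact ⟨c * ((p : ℤ) ^ 4 - p ^ 3 + p ^ 2 - p + 1), by
        linear_combination ((p : ℤ) ^ 4 - p ^ 3 + p ^ 2 - p + 1) * hc⟩
    push_cast
    obtain ⟨a, ha⟩ := hp1
    obtain ⟨b, hb⟩ := hp5
    exact ⟨3 * b + p * a, by linear_combination 3 * hb + (p : ℤ) * ha⟩
  have h3 : (5 : ℤ) ∣ 15 * (T5X.Wn p : ℤ) := ⟨3 * (T5X.Wn p : ℤ), by ring⟩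
  have h4 := dvd_add h' (dvd_add h2 h3)
  have h5' : coeff p TR - (3 * ((1 ^ 5 + p ^ 5 : ℕ) : ℤ) +
      p * ((1 ^ 1 + p ^ 1 : ℕ) : ℤ) + 15 * (T5X.Wn p : ℤ)) +
      (3 * ((1 ^ 5 + p ^ 5 : ℕ) : ℤ) + p * ((1 ^ 1 + p ^ 1 : ℕ) : ℤ) + 15 * (T5X.Wn p : ℤ)) =
      coeff p TR := by ring
  rwa [h5'] at h4

/-- The count from its residue modulo `p`, its parity, and the bound for `tr(p)`. -/
theorem count_eq {p m : ℕ} (hp : p.Prime) (h : p = 5 * m + 4) {K : Type*} [Field K] [CharP K p]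
    {s : K} (hs : s ^ 2 = 5) (hJ : TR = trS) {N : ℕ}
    (hmod : ((5 * N : ℕ) : K) = 1 + 2 * ((1 + s) / 2 * HH s m + (1 - s) / 2 * HH (-s) m))
    (he : Even N) (hle : N ≤ p + 1) : (5 * N : ℤ) = p + 1 - 2 * coeff p trS := by
  have h5 : p % 5 = 4 := by omega
  have hb := trS_bound hp h5
  have h5t : (5 : ℤ) ∣ coeff p trS := by rw [← hJ]; exact five_TR hp h5
  have hc := cartier hp h hs
  rw [← hc, F4_TR, hJ, map_neg] at hmod
  have hdv : (p : ℤ) ∣ 5 * N - (p + 1 - 2 * coeff p trS) := by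
    have h0 : ((5 * N - (1 - 2 * coeff p trS) : ℤ) : K) = 0 := by
      push_cast at hmod ⊢
      rw [hmod]; ring
    have h1 : (p : ℤ) ∣ 5 * N - (1 - 2 * coeff p trS) := (CharP.intCast_eq_zero_iff K p _).1 h0
    have h2 : (5 * N - (p + 1 - 2 * coeff p trS) : ℤ) = 5 * N - (1 - 2 * coeff p trS) - p * 1 := by ring
    rw [h2]
    exact dvd_sub h1 (dvd_mul_right _ _)
  obtain ⟨k, hk⟩ := hdv
  have hpz : Prime (5 : ℤ) := by norm_num
  have hp19 : 19 ≤ p := by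
    by_contra hlt
    push Not at hlt
    have h9 : p = 4 ∨ p = 9 ∨ p = 14 := by omega
    rcases h9 with h9 | h9 | h9 <;> rw [h9] at hp <;> revert hp <;> norm_num
  -- `5 ∣ k`
  have hk5 : (5 : ℤ) ∣ k := by
    have h1 : (5 : ℤ) ∣ p * k := by
      rw [← hk]
      obtain ⟨a, ha⟩ := h5t
      exact ⟨N - (m + 1) + 2 * a, by rw [ha, h]; push_cast; ring⟩
    rcases hpz.dvd_or_dvd h1 with h2 | h2
    · exfalso
      have : (5 : ℕ) ∣ p := by exact_mod_cast h2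
      omega
    · exact h2
  -- `2 ∣ k`
  have hk2 : (2 : ℤ) ∣ k := by
    have hodd : p % 2 = 1 := hp.eq_two_or_odd.resolve_left (by omega)
    have h1 : (2 : ℤ) ∣ p * k := by
      rw [← hk]
      obtain ⟨a, ha⟩ := he
      obtain ⟨b, hb⟩ : ∃ b : ℕ, p = 2 * b + 1 := ⟨p / 2, by omega⟩
      exact ⟨5 * a - (b + 1) + coeff p trS, by rw [ha]; nth_rw 1 [hb]; push_cast; ring⟩
    rcases Int.prime_two.dvd_or_dvd h1 with h2 | h2
    · exfalso
      have : (2 : ℕ) ∣ p := by exact_mod_cast h2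
      omega
    · exact h2
  have hk10 : (10 : ℤ) ∣ k := by
    obtain ⟨a, ha⟩ := hk5
    obtain ⟨b, hb⟩ := hk2
    omega
  have hk0 : k = 0 := by
    by_contra hne
    obtain ⟨j, hj⟩ := hk10
    have hj0 : j ≠ 0 := by rintro rfl; exact hne (by rw [hj]; ring)
    have habs : (10 : ℤ) * p ≤ |(p : ℤ) * k| := by
      rw [hj, abs_mul, abs_mul]
      have h1 : (1 : ℤ) ≤ |j| := Int.one_le_abs hj0
      have h2 : |(p : ℤ)| = p := abs_of_nonneg (by positivity)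
      have h3 : |(10 : ℤ)| = 10 := by norm_num
      rw [h2, h3]
      have hp0 : (0 : ℤ) < p := by exact_mod_cast hp.pos
      nlinarith
    rw [← hk] at habs
    have hb' := abs_le.1 hb
    have hN0 : (0 : ℤ) ≤ N := by positivity
    have hN1 : (N : ℤ) ≤ p + 1 := by exact_mod_cast hle
    have hp' : (19 : ℤ) ≤ p := by exact_mod_cast hp19
    rcases le_abs.1 habs with h1 | h1 <;> linarith [hb'.1, hb'.2]
  rw [hk0, mul_zero] at hk
  linarith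

/-- **The law modulo `625`, for all primes `p = 4 mod 5`.** -/
theorem law_all {p : ℕ} (hp : p.Prime) (h5 : p % 5 = 4) (hJ : TR = trS) {N : ℕ}
    (hN : (5 * N : ℤ) = p + 1 - 2 * coeff p trS) :
    (625 : ℤ) ∣ tau p - (106 * (1 + p ^ 11) - 200 * (1 + p ^ 5) + (180 - 50 * p) * (1 + p) - 125 * N) := by
  have h := tau_tr h5
  rw [ArithmeticFunction.sigma_apply, ArithmeticFunction.sigma_apply, ArithmeticFunction.sigma_apply,
    hp.divisors, Finset.sum_pair hp.one_lt.ne, Finset.sum_pair hp.one_lt.ne, Finset.sum_pair hp.one_lt.ne,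
    hJ] at h
  push_cast at h
  convert h using 1
  linear_combination 25 * hN

/-- **The law modulo `625`, for all primes `p = -1 mod 25`.** -/
theorem law_25 {p : ℕ} (hp : p.Prime) (h25 : 25 ∣ p + 1) (hJ : TR = trS) {N : ℕ}
    (hN : (5 * N : ℤ) = p + 1 - 2 * coeff p trS) :
    (625 : ℤ) ∣ tau p - (46 * (p + 1) - 125 * N) := by
  have h5 : p % 5 = 4 := by omega
  have h := law_all hp h5 hJ hN
  obtain ⟨k, hk⟩ := h25
  have hp' : (p : ℤ) = 25 * k - 1 := by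
    have : ((p + 1 : ℕ) : ℤ) = ((25 * k : ℕ) : ℤ) := by rw [hk]
    push_cast at this
    linarith
  obtain ⟨c, hc⟩ := h
  have key : (625 : ℤ) ∣ (106 * (1 + (p : ℤ) ^ 11) - 200 * (1 + p ^ 5) + (180 - 50 * p) * (1 + p)) -
      46 * (p + 1) := by
    rw [hp']
    exact ⟨106 * k ^ 2 * ((25 * k) ^ 9 - 11 * (25 * k) ^ 8 + 55 * (25 * k) ^ 7
        - 165 * (25 * k) ^ 6 + 330 * (25 * k) ^ 5 - 462 * (25 * k) ^ 4 + 462 * (25 * k) ^ 3
        - 330 * (25 * k) ^ 2 + 165 * (25 * k) - 55) - 200 * k ^ 2 * ((25 * k) ^ 3 - 5 * (25 * k) ^ 2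
        + 10 * (25 * k) - 10) - 50 * k ^ 2 + 14 * k, by ring⟩
  obtain ⟨d, hd⟩ := key
  exact ⟨c + d, by linear_combination hc + hd⟩

/-- **`625 ∣ τ(p)` for the primes `p = -1 mod 125`.** -/
theorem law_125 {p : ℕ} (hp : p.Prime) (h125 : 125 ∣ p + 1) (hJ : TR = trS) {N : ℕ}
    (hN : (5 * N : ℤ) = p + 1 - 2 * coeff p trS) :
    (125 : ℤ) ∣ tau p ∧ ((625 : ℤ) ∣ tau p ↔ N % 5 = (p + 1) / 125 % 5) := by
  have h := law_25 hp (dvd_trans (by norm_num) h125) hJ hN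
  obtain ⟨k, hk⟩ := h125
  have hp' : (p : ℤ) = 125 * k - 1 := by
    have : ((p + 1 : ℕ) : ℤ) = ((125 * k : ℕ) : ℤ) := by rw [hk]
    push_cast at this
    linarith
  rw [hk, Nat.mul_div_cancel_left k (by norm_num)]
  rw [hp'] at h
  obtain ⟨c, hc⟩ := h
  constructor
  · exact ⟨46 * k - N + 5 * c, by linear_combination hc⟩
  · constructor
    · rintro ⟨d, hd⟩
      omega
    · intro hN5
      have : ∃ e : ℤ, (N : ℤ) - k = 5 * e := by
        have : ((N : ℤ) - k) % 5 = 0 := by omega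
        exact ⟨((N : ℤ) - k) / 5, by omega⟩
      obtain ⟨e, he⟩ := this
      exact ⟨c + 9 * k - e, by linear_combination hc - 125 * he⟩

end E8T5
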