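import Pool.Agent.T5X.A6
import Pool.Agent.E8T5.Defs

/-!
# [E8T5-J1] the product of two theta series

`(∑ (-1)^m X^((5m²+m)/2)) (∑ (-1)^m X^((5m²+3m)/2)) = E(X) E(X⁵)`, by the finite triple product.
-/

set_option autoImplicit false

open PowerSeries
open N19 (ex)
open T5X

namespace E8T5

namespace J1p

/-- Gaussian binomials -/
noncomputable def gb (q : PowerSeries ℤ) : ℕ → ℕ → PowerSeries ℤ
  | _, 0 => 1
  | 0, _ + 1 => 0
  | n + 1, j + 1 => gb q n (j + 1) + q ^ (n - j) * gb q n j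

theorem gb_zero (q : PowerSeries ℤ) (n : ℕ) : gb q n 0 = 1 := by
  cases n <;> rfl

theorem gb_succ (q : PowerSeries ℤ) (n j : ℕ) :
    gb q (n + 1) (j + 1) = gb q n (j + 1) + q ^ (n - j) * gb q n j := rfl

theorem gb_big (q : PowerSeries ℤ) {n j : ℕ} (h : n < j) : gb q n j = 0 := by
  induction n generalizing j with
  | zero =>
    obtain ⟨j, rfl⟩ : ∃ i, j = i + 1 := ⟨j - 1, by omega⟩
    rfl
  | succ n ih =>
    obtain ⟨j, rfl⟩ : ∃ i, j = i + 1 := ⟨j - 1, by omega⟩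
    rw [gb_succ, ih (by omega), ih (by omega), mul_zero, add_zero]

/-- the homogeneous `q`-binomial theorem -/
theorem qbin (q w z : PowerSeries ℤ) (N : ℕ) :
    ∏ i ∈ Finset.range N, (w + z * q ^ i) =
      ∑ j ∈ Finset.range (N + 1), q ^ (j.choose 2) * gb q N j * w ^ (N - j) * z ^ j := by
  induction N with
  | zero => simp [gb_zero]
  | succ N ih =>
    rw [Finset.prod_range_succ, ih, Finset.sum_range_succ' (n := N + 1)]
    have h1 : ∀ j ∈ Finset.range (N + 1),
        q ^ ((j + 1).choose 2) * gb q (N + 1) (j + 1) * w ^ (N + 1 - (j + 1)) * z ^ (j + 1) =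
        q ^ ((j + 1).choose 2) * gb q N (j + 1) * w ^ (N - j) * z ^ (j + 1) +
        z * q ^ N * (q ^ (j.choose 2) * gb q N j * w ^ (N - j) * z ^ j) := by
      intro j hj
      have hj' : j ≤ N := by
        have := Finset.mem_range.1 hj
        omega
      rw [gb_succ, show N + 1 - (j + 1) = N - j by omega]
      have h2 : q ^ ((j + 1).choose 2) * q ^ (N - j) = q ^ N * q ^ (j.choose 2) := by
        rw [← pow_add, ← pow_add]
        congr 1
        have h3 : (j + 1).choose 2 = j.choose 1 + j.choose 2 := Nat.choose_succ_succ j 1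
        rw [h3, Nat.choose_one_right]
        omega
      linear_combination (gb q N j * w ^ (N - j) * z ^ (j + 1)) * h2
    rw [Finset.sum_congr rfl h1, Finset.sum_add_distrib, ← Finset.mul_sum]
    have h4 : ∑ j ∈ Finset.range (N + 1), q ^ ((j + 1).choose 2) * gb q N (j + 1) * w ^ (N - j) * z ^ (j + 1) +
        q ^ ((0 : ℕ).choose 2) * gb q (N + 1) 0 * w ^ (N + 1 - 0) * z ^ 0 =
        w * ∑ j ∈ Finset.range (N + 1), q ^ (j.choose 2) * gb q N j * w ^ (N - j) * z ^ j := by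
      have h5 : ∑ j ∈ Finset.range (N + 1 + 1), q ^ (j.choose 2) * gb q N j * w ^ (N + 1 - j) * z ^ j =
          ∑ j ∈ Finset.range (N + 1), q ^ ((j + 1).choose 2) * gb q N (j + 1) * w ^ (N - j) * z ^ (j + 1) +
          q ^ ((0 : ℕ).choose 2) * gb q (N + 1) 0 * w ^ (N + 1 - 0) * z ^ 0 := by
        rw [Finset.sum_range_succ' (n := N + 1), gb_zero, gb_zero]
        congr 1
        refine Finset.sum_congr rfl fun j _ => ?_
        rw [show N + 1 - (j + 1) = N - j by omega]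
      rw [← h5, Finset.sum_range_succ, gb_big q (Nat.lt_succ_self N), mul_zero, zero_mul, zero_mul, add_zero,
        Finset.mul_sum]
      refine Finset.sum_congr rfl fun j hj => ?_
      have hj' : j ≤ N := by
        have := Finset.mem_range.1 hj
        omega
      rw [show N + 1 - j = (N - j) + 1 by omega, pow_succ]
      ring
    linear_combination (-1 : PowerSeries ℤ) * h4

/-- `∏_{i < n} (1 - q^(i+1))` -/
noncomputable def pq (q : PowerSeries ℤ) (n : ℕ) : PowerSeries ℤ := ∏ i ∈ Finset.range n, (1 - q ^ (i + 1))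

theorem pq_succ (q : PowerSeries ℤ) (n : ℕ) : pq q (n + 1) = pq q n * (1 - q ^ (n + 1)) := by
  rw [pq, Finset.prod_range_succ]
  rfl

theorem pq_zero (q : PowerSeries ℤ) : pq q 0 = 1 := by
  rw [pq, Finset.range_zero, Finset.prod_empty]

theorem gb_pq (q : PowerSeries ℤ) (n : ℕ) : ∀ j k, j + k = n → gb q n j * pq q j * pq q k = pq q n := by
  induction n with
  | zero =>
    intro j k h
    obtain rfl : j = 0 := by omega
    obtain rfl : k = 0 := by omega
    rw [gb_zero, pq_zero]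
    ring
  | succ n ih =>
    intro j k h
    rcases j with _ | j
    · obtain rfl : k = n + 1 := by omega
      rw [gb_zero, pq_zero]
      ring
    · rw [gb_succ]
      rcases k with _ | k
      · obtain rfl : j = n := by omega
        have h1 := ih j 0 (by omega)
        rw [gb_big q (Nat.lt_succ_self j), Nat.sub_self, pow_zero, pq_succ]
        linear_combination (1 - q ^ (j + 1)) * h1
      · have h1 := ih (j + 1) k (by omega)
        have h2 := ih j (k + 1) (by omega)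
        obtain rfl : n = j + k + 1 := by omega
        rw [show j + k + 1 - j = k + 1 by omega]
        rw [pq_succ q k] at h2 ⊢
        rw [pq_succ q j] at h1 ⊢
        rw [pq_succ q (j + k + 1)]
        have h3 : q ^ (j + k + 1 + 1) = q ^ (k + 1) * q ^ (j + 1) := by
          rw [← pow_add]
          congr 1
          omega
        rw [h3]
        linear_combination (1 - q ^ (k + 1)) * h1 + q ^ (k + 1) * (1 - q ^ (j + 1)) * h2

/-- a product over exponents `≥ M` is `1` modulo `X^(M+1)` -/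
theorem tail_prod (M N : ℕ) : (X : PowerSeries ℤ) ^ (M + 1) ∣ pq X (M + N) - pq X M := by
  induction N with
  | zero => simp
  | succ N ih =>
    obtain ⟨w, hw⟩ := ih
    refine ⟨w - pq X (M + N) * X ^ N, ?_⟩
    have h1 : (X : PowerSeries ℤ) ^ (M + N + 1) = X ^ (M + 1) * X ^ N := by
      rw [← pow_add]
      congr 1
      omega
    rw [show M + (N + 1) = M + N + 1 by ring, pq_succ, h1]
    linear_combination hw

theorem E_trunc (M : ℕ) : (X : PowerSeries ℤ) ^ (M + 1) ∣ E - pq X M := by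
  rw [X_pow_dvd_iff]
  intro j hj
  have hev : ∀ᶠ S : Finset ℕ in Filter.atTop,
      (∏ k ∈ S, (1 - X ^ (k + 1) : PowerSeries ℤ)).coeff j = E.coeff j :=
    coeff_prod_one_sub_X_pow_eventually_eq ℤ j
  obtain ⟨S0, hS0⟩ := Filter.eventually_atTop.1 hev
  obtain ⟨N, hN⟩ := S0.exists_nat_subset_range
  have h1 := hS0 (Finset.range (M + N)) (hN.trans (Finset.range_subset_range.2 (by omega)))
  have h2 := (X_pow_dvd_iff.1 (tail_prod M N)) j hj
  rw [map_sub, pq, h1] at h2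
  rw [map_sub]
  exact h2

theorem ex_pq (M : ℕ) : ex 5 (pq X M) = pq (X ^ 5) M := by
  induction M with
  | zero => rw [pq_zero, pq_zero, ex_one 5 (by norm_num)]
  | succ M ih =>
    rw [pq_succ, pq_succ, E8X.ex_mul (by norm_num), ih, ex_sub, ex_one 5 (by norm_num), E8X.ex_pow (by norm_num),
      E8X.ex_X (by norm_num)]

theorem E5_trunc (M : ℕ) : (X : PowerSeries ℤ) ^ (5 * (M + 1)) ∣ ex 5 E - pq (X ^ 5) M := by
  obtain ⟨w, hw⟩ := E_trunc M
  refine ⟨ex 5 w, ?_⟩
  have h := congrArg (ex 5) hw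
  rw [ex_sub, ex_pq, E8X.ex_mul (by norm_num), E8X.ex_pow (by norm_num), E8X.ex_X (by norm_num), ← pow_mul] at h
  exact h

theorem E5_unit : IsUnit (ex 5 E) := by
  rw [PowerSeries.isUnit_iff_constantCoeff, ex_zero E_zero]
  exact isUnit_one

theorem E5_gb (j k : ℕ) : (X : PowerSeries ℤ) ^ (5 * (min j k + 1)) ∣ ex 5 E * gb (X ^ 5) (j + k) j - 1 := by
  have h0 := gb_pq (X ^ 5) (j + k) j k rfl
  have key : ∀ M, min j k ≤ M → (X : PowerSeries ℤ) ^ (5 * (min j k + 1)) ∣ ex 5 E - pq (X ^ 5) M := fun M hM =>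
    (pow_dvd_pow _ (by omega)).trans (E5_trunc M)
  obtain ⟨u, hu⟩ := key j (min_le_left _ _)
  obtain ⟨v, hv⟩ := key k (min_le_right _ _)
  obtain ⟨w, hw⟩ := key (j + k) (by omega)
  have h1 : (X : PowerSeries ℤ) ^ (5 * (min j k + 1)) ∣ ex 5 E * (ex 5 E * gb (X ^ 5) (j + k) j - 1) := by
    refine ⟨gb (X ^ 5) (j + k) j * (u * ex 5 E + pq (X ^ 5) j * v) - w, ?_⟩
    linear_combination h0 + gb (X ^ 5) (j + k) j * (ex 5 E) * hu + gb (X ^ 5) (j + k) j * pq (X ^ 5) j * hv - hw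
  exact (E5_unit.dvd_mul_left).1 h1

/-- the infinite product, truncated -/
noncomputable def Pn (a n : ℕ) : PowerSeries ℤ :=
  ∏ l ∈ Finset.range n, ((1 - X ^ (5 * l + a)) * (1 - X ^ (5 * l + (5 - a))))

/-- the exponents -/
def ee (c k : ℤ) : ℕ := ((5 * k ^ 2 + c * k) / 2).toNat

theorem ee_spec {c : ℤ} (hc : c = 1 ∨ c = 3) (k : ℤ) : 2 * (ee c k : ℤ) = 5 * k ^ 2 + c * k := by
  have h1 : 0 ≤ 5 * k ^ 2 + c * k := by
    rcases le_or_gt 0 k with h | h
    · rcases hc with rfl | rfl <;> positivity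
    · rcases hc with rfl | rfl <;> nlinarith
  have h2 : (5 * k ^ 2 + c * k) % 2 = 0 := by
    rcases Int.even_or_odd' k with ⟨m, rfl | rfl⟩
    · rw [show 5 * (2 * m) ^ 2 + c * (2 * m) = 2 * (10 * m ^ 2 + c * m) by ring]
      exact Int.mul_emod_right 2 _
    · rcases hc with rfl | rfl
      · rw [show 5 * (2 * m + 1) ^ 2 + 1 * (2 * m + 1) = 2 * (10 * m ^ 2 + 11 * m + 3) by ring]
        exact Int.mul_emod_right 2 _
      · rw [show 5 * (2 * m + 1) ^ 2 + 3 * (2 * m + 1) = 2 * (10 * m ^ 2 + 13 * m + 4) by ring]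
        exact Int.mul_emod_right 2 _
  rw [ee, Int.toNat_of_nonneg (by omega)]
  omega

theorem choose2 (j : ℕ) : 2 * ((j.choose 2 : ℕ) : ℤ) = j * (j - 1) := by
  induction j with
  | zero => simp
  | succ j ih =>
    have h3 : (j + 1).choose 2 = j.choose 1 + j.choose 2 := Nat.choose_succ_succ j 1
    rw [h3, Nat.choose_one_right]
    push_cast
    linear_combination ih

theorem sum_exp (a n m : ℕ) : 2 * ((∑ i ∈ Finset.range m, (a + 5 * i + 5 * n) : ℕ) : ℤ) =
    2 * a * m + 5 * m * (m - 1) + 10 * n * m := by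
  induction m with
  | zero => simp
  | succ m ih =>
    rw [Finset.sum_range_succ]
    push_cast at ih ⊢
    linear_combination ih

/-- the left hand side of the finite identity -/
theorem lhs_prod {a : ℕ} (ha : a ≤ 4) (n : ℕ) :
    ∏ i ∈ Finset.range (n + n), ((X : PowerSeries ℤ) ^ (5 * n) + (-X ^ a) * (X ^ 5) ^ i) =
      (-1) ^ n * X ^ (∑ i ∈ Finset.range n, (a + 5 * i + 5 * n)) * Pn a n := by
  rw [Finset.prod_range_add]
  have h1 : ∏ x ∈ Finset.range n, ((X : PowerSeries ℤ) ^ (5 * n) + (-X ^ a) * (X ^ 5) ^ x) =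
      (∏ x ∈ Finset.range n, ((-1) * X ^ (a + 5 * x))) * ∏ x ∈ Finset.range n, (1 - X ^ (5 * x + (5 - a))) := by
    rw [← Finset.prod_range_reflect (fun x => (1 - (X : PowerSeries ℤ) ^ (5 * x + (5 - a)))) n,
      ← Finset.prod_mul_distrib]
    refine Finset.prod_congr rfl fun x hx => ?_
    have hx' := Finset.mem_range.1 hx
    rw [← pow_mul, show (X : PowerSeries ℤ) ^ (5 * n) = X ^ (a + 5 * x) * X ^ (5 * (n - 1 - x) + (5 - a)) by
      rw [← pow_add]
      congr 1
      omega]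
    ring
  have h2 : ∏ x ∈ Finset.range n, ((X : PowerSeries ℤ) ^ (5 * n) + (-X ^ a) * (X ^ 5) ^ (n + x)) =
      (∏ x ∈ Finset.range n, (X ^ (5 * n))) * ∏ x ∈ Finset.range n, (1 - X ^ (5 * x + a)) := by
    rw [← Finset.prod_mul_distrib]
    refine Finset.prod_congr rfl fun x _ => ?_
    rw [← pow_mul, show 5 * (n + x) = 5 * n + 5 * x by ring, pow_add, pow_add]
    ring
  have hP : Pn a n = (∏ x ∈ Finset.range n, (1 - (X : PowerSeries ℤ) ^ (5 * x + a))) *
      ∏ x ∈ Finset.range n, (1 - (X : PowerSeries ℤ) ^ (5 * x + (5 - a))) := by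
    rw [Pn, Finset.prod_mul_distrib]
  rw [h1, h2, hP]
  have h3 : (∏ x ∈ Finset.range n, ((-1) * (X : PowerSeries ℤ) ^ (a + 5 * x))) * ∏ x ∈ Finset.range n, (X ^ (5 * n)) =
      (-1) ^ n * X ^ (∑ i ∈ Finset.range n, (a + 5 * i + 5 * n)) := by
    rw [← Finset.prod_mul_distrib, Finset.prod_congr rfl (g := fun x => (-1) * (X : PowerSeries ℤ) ^ (a + 5 * x + 5 * n))
      (fun x _ => by rw [mul_assoc, ← pow_add]), Finset.prod_mul_distrib, Finset.prod_const, Finset.card_range,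
      Finset.prod_pow_eq_pow_sum]
  linear_combination (∏ x ∈ Finset.range n, (1 - (X : PowerSeries ℤ) ^ (5 * x + (5 - a)))) *
    (∏ x ∈ Finset.range n, (1 - (X : PowerSeries ℤ) ^ (5 * x + a))) * h3

theorem sgn_pow (n j : ℕ) : ((sgn ((j : ℤ) - n) : ℤ) : PowerSeries ℤ) = (-1) ^ n * (-1) ^ j := by
  rw [← pow_add, sgn]
  by_cases h : ((j : ℤ) - n) % 2 = 0
  · rw [if_pos h, Even.neg_one_pow (by rw [Nat.even_iff]; omega)]
    norm_num
  · rw [if_neg h, Odd.neg_one_pow (by rw [Nat.odd_iff]; omega)]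
    norm_num

/-- the finite triple product -/
theorem finite_id {a : ℕ} {c : ℤ} (hc : c = 1 ∨ c = 3) (hac : c = 2 * a - 5) (n : ℕ) :
    Pn a n = ∑ j ∈ Finset.range (2 * n + 1), ((sgn ((j : ℤ) - n) : ℤ) : PowerSeries ℤ) * X ^ (ee c ((j : ℤ) - n)) *
      gb (X ^ 5) (2 * n) j := by
  have h1 := lhs_prod (a := a) (by omega) n
  rw [show n + n = 2 * n by ring, qbin] at h1
  set A := ∑ i ∈ Finset.range n, (a + 5 * i + 5 * n) with hA
  have hA2 : 2 * (A : ℤ) = 2 * a * n + 5 * n * (n - 1) + 10 * n * n := sum_exp a n n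
  have h2 : ∑ j ∈ Finset.range (2 * n + 1), (X ^ 5 : PowerSeries ℤ) ^ (j.choose 2) * gb (X ^ 5) (2 * n) j *
      (X ^ (5 * n)) ^ (2 * n - j) * (-X ^ a) ^ j =
      X ^ A * ∑ j ∈ Finset.range (2 * n + 1), (-1) ^ j * X ^ (ee c ((j : ℤ) - n)) * gb (X ^ 5) (2 * n) j := by
    rw [Finset.mul_sum]
    refine Finset.sum_congr rfl fun j hj => ?_
    have hj' : j ≤ 2 * n := by
      have := Finset.mem_range.1 hj
      omega
    have h3 : (X ^ 5 : PowerSeries ℤ) ^ (j.choose 2) * (X ^ (5 * n)) ^ (2 * n - j) * (X ^ a) ^ j =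
        X ^ A * X ^ (ee c ((j : ℤ) - n)) := by
      rw [← pow_mul, ← pow_mul, ← pow_mul, ← pow_add, ← pow_add, ← pow_add]
      congr 1
      have h4 := ee_spec hc ((j : ℤ) - n)
      have h5 := choose2 j
      obtain ⟨i, hi⟩ : ∃ i, 2 * n = j + i := ⟨2 * n - j, by omega⟩
      have h6 : 2 * n - j = i := by omega
      rw [h6]
      have h7 : (i : ℤ) = 2 * n - j := by
        have : ((2 * n : ℕ) : ℤ) = ((j + i : ℕ) : ℤ) := by rw [hi]
        push_cast at this
        linarith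
      have h8 : (2 : ℤ) * ((5 * j.choose 2 + 5 * n * i + a * j : ℕ) : ℤ) =
          2 * ((A + ee c ((j : ℤ) - n) : ℕ) : ℤ) := by
        push_cast
        rw [h7]
        subst hac
        linear_combination 5 * h5 - hA2 - h4
      have h9 : ((5 * j.choose 2 + 5 * n * i + a * j : ℕ) : ℤ) = ((A + ee c ((j : ℤ) - n) : ℕ) : ℤ) := by
        linarith
      exact_mod_cast h9
    rw [neg_pow]
    linear_combination (gb (X ^ 5) (2 * n) j * (-1) ^ j) * h3
  rw [h2] at h1
  have h3 : ∑ j ∈ Finset.range (2 * n + 1), (-1) ^ j * X ^ (ee c ((j : ℤ) - n)) * gb (X ^ 5) (2 * n) j =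
      (-1) ^ n * Pn a n := by
    have hX : (X : PowerSeries ℤ) ^ A ≠ 0 := pow_ne_zero _ X_ne_zero
    refine mul_left_cancel₀ hX ?_
    rw [h1]
    ring
  have h4 : (-1 : PowerSeries ℤ) ^ n * (-1) ^ n = 1 := by
    rw [← pow_add, Even.neg_one_pow ⟨n, rfl⟩]
  have h5 : Pn a n = (-1) ^ n * ∑ j ∈ Finset.range (2 * n + 1), (-1) ^ j * X ^ (ee c ((j : ℤ) - n)) *
      gb (X ^ 5) (2 * n) j := by
    rw [h3]
    linear_combination (-(Pn a n)) * h4
  rw [h5, Finset.mul_sum]
  refine Finset.sum_congr rfl fun j _ => ?_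
  rw [sgn_pow]
  ring

/-- the truncated theta series -/
theorem th_trunc {c : ℤ} (hc : c = 1 ∨ c = 3) (n : ℕ) : (X : PowerSeries ℤ) ^ n ∣ th c -
    ∑ j ∈ Finset.range (2 * n + 1), ((sgn ((j : ℤ) - n) : ℤ) : PowerSeries ℤ) * X ^ (ee c ((j : ℤ) - n)) := by
  rw [X_pow_dvd_iff]
  intro d hd
  rw [map_sub, map_sum, th, coeff_mk, sub_eq_zero]
  have h1 : ∀ j ∈ Finset.range (2 * n + 1),
      coeff d (((sgn ((j : ℤ) - n) : ℤ) : PowerSeries ℤ) * X ^ (ee c ((j : ℤ) - n))) =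
      if 5 * ((j : ℤ) - n) ^ 2 + c * ((j : ℤ) - n) = 2 * d then sgn ((j : ℤ) - n) else 0 := by
    intro j _
    have h2 : ((sgn ((j : ℤ) - n) : ℤ) : PowerSeries ℤ) = C (sgn ((j : ℤ) - n)) :=
      (eq_intCast (C (R := ℤ)) _).symm
    rw [h2, coeff_C_mul, coeff_X_pow, mul_ite, mul_one, mul_zero]
    have h3 := ee_spec hc ((j : ℤ) - n)
    refine if_congr ⟨fun h => ?_, fun h => ?_⟩ rfl rfl
    · rw [h, h3]
    · rw [← h3] at h
      have : ((ee c ((j : ℤ) - n) : ℕ) : ℤ) = d := by linarith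
      exact_mod_cast this.symm
  rw [Finset.sum_congr rfl h1]
  have h4 : ∑ m ∈ Finset.Icc (-(d : ℤ)) d, (if 5 * m ^ 2 + c * m = 2 * d then sgn m else 0) =
      ∑ m ∈ Finset.Icc (-(n : ℤ)) n, (if 5 * m ^ 2 + c * m = 2 * d then sgn m else 0) := by
    refine Finset.sum_subset (Finset.Icc_subset_Icc (by omega) (by omega)) fun m _ hm => if_neg fun h => hm ?_
    rw [Finset.mem_Icc]
    constructor
    · by_contra h5
      rcases hc with rfl | rfl <;> nlinarith
    · by_contra h5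
      rcases hc with rfl | rfl <;> nlinarith
  rw [h4]
  symm
  refine Finset.sum_bij (fun (j : ℕ) _ => (j : ℤ) - n) ?_ ?_ ?_ ?_
  · intro j hj
    have := Finset.mem_range.1 hj
    rw [Finset.mem_Icc]
    omega
  · intro i _ j _ h
    omega
  · intro m hm
    have h5 := Finset.mem_Icc.1 hm
    exact ⟨(m + n).toNat, Finset.mem_range.2 (by omega), by omega⟩
  · intro j _
    rfl

/-- the theta series is an infinite product -/
theorem th_prod {a : ℕ} {c : ℤ} (hc : c = 1 ∨ c = 3) (hac : c = 2 * a - 5) (n : ℕ) :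
    (X : PowerSeries ℤ) ^ n ∣ th c - ex 5 E * Pn a n := by
  have h1 := th_trunc hc n
  have h2 : (X : PowerSeries ℤ) ^ n ∣ ex 5 E * Pn a n -
      ∑ j ∈ Finset.range (2 * n + 1), ((sgn ((j : ℤ) - n) : ℤ) : PowerSeries ℤ) * X ^ (ee c ((j : ℤ) - n)) := by
    rw [finite_id hc hac n, Finset.mul_sum, ← Finset.sum_sub_distrib]
    refine Finset.dvd_sum fun j hj => ?_
    have hj' : j ≤ 2 * n := by
      have := Finset.mem_range.1 hj
      omega
    obtain ⟨k, hk⟩ : ∃ k, 2 * n = j + k := ⟨2 * n - j, by omega⟩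
    obtain ⟨w, hw⟩ := E5_gb j k
    rw [← hk] at hw
    have h3 : ex 5 E * (((sgn ((j : ℤ) - n) : ℤ) : PowerSeries ℤ) * X ^ (ee c ((j : ℤ) - n)) * gb (X ^ 5) (2 * n) j) -
        ((sgn ((j : ℤ) - n) : ℤ) : PowerSeries ℤ) * X ^ (ee c ((j : ℤ) - n)) =
        X ^ (ee c ((j : ℤ) - n) + 5 * (min j k + 1)) * (((sgn ((j : ℤ) - n) : ℤ) : PowerSeries ℤ) * w) := by
      rw [pow_add]
      linear_combination (((sgn ((j : ℤ) - n) : ℤ) : PowerSeries ℤ) * X ^ (ee c ((j : ℤ) - n))) * hw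
    rw [h3]
    refine Dvd.dvd.mul_right (pow_dvd_pow _ ?_) _
    have h4 := ee_spec hc ((j : ℤ) - n)
    have h5 : (n : ℤ) ≤ ee c ((j : ℤ) - n) + 5 * (min j k + 1) := by
      have hkz : (k : ℤ) = 2 * n - j := by
        have : ((2 * n : ℕ) : ℤ) = ((j + k : ℕ) : ℤ) := by rw [hk]
        push_cast at this
        linarith
      rcases le_total j k with hjk | hjk
      · rw [min_eq_left (by exact_mod_cast hjk)]
        have hx : (j : ℤ) - n ≤ 0 := by
          have : (j : ℤ) ≤ k := by exact_mod_cast hjk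
          linarith
        obtain ⟨x, hx2⟩ : ∃ x : ℤ, (j : ℤ) = n + x := ⟨(j : ℤ) - n, by ring⟩
        rw [hx2] at h4 hx ⊢
        have e1 : (n : ℤ) + x - n = x := by ring
        rw [e1] at h4 hx ⊢
        rcases hc with rfl | rfl
        · nlinarith [sq_nonneg (x + 1), sq_nonneg x]
        · nlinarith [sq_nonneg (x + 1), sq_nonneg x]
      · rw [min_eq_right (by exact_mod_cast hjk)]
        have hx : 0 ≤ (j : ℤ) - n := by
          have : (k : ℤ) ≤ j := by exact_mod_cast hjk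
          linarith
        obtain ⟨x, hx2⟩ : ∃ x : ℤ, (j : ℤ) = n + x := ⟨(j : ℤ) - n, by ring⟩
        rw [hkz]
        rw [hx2] at h4 hx ⊢
        have e1 : (n : ℤ) + x - n = x := by ring
        rw [e1] at h4 hx ⊢
        rcases hc with rfl | rfl
        · nlinarith [sq_nonneg (x - 1), sq_nonneg x]
        · nlinarith [sq_nonneg (x - 1), sq_nonneg x]
    exact_mod_cast h5
  have h6 := dvd_sub h1 h2
  have h7 : th c - (∑ j ∈ Finset.range (2 * n + 1), ((sgn ((j : ℤ) - n) : ℤ) : PowerSeries ℤ) *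
      X ^ (ee c ((j : ℤ) - n))) - (ex 5 E * Pn a n -
      ∑ j ∈ Finset.range (2 * n + 1), ((sgn ((j : ℤ) - n) : ℤ) : PowerSeries ℤ) * X ^ (ee c ((j : ℤ) - n))) =
      th c - ex 5 E * Pn a n := by ring
  rwa [h7] at h6

theorem prod_split (n : ℕ) : pq (X ^ 5) n * (Pn 3 n * Pn 4 n) = pq X (5 * n) := by
  induction n with
  | zero => simp [pq_zero, Pn]
  | succ n ih =>
    rw [pq_succ, Pn, Pn, Finset.prod_range_succ, Finset.prod_range_succ, ← Pn, ← Pn,
      show 5 * (n + 1) = 5 * n + 1 + 1 + 1 + 1 + 1 by ring, pq_succ, pq_succ, pq_succ, pq_succ, pq_succ, ← ih,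
      ← pow_mul]
    simp only [show 5 - 3 = 2 by norm_num, show 5 - 4 = 1 by norm_num, show 5 * n + 1 + 1 = 5 * n + 2 by ring,
      show 5 * n + 2 + 1 = 5 * n + 3 by ring, show 5 * n + 3 + 1 = 5 * n + 4 by ring,
      show 5 * n + 4 + 1 = 5 * (n + 1) by ring]
    ring

end J1p

open J1p in
theorem J1 : th1 * th3 = E * ex 5 E := by
  have key : ∀ n, (X : PowerSeries ℤ) ^ n ∣ th1 * th3 - E * ex 5 E := by
    intro n
    obtain ⟨u, hu⟩ := th_prod (a := 3) (c := 1) (Or.inl rfl) (by norm_num) n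
    obtain ⟨v, hv⟩ := th_prod (a := 4) (c := 3) (Or.inr rfl) (by norm_num) n
    obtain ⟨w, hw⟩ : (X : PowerSeries ℤ) ^ n ∣ ex 5 E - pq (X ^ 5) n :=
      (pow_dvd_pow _ (by omega)).trans (E5_trunc n)
    obtain ⟨x, hx⟩ : (X : PowerSeries ℤ) ^ n ∣ E - pq X (5 * n) :=
      (pow_dvd_pow _ (by omega)).trans (E_trunc (5 * n))
    have hs := prod_split n
    refine ⟨u * th3 + ex 5 E * Pn 3 n * v + ex 5 E * Pn 3 n * Pn 4 n * w - ex 5 E * x, ?_⟩
    rw [th1, th3]
    linear_combination (th 3) * hu + ex 5 E * Pn 3 n * hv + ex 5 E * Pn 3 n * Pn 4 n * hw - ex 5 E * hx +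
      ex 5 E * hs
  ext d
  have h := (X_pow_dvd_iff.1 (key (d + 1))) d (by omega)
  rw [map_sub] at h
  linarith

end E8T5
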