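import Pool.Agent.E8T5.Defs
import Pool.Agent.T5X.A4

/-!
# [E8T5-J2] `eps * th3 = ex 5 E * th1`
-/

set_option autoImplicit false

open PowerSeries
open N19 (ex)
open T5X (E eps)

namespace E8T5

/-- the `m` with `Q m = 2 n` -/
noncomputable def S2 (Q : ℤ → ℤ) (n : ℕ) : Finset ℤ :=
  (Finset.Icc (-(2 * n : ℤ)) (2 * n)).filter fun m => Q m = 2 * n

/-- `∑ (-1)^m X^(Q m / 2)` -/
noncomputable def tQ (Q : ℤ → ℤ) : PowerSeries ℤ := mk fun n => ∑ m ∈ S2 Q n, sgn m

/-- the pairs with `Q a + Q' b = 2 n` -/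
noncomputable def S3 (Q Q' : ℤ → ℤ) (n : ℕ) : Finset (ℤ × ℤ) :=
  ((Finset.Icc (-(2 * n : ℤ)) (2 * n)) ×ˢ (Finset.Icc (-(2 * n : ℤ)) (2 * n))).filter
    fun p => Q p.1 + Q' p.2 = 2 * n

/-- admissible forms -/
def Adm (Q : ℤ → ℤ) : Prop := ∀ m, Q m % 2 = 0 ∧ |m| ≤ Q m

theorem mem_S2 {Q : ℤ → ℤ} (h : Adm Q) {n : ℕ} {m : ℤ} : m ∈ S2 Q n ↔ Q m = 2 * n := by
  unfold S2
  rw [Finset.mem_filter, Finset.mem_Icc]
  refine ⟨fun h1 => h1.2, fun h1 => ⟨?_, h1⟩⟩
  have h2 := (h m).2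
  rw [h1] at h2
  exact abs_le.1 h2

theorem mem_S3 {Q Q' : ℤ → ℤ} (h : Adm Q) (h' : Adm Q') {n : ℕ} {p : ℤ × ℤ} :
    p ∈ S3 Q Q' n ↔ Q p.1 + Q' p.2 = 2 * n := by
  unfold S3
  rw [Finset.mem_filter, Finset.mem_product, Finset.mem_Icc, Finset.mem_Icc]
  refine ⟨fun h1 => h1.2, fun h1 => ⟨?_, h1⟩⟩
  have h2 := (h p.1).2
  have h3 := (h' p.2).2
  have h4 := abs_nonneg p.1
  have h5 := abs_nonneg p.2
  constructor
  · exact abs_le.1 (by linarith)
  · exact abs_le.1 (by linarith)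

theorem coeff_tQ (Q : ℤ → ℤ) (n : ℕ) : coeff n (tQ Q) = ∑ m ∈ S2 Q n, sgn m := by
  rw [tQ, coeff_mk]

theorem coeff_mul_tQ {Q Q' : ℤ → ℤ} (h : Adm Q) (h' : Adm Q') (n : ℕ) :
    coeff n (tQ Q * tQ Q') = ∑ p ∈ S3 Q Q' n, sgn p.1 * sgn p.2 := by
  rw [coeff_mul]
  have hm : ∀ p ∈ S3 Q Q' n,
      ((Q p.1 / 2).toNat, (Q' p.2 / 2).toNat) ∈ Finset.HasAntidiagonal.antidiagonal n := by
    intro p hp
    rw [mem_S3 h h'] at hp
    rw [Finset.HasAntidiagonal.mem_antidiagonal]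
    have h2 := h p.1
    have h3 := h' p.2
    have h4 := abs_nonneg p.1
    have h5 := abs_nonneg p.2
    dsimp only
    omega
  rw [← Finset.sum_fiberwise_of_maps_to hm]
  refine Finset.sum_congr rfl fun ab hab => ?_
  rw [coeff_tQ, coeff_tQ, Finset.sum_mul_sum, ← Finset.sum_product']
  refine Finset.sum_congr ?_ fun _ _ => rfl
  ext p
  rw [Finset.mem_product, Finset.mem_filter, mem_S2 h, mem_S2 h', mem_S3 h h', Prod.ext_iff]
  rw [Finset.HasAntidiagonal.mem_antidiagonal] at hab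
  have h2 := h p.1
  have h3 := h' p.2
  have h4 := abs_nonneg p.1
  have h5 := abs_nonneg p.2
  dsimp only
  omega

theorem sum_sgn (S : Finset (ℤ × ℤ)) : ∑ p ∈ S, sgn p.1 * sgn p.2 =
    ((S.filter fun p => (p.1 + p.2) % 2 = 0).card : ℤ) -
      ((S.filter fun p => (p.1 + p.2) % 2 = 1).card : ℤ) := by
  have h1 : ∀ p : ℤ × ℤ, sgn p.1 * sgn p.2 =
      (if (p.1 + p.2) % 2 = 0 then 1 else 0) - (if (p.1 + p.2) % 2 = 1 then 1 else 0) := by
    intro p
    unfold sgn
    split_ifs <;> omega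
  rw [Finset.sum_congr rfl fun p _ => h1 p, Finset.sum_sub_distrib, Finset.sum_boole, Finset.sum_boole]

/-- the exponents of `th 1`, `th 3`, `ex 5 E` and the two halves of `eps` -/
def q1 (m : ℤ) : ℤ := 5 * m ^ 2 + 1 * m
def q3 (m : ℤ) : ℤ := 5 * m ^ 2 + 3 * m
def qE (m : ℤ) : ℤ := 15 * m ^ 2 - 5 * m
def qA (m : ℤ) : ℤ := 15 * m ^ 2 - m
def qB (m : ℤ) : ℤ := 15 * m ^ 2 + 11 * m + 2

theorem adm_aux {a b c : ℤ} (hab : (a + b) % 2 = 0) (hc : c % 2 = 0) (h : ∀ m : ℤ, |m| ≤ a * m ^ 2 + b * m + c) :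
    Adm fun m => a * m ^ 2 + b * m + c := by
  intro m
  refine ⟨?_, h m⟩
  dsimp only
  have h1 : a * m ^ 2 + b * m + c = a * (m * (m - 1)) + (a + b) * m + c := by ring
  obtain ⟨u, hu⟩ : ∃ u, m * (m - 1) = 2 * u := by
    rcases Int.even_or_odd' m with ⟨k, hk | hk⟩
    · exact ⟨k * (m - 1), by rw [hk]; ring⟩
    · exact ⟨k * m, by rw [show m - 1 = 2 * k by omega]; ring⟩
  obtain ⟨v, hv⟩ : ∃ v, a + b = 2 * v := ⟨(a + b) / 2, by omega⟩
  rw [h1, hu, hv]
  have : a * (2 * u) + 2 * v * m + c = 2 * (a * u + v * m) + c := by ring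
  omega

theorem adm1 : Adm q1 := by
  have h := adm_aux (a := 5) (b := 1) (c := 0) (by norm_num) (by norm_num) (by
    intro m
    rw [abs_le]
    constructor <;> nlinarith [sq_nonneg m, sq_nonneg (m - 1), sq_nonneg (m + 1)])
  intro m
  have h2 := h m
  unfold q1
  simpa using h2

theorem abs_sq (m : ℤ) : |m| ≤ m ^ 2 := by
  rw [← sq_abs]
  have := abs_nonneg m
  rcases eq_or_ne m 0 with h4 | h4
  · rw [h4]
    simp
  · have h5 : 1 ≤ |m| := Int.one_le_abs h4
    nlinarith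

theorem adm3 : Adm q3 := by
  have h := adm_aux (a := 5) (b := 3) (c := 0) (by norm_num) (by norm_num) (by
    intro m
    have h1 := abs_sq m
    have h2 := neg_abs_le m
    nlinarith)
  intro m
  have h2 := h m
  unfold q3
  simpa using h2

theorem admE : Adm qE := by
  have h := adm_aux (a := 15) (b := -5) (c := 0) (by norm_num) (by norm_num) (by
    intro m
    have h1 := abs_sq m
    have h2 := le_abs_self m
    nlinarith)
  intro m
  have h2 := h m
  have h3 : qE m = 15 * m ^ 2 + -5 * m + 0 := by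
    unfold qE
    ring
  rw [h3]
  exact h2

theorem admA : Adm qA := by
  have h := adm_aux (a := 15) (b := -1) (c := 0) (by norm_num) (by norm_num) (by
    intro m
    have h1 := abs_sq m
    have h2 := le_abs_self m
    nlinarith)
  intro m
  have h2 := h m
  have h3 : qA m = 15 * m ^ 2 + -1 * m + 0 := by
    unfold qA
    ring
  rw [h3]
  exact h2

theorem admB : Adm qB := by
  have h := adm_aux (a := 15) (b := 11) (c := 2) (by norm_num) (by norm_num) (by
    intro m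
    have h1 := abs_sq m
    have h2 := neg_abs_le m
    nlinarith)
  exact h

theorem th_eq {c : ℤ} {Q : ℤ → ℤ} (h : Adm Q) (hQ : ∀ m, Q m = 5 * m ^ 2 + c * m)
    (hb : ∀ m, 2 * |m| ≤ Q m) : th c = tQ Q := by
  ext n
  rw [th, coeff_mk, coeff_tQ, ← Finset.sum_filter]
  refine Finset.sum_congr ?_ fun _ _ => rfl
  ext m
  rw [mem_S2 h, Finset.mem_filter, Finset.mem_Icc, hQ]
  refine ⟨fun h1 => h1.2, fun h1 => ⟨?_, h1⟩⟩
  have h2 := hb m
  rw [hQ, h1] at h2
  exact abs_le.1 (by linarith)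

theorem th1_eq : th1 = tQ q1 := by
  refine th_eq adm1 (fun m => rfl) fun m => ?_
  have h1 := abs_sq m
  have h2 := neg_abs_le m
  unfold q1
  nlinarith

theorem th3_eq : th3 = tQ q3 := by
  refine th_eq adm3 (fun m => rfl) fun m => ?_
  have h1 := abs_sq m
  have h2 := neg_abs_le m
  unfold q3
  nlinarith

theorem negOnePow_sgn (k : ℤ) : ((Int.negOnePow k : ℤˣ) : ℤ) = sgn k := by
  unfold sgn
  split_ifs with h
  · rw [Int.negOnePow_even k (Int.even_iff.2 h)]
    rfl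
  · rw [Int.negOnePow_odd k (Int.odd_iff.2 (by omega))]
    rfl

/-- coefficients of `E` -/
theorem E_sgn {n : ℕ} {k : ℤ} (h : 3 * k ^ 2 - k = 2 * n) : coeff n E = sgn k := by
  have h1 := two_mul_natCast_pentagonal k
  have h2 : pentagonal k = n := by
    have : (2 : ℤ) * (pentagonal k : ℤ) = 2 * (n : ℤ) := by
      rw [h1, ← h]
      ring
    have h3 : (pentagonal k : ℤ) = n := by linarith
    exact_mod_cast h3
  rw [← h2, T5X.E_coeff, negOnePow_sgn]

theorem E_none {n : ℕ} (h : ∀ k : ℤ, 3 * k ^ 2 - k ≠ 2 * n) : coeff n E = 0 := by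
  refine T5X.E_coeff_zero fun k hk => h k ?_
  have h1 := two_mul_natCast_pentagonal k
  rw [hk] at h1
  rw [h1]
  ring

theorem pent_uniq {k l : ℤ} (h : 3 * k ^ 2 - k = 3 * l ^ 2 - l) : k = l := by
  have h1 : (k - l) * (3 * (k + l) - 1) = 0 := by linear_combination h
  rcases mul_eq_zero.1 h1 with h2 | h2
  · omega
  · omega

theorem exE_eq : ex 5 E = tQ qE := by
  ext n
  rw [coeff_tQ, E8X.f3_coeff_ex]
  by_cases h : ∃ l, qE l = 2 * n
  · obtain ⟨l, hl⟩ := h
    have hl' : 15 * l ^ 2 - 5 * l = 2 * (n : ℤ) := hl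
    have hd : 5 ∣ n := by
      have : (5 : ℤ) ∣ (n : ℤ) := by omega
      exact_mod_cast this
    obtain ⟨m, rfl⟩ := hd
    have hS : S2 qE (5 * m) = {l} := by
      ext k
      rw [mem_S2 admE, Finset.mem_singleton]
      refine ⟨fun hk => pent_uniq ?_, fun hk => by rw [hk]; exact hl⟩
      have hk' : 15 * k ^ 2 - 5 * k = 2 * ((5 * m : ℕ) : ℤ) := hk
      linarith
    rw [hS, Finset.sum_singleton, if_pos ⟨m, rfl⟩, Nat.mul_div_cancel_left _ (by norm_num)]
    refine E_sgn ?_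
    push_cast at hl'
    linarith
  · push Not at h
    have hS : S2 qE n = ∅ := by
      refine Finset.eq_empty_of_forall_notMem fun k hk => h k ?_
      exact (mem_S2 admE).1 hk
    rw [hS, Finset.sum_empty]
    split_ifs with hd
    · obtain ⟨m, rfl⟩ := hd
      rw [Nat.mul_div_cancel_left _ (by norm_num)]
      refine E_none fun k hk => h k ?_
      unfold qE
      push_cast
      linarith
    · rfl

theorem eps_eq : eps = tQ qA + tQ qB := by
  ext n
  rw [map_add, coeff_tQ, coeff_tQ, eps, coeff_mk]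
  by_cases h : ∃ k : ℤ, 3 * k ^ 2 - k = 2 * (5 * n : ℕ)
  · obtain ⟨k, hk⟩ := h
    rw [E_sgn hk]
    have hm : k % 5 = 0 ∨ k % 5 = 2 := by
      have h1 : (3 * k ^ 2 - k) % 5 = 0 := by
        rw [hk]
        push_cast
        omega
      have h2 : k % 5 = 0 ∨ k % 5 = 1 ∨ k % 5 = 2 ∨ k % 5 = 3 ∨ k % 5 = 4 := by omega
      rcases h2 with h2 | h2 | h2 | h2 | h2
      · exact Or.inl h2
      · exfalso
        obtain ⟨j, rfl⟩ : ∃ j, k = 5 * j + 1 := ⟨k / 5, by omega⟩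
        rw [show 3 * (5 * j + 1) ^ 2 - (5 * j + 1) = 5 * (15 * j ^ 2 + 5 * j) + 2 by ring] at h1
        omega
      · exact Or.inr h2
      · exfalso
        obtain ⟨j, rfl⟩ : ∃ j, k = 5 * j + 3 := ⟨k / 5, by omega⟩
        rw [show 3 * (5 * j + 3) ^ 2 - (5 * j + 3) = 5 * (15 * j ^ 2 + 17 * j + 4) + 4 by ring] at h1
        omega
      · exfalso
        obtain ⟨j, rfl⟩ : ∃ j, k = 5 * j + 4 := ⟨k / 5, by omega⟩
        rw [show 3 * (5 * j + 4) ^ 2 - (5 * j + 4) = 5 * (15 * j ^ 2 + 23 * j + 8) + 4 by ring] at h1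
        omega
    push_cast at hk
    rcases hm with hm | hm
    · obtain ⟨j, rfl⟩ : ∃ j, k = 5 * j := ⟨k / 5, by omega⟩
      have hA : S2 qA n = {j} := by
        ext l
        rw [mem_S2 admA, Finset.mem_singleton]
        constructor
        · intro hl
          unfold qA at hl
          have : 5 * l = 5 * j := pent_uniq (by linear_combination 5 * hl - hk)
          omega
        · rintro rfl
          unfold qA
          linarith
      have hB : S2 qB n = ∅ := by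
        refine Finset.eq_empty_of_forall_notMem fun l hl => ?_
        rw [mem_S2 admB] at hl
        unfold qB at hl
        have : 5 * l + 2 = 5 * j := pent_uniq (by linear_combination 5 * hl - hk)
        omega
      rw [hA, hB, Finset.sum_singleton, Finset.sum_empty, add_zero]
      unfold sgn
      split_ifs <;> omega
    · obtain ⟨j, rfl⟩ : ∃ j, k = 5 * j + 2 := ⟨k / 5, by omega⟩
      have hB : S2 qB n = {j} := by
        ext l
        rw [mem_S2 admB, Finset.mem_singleton]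
        constructor
        · intro hl
          unfold qB at hl
          have : 5 * l + 2 = 5 * j + 2 := pent_uniq (by linear_combination 5 * hl - hk)
          omega
        · rintro rfl
          unfold qB
          linarith
      have hA : S2 qA n = ∅ := by
        refine Finset.eq_empty_of_forall_notMem fun l hl => ?_
        rw [mem_S2 admA] at hl
        unfold qA at hl
        have : 5 * l = 5 * j + 2 := pent_uniq (by linear_combination 5 * hl - hk)
        omega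
      rw [hA, hB, Finset.sum_singleton, Finset.sum_empty, zero_add]
      unfold sgn
      split_ifs <;> omega
  · push Not at h
    rw [E_none h]
    have hA : S2 qA n = ∅ := by
      refine Finset.eq_empty_of_forall_notMem fun l hl => h (5 * l) ?_
      rw [mem_S2 admA] at hl
      unfold qA at hl
      push_cast
      linear_combination 5 * hl
    have hB : S2 qB n = ∅ := by
      refine Finset.eq_empty_of_forall_notMem fun l hl => h (5 * l + 2) ?_
      rw [mem_S2 admB] at hl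
      unfold qB at hl
      push_cast
      linear_combination 5 * hl
    rw [hA, hB, Finset.sum_empty, add_zero]

/-- the parts of given parity -/
noncomputable def S4 (Q Q' : ℤ → ℤ) (n : ℕ) (e : ℤ) : Finset (ℤ × ℤ) :=
  (S3 Q Q' n).filter fun p => (p.1 + p.2) % 2 = e

theorem mem_S4 {Q Q' : ℤ → ℤ} (h : Adm Q) (h' : Adm Q') {n : ℕ} {e : ℤ} {p : ℤ × ℤ} :
    p ∈ S4 Q Q' n e ↔ Q p.1 + Q' p.2 = 2 * n ∧ (p.1 + p.2) % 2 = e := by
  rw [S4, Finset.mem_filter, mem_S3 h h']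

theorem card1 (n : ℕ) : (S4 qA q3 n 0).card = (S4 qE q1 n 0).card := by
  refine Finset.card_nbij' (fun p => ((p.1 - p.2) / 2, (3 * p.1 + p.2) / 2))
    (fun p => ((p.1 + p.2) / 2, (p.2 - 3 * p.1) / 2)) ?_ ?_ ?_ ?_
  · rintro ⟨j, m⟩ hp
    rw [Finset.mem_coe, mem_S4 admA adm3] at hp
    rw [Finset.mem_coe, mem_S4 admE adm1]
    dsimp only at hp ⊢
    obtain ⟨l, hl⟩ : ∃ l, j = m + 2 * l := ⟨(j - m) / 2, by omega⟩
    subst hl
    rw [show (m + 2 * l - m) / 2 = l by omega, show (3 * (m + 2 * l) + m) / 2 = 2 * m + 3 * l by omega]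
    refine ⟨?_, by omega⟩
    rw [← hp.1]
    unfold qE q1 qA q3
    ring
  · rintro ⟨l, m⟩ hp
    rw [Finset.mem_coe, mem_S4 admE adm1] at hp
    rw [Finset.mem_coe, mem_S4 admA adm3]
    dsimp only at hp ⊢
    obtain ⟨j, hj⟩ : ∃ j, m = 2 * j - l := ⟨(l + m) / 2, by omega⟩
    subst hj
    rw [show (l + (2 * j - l)) / 2 = j by omega, show (2 * j - l - 3 * l) / 2 = j - 2 * l by omega]
    refine ⟨?_, by omega⟩
    rw [← hp.1]
    unfold qE q1 qA q3
    ring
  · rintro ⟨j, m⟩ hp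
    rw [Finset.mem_coe, mem_S4 admA adm3] at hp
    dsimp only at hp ⊢
    rw [Prod.mk.injEq]
    omega
  · rintro ⟨l, m⟩ hp
    rw [Finset.mem_coe, mem_S4 admE adm1] at hp
    dsimp only at hp ⊢
    rw [Prod.mk.injEq]
    omega

theorem card2 (n : ℕ) : (S4 qB q3 n 1).card = (S4 qE q1 n 1).card := by
  refine Finset.card_nbij' (fun p => ((p.1 + p.2 + 1) / 2, (p.2 - 3 * p.1 - 1) / 2))
    (fun p => ((p.1 - p.2 - 1) / 2, (3 * p.1 + p.2 - 1) / 2)) ?_ ?_ ?_ ?_
  · rintro ⟨j, m⟩ hp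
    rw [Finset.mem_coe, mem_S4 admB adm3] at hp
    rw [Finset.mem_coe, mem_S4 admE adm1]
    dsimp only at hp ⊢
    obtain ⟨l, hl⟩ : ∃ l, m = 2 * l - j - 1 := ⟨(j + m + 1) / 2, by omega⟩
    subst hl
    rw [show (j + (2 * l - j - 1) + 1) / 2 = l by omega,
      show (2 * l - j - 1 - 3 * j - 1) / 2 = l - 2 * j - 1 by omega]
    refine ⟨?_, by omega⟩
    rw [← hp.1]
    unfold qE q1 qB q3
    ring
  · rintro ⟨l, m⟩ hp
    rw [Finset.mem_coe, mem_S4 admE adm1] at hp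
    rw [Finset.mem_coe, mem_S4 admB adm3]
    dsimp only at hp ⊢
    obtain ⟨j, hj⟩ : ∃ j, m = l - 2 * j - 1 := ⟨(l - m - 1) / 2, by omega⟩
    subst hj
    rw [show (l - (l - 2 * j - 1) - 1) / 2 = j by omega,
      show (3 * l + (l - 2 * j - 1) - 1) / 2 = 2 * l - j - 1 by omega]
    refine ⟨?_, by omega⟩
    rw [← hp.1]
    unfold qE q1 qB q3
    ring
  · rintro ⟨j, m⟩ hp
    rw [Finset.mem_coe, mem_S4 admB adm3] at hp
    dsimp only at hp ⊢
    rw [Prod.mk.injEq]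
    omega
  · rintro ⟨l, m⟩ hp
    rw [Finset.mem_coe, mem_S4 admE adm1] at hp
    dsimp only at hp ⊢
    rw [Prod.mk.injEq]
    omega

theorem card3 (n : ℕ) : (S4 qA q3 n 1).card = (S4 qB q3 n 0).card := by
  refine Finset.card_nbij' (fun p => ((-(p.1 + p.2 + 1)) / 2, (3 * p.1 - p.2 - 1) / 2))
    (fun p => ((p.2 - p.1) / 2, (-3 * p.1 - p.2 - 2) / 2)) ?_ ?_ ?_ ?_
  · rintro ⟨j, m⟩ hp
    rw [Finset.mem_coe, mem_S4 admA adm3] at hp
    rw [Finset.mem_coe, mem_S4 admB adm3]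
    dsimp only at hp ⊢
    obtain ⟨l, hl⟩ : ∃ l, m = - 2 * l - j - 1 := ⟨(-(j + m + 1)) / 2, by omega⟩
    subst hl
    rw [show (-(j + (- 2 * l - j - 1) + 1)) / 2 = l by omega,
      show (3 * j - (- 2 * l - j - 1) - 1) / 2 = l + 2 * j by omega]
    refine ⟨?_, by omega⟩
    rw [← hp.1]
    unfold qA qB q3
    ring
  · rintro ⟨l, m⟩ hp
    rw [Finset.mem_coe, mem_S4 admB adm3] at hp
    rw [Finset.mem_coe, mem_S4 admA adm3]
    dsimp only at hp ⊢
    obtain ⟨j, hj⟩ : ∃ j, m = l + 2 * j := ⟨(m - l) / 2, by omega⟩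
    subst hj
    rw [show (l + 2 * j - l) / 2 = j by omega,
      show (-3 * l - (l + 2 * j) - 2) / 2 = - 2 * l - j - 1 by omega]
    refine ⟨?_, by omega⟩
    rw [← hp.1]
    unfold qA qB q3
    ring
  · rintro ⟨j, m⟩ hp
    rw [Finset.mem_coe, mem_S4 admA adm3] at hp
    dsimp only at hp ⊢
    rw [Prod.mk.injEq]
    omega
  · rintro ⟨l, m⟩ hp
    rw [Finset.mem_coe, mem_S4 admB adm3] at hp
    dsimp only at hp ⊢
    rw [Prod.mk.injEq]
    omega

/-- the second identity of Jacobi type (a quintuple product identity) -/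
theorem J2 : eps * th3 = ex 5 E * th1 := by
  rw [eps_eq, th3_eq, exE_eq, th1_eq]
  ext n
  rw [add_mul, map_add, coeff_mul_tQ admA adm3, coeff_mul_tQ admB adm3, coeff_mul_tQ admE adm1,
    sum_sgn, sum_sgn, sum_sgn]
  have h1 := card1 n
  have h2 := card2 n
  have h3 := card3 n
  unfold S4 at h1 h2 h3
  rw [h1, h2, h3]
  ring

end E8T5
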