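import Pool.Agent.E8T5.FIN
import Pool.Agent.E8T5.CN
import Pool.Agent.E8T5.J1
import Pool.Agent.E8T5.J2

/-!
# [E8T5-FIN2] the law modulo `625`, no hypotheses left
-/

set_option autoImplicit false

open PowerSeries
open N19 (ex)
open E8X (tau)

namespace E8T5

theorem th_zero (c : ℤ) : constantCoeff (th c) = 1 := by
  rw [← coeff_zero_eq_constantCoeff_apply, th, coeff_mk]
  simp [sgn]

theorem TR_eq : TR = trS := by
  rw [trS]
  exact TR_ab (th_zero 1) (th_zero 3) J1 J2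

/-- the number of `t` in the field `K` of `p²` elements with `t^(p+1) = -1` and `t (t - t₊)` a fifth power,
`t₊ = (-11 + 5 s) / 2`, `s² = 5` -/
noncomputable def Nf {K : Type*} [Field K] (p : ℕ) (s : K) : ℕ :=
  Nat.card {t : K // t ^ (p + 1) = -1 ∧ ∃ z : K, z ^ 5 = t * (t - (-11 + 5 * s) / 2)}

section

variable {K : Type*} [Field K] {p m : ℕ}

theorem five_iff [Fact p.Prime] [CharP K p] (hpm : p = 5 * m + 4) {s : K} (hs : s ^ 2 = 5)
    (hsp : s ^ p = s) {t : K} (ht : t ^ (p + 1) = -1) :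
    (∃ z : K, z ^ 5 = t * (t - (-11 + 5 * s) / 2)) ↔
      ∃ z : K, z ^ 5 = t * ((t - CN.tp s) / (t - CN.tp (-s))) ^ 2 := by
  have h2 : (2 : K) ≠ 0 := two_ne hpm
  have e1 : CN.tp s = tp s := rfl
  have e2 : CN.tp (-s) = tp (-s) := rfl
  have e3 : (-11 + 5 * s) / 2 = tp s := rfl
  rw [e1, e2, e3]
  have hinv := tp_inv h2 hs
  have hs' : (-s) ^ 2 = 5 := by rw [neg_sq, hs]
  have hprod : tp s * tp (-s) = -1 := by
    have h4 : (4 : K) ≠ 0 := by
      have : (4 : K) = 2 * 2 := by norm_num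
      rw [this]; exact mul_ne_zero h2 h2
    rw [tp, tp]
    field_simp
    linear_combination (-25 : K) * hs
  have htp0 : tp s ≠ 0 := by
    intro h; rw [h, zero_mul] at hprod
    exact one_ne_zero (neg_eq_zero.mp hprod.symm)
  have hp0 : p ≠ 0 := (Fact.out : p.Prime).ne_zero
  have ht0 : t ≠ 0 := by
    rintro rfl
    rw [zero_pow (by omega)] at ht
    exact one_ne_zero (neg_eq_zero.mp ht.symm)
  have hfrob : ∀ z : K, z ^ p = z → (t - z) ^ p * t = -(1 + z * t) := by
    intro z hz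
    have h1 : (t - z) ^ p = t ^ p - z ^ p := sub_pow_char t z
    rw [h1, hz, sub_mul, ← pow_succ, ht]; ring
  have hodd : Odd p := (Fact.out : p.Prime).odd_of_ne_two (by omega)
  have htpp : ∀ z : K, z ^ p = z → (tp z) ^ p = tp z := by
    intro z hz
    have hN : ∀ n : ℕ, ((n : K)) ^ p = n := by
      intro n
      have := map_natCast (frobenius K p) n
      rwa [frobenius_def] at this
    rw [tp, div_pow, show (-11 + 5 * z : K) = 5 * z - 11 by ring, sub_pow_char, mul_pow, hz]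
    have h5 := hN 5
    have h11 := hN 11
    have h2' := hN 2
    push_cast at h5 h11 h2'
    rw [h5, h11, h2']
  have hsp' : (-s) ^ p = -s := by rw [hodd.neg_pow, hsp]
  -- `(t - tp s)^p t = - tp s (t - tp (-s))`
  have key : (t - tp s) ^ p * t = -(tp s) * (t - tp (-s)) := by
    rw [hfrob _ (htpp s hsp)]
    linear_combination (-1 : K) * hprod
  have key' : (t - tp (-s)) ^ p * t = -(tp (-s)) * (t - tp s) := by
    rw [hfrob _ (htpp (-s) hsp')]
    linear_combination (-1 : K) * hprod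
  have hsne : s ≠ 0 := by
    rintro rfl
    have h50 : (5 : K) = 0 := by rw [← hs]; ring
    have h5c : ((5 : ℕ) : K) = 0 := by exact_mod_cast h50
    rw [CharP.cast_eq_zero_iff K p] at h5c
    have := Nat.le_of_dvd (by norm_num) h5c
    have h4 : p = 4 := by omega
    have hpp := (Fact.out : p.Prime)
    rw [h4] at hpp
    exact absurd hpp (by norm_num)
  have hdiff : tp s ≠ tp (-s) := by
    intro h
    apply hsne
    have h5 : (5 : K) ≠ 0 := by
      intro h5
      exact hsne (pow_eq_zero_iff (two_ne_zero) |>.mp (by rw [hs, h5]))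
    have h10 : (5 : K) * s = 0 := by
      have h1 : tp s - tp (-s) = 5 * s := by
        rw [tp, tp]; field_simp; ring
      rw [← h1, h, sub_self]
    exact (mul_eq_zero.mp h10).resolve_left h5
  have ha0 : t - tp s ≠ 0 := by
    intro h0
    rw [h0, zero_pow hp0, zero_mul] at key
    have h1 : t - tp (-s) = 0 := by
      rcases mul_eq_zero.mp key.symm with h | h
      · exact absurd (neg_eq_zero.mp h) htp0
      · exact h
    exact hdiff (by rw [← sub_eq_zero.mp h0, ← sub_eq_zero.mp h1])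
  have hb0 : t - tp (-s) ≠ 0 := by
    intro h0
    rw [h0, mul_zero] at key
    rcases mul_eq_zero.mp key with h | h
    · exact ha0 (pow_eq_zero_iff hp0 |>.mp h)
    · exact ht0 h
  set a := t - tp s with ha
  set b := t - tp (-s) with hb
  have hphne : ph s ≠ 0 := by
    intro h
    rw [h, zero_pow (by norm_num)] at hinv
    exact htp0 (inv_eq_zero.mp hinv)
  have htpe : tp s * ph s ^ 5 = 1 := by rw [← hinv]; exact mul_inv_cancel₀ htp0
  -- `t (a/b)² · (t a) = w⁵`
  have hw : t * (a / b) ^ 2 * (t * a) * (ph s ^ 2 * a ^ (2 * m + 1)) ^ 5 = 1 := by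
    have hbv : b = -(ph s ^ 5 * (a ^ p * t)) := by
      rw [key]
      linear_combination (-b) * htpe
    have hne : (ph s ^ 5 * (a ^ p * t)) ≠ 0 :=
      mul_ne_zero (pow_ne_zero _ hphne) (mul_ne_zero (pow_ne_zero _ ha0) ht0)
    rw [hbv, hpm]
    field_simp
    ring
  have hg0 : ph s ^ 2 * a ^ (2 * m + 1) ≠ 0 :=
    mul_ne_zero (pow_ne_zero _ hphne) (pow_ne_zero _ ha0)
  set g := ph s ^ 2 * a ^ (2 * m + 1) with hg
  constructor
  · rintro ⟨z, hz⟩
    have hz0 : z ≠ 0 := by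
      rintro rfl
      rw [zero_pow (by norm_num)] at hz
      exact mul_ne_zero ht0 ha0 hz.symm
    refine ⟨(z * g)⁻¹, ?_⟩
    rw [← hz] at hw
    have h1 : t * (a / b) ^ 2 * (z * g) ^ 5 = 1 := by rw [mul_pow]; linear_combination hw
    rw [inv_pow]
    exact inv_eq_of_mul_eq_one_left h1
  · rintro ⟨z, hz⟩
    have hz0 : z ≠ 0 := by
      rintro rfl
      rw [zero_pow (by norm_num)] at hz
      exact mul_ne_zero ht0 (pow_ne_zero _ (div_ne_zero ha0 hb0)) hz.symm
    refine ⟨(z * g)⁻¹, ?_⟩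
    rw [← hz] at hw
    have h1 : t * a * (z * g) ^ 5 = 1 := by rw [mul_pow]; linear_combination hw
    rw [inv_pow]
    exact inv_eq_of_mul_eq_one_left h1

end

theorem Nf_eq {K : Type*} [Field K] [Fintype K] [DecidableEq K] {p m : ℕ} [Fact p.Prime] [CharP K p]
    (hpm : p = 5 * m + 4) {s : K} (hs : s ^ 2 = 5) (hsp : s ^ p = s) : Nf p s = CN.N0 p s := by
  classical
  rw [Nf, Nat.card_eq_fintype_card, Fintype.card_subtype, CN.N0, CN.TT, Finset.filter_filter]
  congr 1
  ext t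
  simp only [Finset.mem_filter, Finset.mem_univ, true_and]
  constructor
  · rintro ⟨h1, h2⟩
    exact ⟨h1, (five_iff hpm hs hsp h1).1 h2⟩
  · rintro ⟨h1, h2⟩
    exact ⟨h1, (five_iff hpm hs hsp h1).2 h2⟩

/-- **The count:** `5 N = p + 1 - 2 tr(p)` for all primes `p = 4 mod 5`. -/
theorem count {p : ℕ} (hp : p.Prime) (h5 : p % 5 = 4) {K : Type*} [Field K] (hK : Nat.card K = p ^ 2)
    {s : K} (hs : s ^ 2 = 5) : (5 * Nf p s : ℤ) = p + 1 - 2 * coeff p trS := by
  classical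
  have : Fact p.Prime := ⟨hp⟩
  have hfin : Finite K := Nat.finite_of_card_ne_zero (by rw [hK]; exact pow_ne_zero _ hp.ne_zero)
  let _ : Fintype K := Fintype.ofFinite K
  have hcard : Fintype.card K = p ^ 2 := by rw [← Nat.card_eq_fintype_card, hK]
  have : CharP K p := charP_of_card_eq_prime_pow hcard
  obtain ⟨m, hpm⟩ : ∃ m : ℕ, p = 5 * m + 4 := ⟨p / 5, by omega⟩
  have hsp : s ^ p = s := by
    obtain ⟨r, hr⟩ := CN.exists_sqrt5 h5
    have h1 : ((ZMod.castHom dvd_rfl K) r) ^ 2 = s ^ 2 := by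
      rw [← map_pow, hr, hs]; exact map_ofNat _ 5
    have hr2 : ((ZMod.castHom dvd_rfl K) r) ^ p = (ZMod.castHom dvd_rfl K) r := by
      rw [← map_pow, ZMod.pow_card]
    have hodd : Odd p := hp.odd_of_ne_two (by omega)
    rcases sq_eq_sq_iff_eq_or_eq_neg.mp h1 with h | h
    · rw [← h, hr2]
    · have hs2 : s = -((ZMod.castHom dvd_rfl K) r) := by rw [h, neg_neg]
      rw [hs2, hodd.neg_pow, hr2]
  rw [Nf_eq hpm hs hsp]
  refine count_eq hp hpm hs TR_eq ?_ (CN.N0_even hcard hpm hs hsp) (CN.N0_le hcard (by omega) s)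
  rw [CN.count_modp hcard hpm hs hsp]
  rfl

/-- **`τ(p)` modulo `625` for all primes `p = 4 mod 5`.** -/
theorem tau_law {p : ℕ} (hp : p.Prime) (h5 : p % 5 = 4) {K : Type*} [Field K] (hK : Nat.card K = p ^ 2)
    {s : K} (hs : s ^ 2 = 5) :
    (625 : ℤ) ∣ tau p - (106 * (1 + p ^ 11) - 200 * (1 + p ^ 5) + (180 - 50 * p) * (1 + p) - 125 * Nf p s) :=
  law_all hp h5 TR_eq (count hp h5 hK hs)

/-- **`τ(p)` modulo `625` for all primes `p = -1 mod 25`.** -/
theorem tau_law_25 {p : ℕ} (hp : p.Prime) (h25 : 25 ∣ p + 1) {K : Type*} [Field K]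
    (hK : Nat.card K = p ^ 2) {s : K} (hs : s ^ 2 = 5) :
    (625 : ℤ) ∣ tau p - (46 * (p + 1) - 125 * Nf p s) :=
  law_25 hp h25 TR_eq (count hp (by omega) hK hs)

/-- **`625 ∣ τ(p)` for the primes `p = -1 mod 125`.** -/
theorem tau_law_125 {p : ℕ} (hp : p.Prime) (h125 : 125 ∣ p + 1) {K : Type*} [Field K]
    (hK : Nat.card K = p ^ 2) {s : K} (hs : s ^ 2 = 5) :
    (125 : ℤ) ∣ tau p ∧ ((625 : ℤ) ∣ tau p ↔ Nf p s % 5 = (p + 1) / 125 % 5) :=
  law_125 hp h125 TR_eq (count hp (by omega) hK hs)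

/-- The count and the signed theta sum, for all primes `p = 4 mod 5`. -/
theorem count_bound {p : ℕ} (hp : p.Prime) (h5 : p % 5 = 4) {K : Type*} [Field K]
    (hK : Nat.card K = p ^ 2) {s : K} (hs : s ^ 2 = 5) :
    (5 * Nf p s : ℤ) = p + 1 - 2 * coeff p trS ∧ (5 : ℤ) ∣ coeff p trS ∧ |coeff p trS| ≤ 2 * (p + 1) :=
  ⟨count hp h5 hK hs, by rw [← TR_eq]; exact five_TR hp h5, trS_bound hp h5⟩

end E8T5
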