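import Mathlib

/-!
# [E8T5] the number of the odd solutions of `x² + y² + z² + 5 w² = 8 p`, `x, y, z ≡ ±2 mod 5`

For a prime `p ≡ 4 mod 5` there are at most `p + 1` positive solutions.
-/

set_option autoImplicit false

open Finset

namespace E8T5

/-- the bilinear form -/
def Bf (v w : Fin 4 → ℤ) : ℤ := v 0 * w 0 + v 1 * w 1 + v 2 * w 2 + 5 * (v 3 * w 3)

/-- the positive odd solutions with the first three entries `≡ ±2 mod 5` -/
noncomputable def sols (n : ℕ) : Finset (Fin 4 → ℤ) :=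
  (Fintype.piFinset (fun _ : Fin 4 => Finset.Icc (-(8 * (n : ℤ))) (8 * (n : ℤ)))).filter
    (fun v => (∀ i, 0 < v i ∧ v i % 2 = 1) ∧ (∀ i : Fin 4, i ≠ 3 → (v i % 5 = 2 ∨ v i % 5 = 3)) ∧
      Bf v v = 8 * n)

/-- the same, all signs -/
noncomputable def solsS (n : ℕ) : Finset (Fin 4 → ℤ) :=
  (Fintype.piFinset (fun _ : Fin 4 => Finset.Icc (-(8 * (n : ℤ))) (8 * (n : ℤ)))).filter
    (fun v => (∀ i, v i % 2 = 1) ∧ (∀ i : Fin 4, i ≠ 3 → (v i % 5 = 2 ∨ v i % 5 = 3)) ∧
      Bf v v = 8 * n)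

theorem mem_solsS {n : ℕ} {v : Fin 4 → ℤ} (h1 : ∀ i, v i % 2 = 1)
    (h2 : ∀ i : Fin 4, i ≠ 3 → (v i % 5 = 2 ∨ v i % 5 = 3)) (h3 : Bf v v = 8 * n) : v ∈ solsS n := by
  unfold solsS
  rw [Finset.mem_filter, Fintype.mem_piFinset]
  refine ⟨fun i => ?_, h1, h2, h3⟩
  rw [Finset.mem_Icc]
  unfold Bf at h3
  have key : v i ^ 2 ≤ 8 * n := by
    fin_cases i <;> simp <;> nlinarith [sq_nonneg (v 0), sq_nonneg (v 1), sq_nonneg (v 2), sq_nonneg (v 3)]
  constructor <;> nlinarith [sq_nonneg (v i - 1), sq_nonneg (v i + 1)]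

/-- the sign -/
def sg (b : Bool) : ℤ := if b then 1 else -1

theorem sg_sq (b : Bool) : sg b * sg b = 1 := by cases b <;> rfl

/-- change the signs -/
def act (s : Fin 4 → Bool) (v : Fin 4 → ℤ) : Fin 4 → ℤ := fun i => sg (s i) * v i

theorem act_inj {s t : Fin 4 → Bool} {v w : Fin 4 → ℤ} (hv : ∀ i, 0 < v i) (hw : ∀ i, 0 < w i)
    (h : act s v = act t w) : s = t ∧ v = w := by
  have key : ∀ i, s i = t i ∧ v i = w i := by
    intro i
    have h1 : sg (s i) * v i = sg (t i) * w i := congrFun h i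
    have h2 := hv i
    have h3 := hw i
    cases hs : s i <;> cases ht : t i <;> rw [hs, ht] at h1 <;> simp [sg] at h1 ⊢ <;> omega
  exact ⟨funext fun i => (key i).1, funext fun i => (key i).2⟩

theorem card_sols_le (n : ℕ) : 16 * (sols n).card ≤ (solsS n).card := by
  have h1 : ((Finset.univ : Finset (Fin 4 → Bool)) ×ˢ sols n).card ≤ (solsS n).card := by
    refine Finset.card_le_card_of_injOn (fun x => act x.1 x.2) ?_ ?_
    · rintro ⟨s, v⟩ hx
      have hv : v ∈ sols n := (Finset.mem_product.1 (Finset.mem_coe.1 hx)).2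
      unfold sols at hv
      rw [Finset.mem_filter] at hv
      obtain ⟨-, h1, h2, h3⟩ := hv
      refine Finset.mem_coe.2 (mem_solsS ?_ ?_ ?_)
      · intro i
        show (sg (s i) * v i) % 2 = 1
        have := (h1 i).2
        cases s i <;> simp [sg] <;> omega
      · intro i hi
        show (sg (s i) * v i) % 5 = 2 ∨ (sg (s i) * v i) % 5 = 3
        have := h2 i hi
        cases s i <;> simp [sg] <;> omega
      · rw [← h3]
        show (sg (s 0) * v 0) * (sg (s 0) * v 0) + (sg (s 1) * v 1) * (sg (s 1) * v 1) +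
          (sg (s 2) * v 2) * (sg (s 2) * v 2) + 5 * ((sg (s 3) * v 3) * (sg (s 3) * v 3)) = Bf v v
        unfold Bf
        linear_combination (v 0 * v 0) * sg_sq (s 0) + (v 1 * v 1) * sg_sq (s 1) +
          (v 2 * v 2) * sg_sq (s 2) + (5 * (v 3 * v 3)) * sg_sq (s 3)
    · rintro ⟨s, v⟩ hx ⟨t, w⟩ hy h
      have hv : v ∈ sols n := (Finset.mem_product.1 (Finset.mem_coe.1 hx)).2
      have hw : w ∈ sols n := (Finset.mem_product.1 (Finset.mem_coe.1 hy)).2
      unfold sols at hv hw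
      rw [Finset.mem_filter] at hv hw
      obtain ⟨h1, h2⟩ := act_inj (fun i => (hv.2.1 i).1) (fun i => (hw.2.1 i).1) h
      exact Prod.ext h1 h2
  rw [Finset.card_product] at h1
  simpa using h1

section
variable {p : ℕ} [Fact p.Prime] (a b s : ZMod p)

/-- entries of the matrix -/
def mA (v : Fin 4 → ℤ) : ZMod p := (v 0 : ZMod p) + a * (v 1 : ZMod p) + b * s * (v 3 : ZMod p)
def mB (v : Fin 4 → ℤ) : ZMod p := b * (v 1 : ZMod p) - a * s * (v 3 : ZMod p) - (v 2 : ZMod p)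
def mC (v : Fin 4 → ℤ) : ZMod p := b * (v 1 : ZMod p) - a * s * (v 3 : ZMod p) + (v 2 : ZMod p)
def mD (v : Fin 4 → ℤ) : ZMod p := (v 0 : ZMod p) - a * (v 1 : ZMod p) - b * s * (v 3 : ZMod p)

variable {a b s}

theorem polar (hab : a ^ 2 + b ^ 2 = -1) (hs : s ^ 2 = 5) (v w : Fin 4 → ℤ) :
    mA a b s v * mD a b s w + mA a b s w * mD a b s v - mB a b s v * mC a b s w -
      mB a b s w * mC a b s v = 2 * (Bf v w : ZMod p) := by
  unfold mA mB mC mD Bf
  push_cast
  linear_combination (-2 * ((v 1 : ZMod p) * (w 1 : ZMod p)) - 2 * s ^ 2 * ((v 3 : ZMod p) * (w 3 : ZMod p))) * hab +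
    2 * ((v 3 : ZMod p) * (w 3 : ZMod p)) * hs

open Classical in
/-- the kernel line -/
noncomputable def line (a b s : ZMod p) (v : Fin 4 → ℤ) : Option (ZMod p) :=
  if mB a b s v = 0 ∧ mD a b s v = 0 then none
  else if mB a b s v ≠ 0 then some (-(mA a b s v) / mB a b s v) else some (-(mC a b s v) / mD a b s v)

theorem line_spec (hab : a ^ 2 + b ^ 2 = -1) (hs : s ^ 2 = 5) {v : Fin 4 → ℤ}
    (h2 : (2 : ZMod p) ≠ 0) (hv : (Bf v v : ZMod p) = 0) :
    (line a b s v = none ∧ mB a b s v = 0 ∧ mD a b s v = 0) ∨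
      ∃ t, line a b s v = some t ∧ mA a b s v + mB a b s v * t = 0 ∧ mC a b s v + mD a b s v * t = 0 := by
  have hdet : mA a b s v * mD a b s v = mB a b s v * mC a b s v := by
    have := polar hab hs v v
    rw [hv, mul_zero] at this
    have h : (2 : ZMod p) * (mA a b s v * mD a b s v - mB a b s v * mC a b s v) = 0 := by
      linear_combination this
    rcases mul_eq_zero.1 h with h | h
    · exact absurd h h2
    · exact sub_eq_zero.1 h
  unfold line
  by_cases h0 : mB a b s v = 0 ∧ mD a b s v = 0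
  · left
    rw [if_pos h0]
    exact ⟨rfl, h0⟩
  · right
    rw [if_neg h0]
    by_cases hB : mB a b s v ≠ 0
    · rw [if_pos hB]
      refine ⟨_, rfl, ?_, ?_⟩
      · field_simp
        ring
      · field_simp
        linear_combination -hdet
    · rw [if_neg hB]
      rw [not_not] at hB
      have hD : mD a b s v ≠ 0 := fun h => h0 ⟨hB, h⟩
      have hA : mA a b s v = 0 := by
        rw [hB, zero_mul] at hdet
        rcases mul_eq_zero.1 hdet with h | h
        · exact h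
        · exact absurd h hD
      refine ⟨_, rfl, ?_, ?_⟩
      · rw [hA, hB]
        ring
      · field_simp
        ring

theorem dvd_of_line (hab : a ^ 2 + b ^ 2 = -1) (hs : s ^ 2 = 5) {v w : Fin 4 → ℤ}
    (h2 : (2 : ZMod p) ≠ 0) (hv : (Bf v v : ZMod p) = 0) (hw : (Bf w w : ZMod p) = 0)
    (h : line a b s v = line a b s w) : (p : ℤ) ∣ Bf v w := by
  have h0 : 2 * (Bf v w : ZMod p) = 0 := by
    rw [← polar hab hs v w]
    rcases line_spec hab hs h2 hv with ⟨h1, hB, hD⟩ | ⟨t, h1, hA, hC⟩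
    · rcases line_spec hab hs h2 hw with ⟨h1', hB', hD'⟩ | ⟨t', h1', hA', hC'⟩
      · rw [hB, hD, hB', hD']
        ring
      · rw [h, h1'] at h1
        cases h1
    · rcases line_spec hab hs h2 hw with ⟨h1', hB', hD'⟩ | ⟨t', h1', hA', hC'⟩
      · rw [← h, h1] at h1'
        cases h1'
      · rw [← h, h1] at h1'
        have : t = t' := Option.some.inj h1'
        subst this
        linear_combination mD a b s w * hA + mD a b s v * hA' - mB a b s v * hC' - mB a b s w * hC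
  rcases mul_eq_zero.1 h0 with h | h
  · exact absurd h h2
  · exact (ZMod.intCast_zmod_eq_zero_iff_dvd _ _).1 h

end

theorem Bf_le {n : ℤ} {v w : Fin 4 → ℤ} (hv : Bf v v = 8 * n) (hw : Bf w w = 8 * n) :
    Bf v w ≤ 8 * n ∧ -(8 * n) ≤ Bf v w ∧ (Bf v w = 8 * n → v = w) := by
  unfold Bf at *
  refine ⟨?_, ?_, ?_⟩
  · nlinarith [sq_nonneg (v 0 - w 0), sq_nonneg (v 1 - w 1), sq_nonneg (v 2 - w 2), sq_nonneg (v 3 - w 3)]
  · nlinarith [sq_nonneg (v 0 + w 0), sq_nonneg (v 1 + w 1), sq_nonneg (v 2 + w 2), sq_nonneg (v 3 + w 3)]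
  · intro h
    have h0 : (v 0 - w 0) ^ 2 + (v 1 - w 1) ^ 2 + (v 2 - w 2) ^ 2 + 5 * (v 3 - w 3) ^ 2 = 0 := by
      linear_combination hv + hw - 2 * h
    have e0 : (v 0 - w 0) ^ 2 = 0 := by
      nlinarith [sq_nonneg (v 0 - w 0), sq_nonneg (v 1 - w 1), sq_nonneg (v 2 - w 2), sq_nonneg (v 3 - w 3)]
    have e1 : (v 1 - w 1) ^ 2 = 0 := by
      nlinarith [sq_nonneg (v 0 - w 0), sq_nonneg (v 1 - w 1), sq_nonneg (v 2 - w 2), sq_nonneg (v 3 - w 3)]
    have e2 : (v 2 - w 2) ^ 2 = 0 := by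
      nlinarith [sq_nonneg (v 0 - w 0), sq_nonneg (v 1 - w 1), sq_nonneg (v 2 - w 2), sq_nonneg (v 3 - w 3)]
    have e3 : (v 3 - w 3) ^ 2 = 0 := by
      nlinarith [sq_nonneg (v 0 - w 0), sq_nonneg (v 1 - w 1), sq_nonneg (v 2 - w 2), sq_nonneg (v 3 - w 3)]
    have f0 := sub_eq_zero.1 (pow_eq_zero_iff (two_ne_zero) |>.1 e0)
    have f1 := sub_eq_zero.1 (pow_eq_zero_iff (two_ne_zero) |>.1 e1)
    have f2 := sub_eq_zero.1 (pow_eq_zero_iff (two_ne_zero) |>.1 e2)
    have f3 := sub_eq_zero.1 (pow_eq_zero_iff (two_ne_zero) |>.1 e3)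
    funext i
    fin_cases i
    · exact f0
    · exact f1
    · exact f2
    · exact f3

/-- the signs of the first three entries modulo `5` -/
def pat (v : Fin 4 → ℤ) : Bool × Bool × Bool :=
  (decide (v 0 % 5 = 2), decide (v 1 % 5 = 2), decide (v 2 % 5 = 2))

theorem prod_mod {x y : ℤ} (hx : x % 5 = 2 ∨ x % 5 = 3) (hy : y % 5 = 2 ∨ y % 5 = 3)
    (h : decide (x % 5 = 2) = decide (y % 5 = 2)) : (x * y) % 5 = 4 := by
  have h' : (x % 5 = 2 ↔ y % 5 = 2) := by simpa using h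
  rw [Int.mul_emod]
  rcases hx with hx | hx <;> rcases hy with hy | hy
  · rw [hx, hy]
    norm_num
  · have := h'.1 hx
    omega
  · have := h'.2 hy
    omega
  · rw [hx, hy]
    norm_num

theorem odd_mul {x y : ℤ} (hx : x % 2 = 1) (hy : y % 2 = 1) : (x * y) % 2 = 1 := by
  rw [Int.mul_emod, hx, hy]
  rfl

theorem two_vals {p : ℕ} (hp : p.Prime) (h5 : p % 5 = 4) {v w : Fin 4 → ℤ} (hv : v ∈ solsS p) (hw : w ∈ solsS p)
    (hpat : pat v = pat w) (hd : (p : ℤ) ∣ Bf v w) (hne : v ≠ w) : Bf v w = -2 * p := by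
  unfold solsS at hv hw
  rw [Finset.mem_filter] at hv hw
  obtain ⟨-, v1, v2, v3⟩ := hv
  obtain ⟨-, w1, w2, w3⟩ := hw
  obtain ⟨c, hc⟩ := hd
  have hp0 : (0 : ℤ) < p := by exact_mod_cast hp.pos
  have hp2 : (p : ℤ) % 2 = 1 := by
    have : p % 2 = 1 := by
      rcases hp.eq_two_or_odd with h | h
      · rw [h] at h5
        omega
      · exact h
    omega
  have hp5 : (p : ℤ) % 5 = 4 := by omega
  obtain ⟨h1, h2, h3⟩ := Bf_le v3 w3
  have hc8 : c < 8 := by
    by_contra hcon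
    rw [not_lt] at hcon
    apply hne
    apply h3
    have : (p : ℤ) * 8 ≤ p * c := mul_le_mul_of_nonneg_left hcon hp0.le
    linarith
  have hc9 : -9 < c := by
    by_contra hcon
    rw [not_lt] at hcon
    have : (p : ℤ) * c ≤ p * (-9) := mul_le_mul_of_nonneg_left hcon hp0.le
    linarith
  have hpat' : decide (v 0 % 5 = 2) = decide (w 0 % 5 = 2) ∧ decide (v 1 % 5 = 2) = decide (w 1 % 5 = 2) ∧
      decide (v 2 % 5 = 2) = decide (w 2 % 5 = 2) := by
    unfold pat at hpat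
    simpa only [Prod.mk.injEq] using hpat
  have m0 := prod_mod (v2 0 (by decide)) (w2 0 (by decide)) hpat'.1
  have m1 := prod_mod (v2 1 (by decide)) (w2 1 (by decide)) hpat'.2.1
  have m2 := prod_mod (v2 2 (by decide)) (w2 2 (by decide)) hpat'.2.2
  have o0 := odd_mul (v1 0) (w1 0)
  have o1 := odd_mul (v1 1) (w1 1)
  have o2 := odd_mul (v1 2) (w1 2)
  have o3 := odd_mul (v1 3) (w1 3)
  have hB2 : Bf v w % 2 = 0 := by
    unfold Bf
    omega
  have hB5 : Bf v w % 5 = 2 := by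
    unfold Bf
    omega
  have hc2 : c % 2 = 0 := by
    rw [hc, Int.mul_emod, hp2] at hB2
    omega
  have hc5 : c % 5 = 3 := by
    rw [hc, Int.mul_emod, hp5] at hB5
    omega
  have : c = -2 := by omega
  rw [hc, this]
  ring

theorem no_three {p : ℕ} (hp : p.Prime) (h5 : p % 5 = 4) {x y z : Fin 4 → ℤ} (hx : x ∈ solsS p)
    (hy : y ∈ solsS p) (hz : z ∈ solsS p) (h1 : Bf x y = -2 * p) (h2 : Bf x z = -2 * p)
    (h3 : Bf y z = -2 * p) : False := by
  unfold solsS at hx hy hz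
  rw [Finset.mem_filter] at hx hy hz
  have hp2 : (p : ℤ) % 2 = 1 := by
    have : p % 2 = 1 := by
      rcases hp.eq_two_or_odd with h | h
      · rw [h] at h5
        omega
      · exact h
    omega
  have e : ∀ i, ∃ u w : ℤ, x i - y i = 2 * u ∧ x i - z i = 2 * w := by
    intro i
    have a1 := hx.2.1 i
    have a2 := hy.2.1 i
    have a3 := hz.2.1 i
    exact ⟨(x i - y i) / 2, (x i - z i) / 2, by omega, by omega⟩
  choose u w hu hw using e
  have hxx := hx.2.2.2
  have key : 4 * Bf u w = 10 * p := by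
    have : 4 * Bf u w = Bf (fun i => x i - y i) (fun i => x i - z i) := by
      unfold Bf
      simp only [hu, hw]
      ring
    rw [this]
    have : Bf (fun i => x i - y i) (fun i => x i - z i) = Bf x x - Bf x z - Bf x y + Bf y z := by
      unfold Bf
      ring
    rw [this, hxx, h1, h2, h3]
    ring
  omega

/-- At most `p + 1` positive solutions. -/
theorem sols_card {p : ℕ} (hp : p.Prime) (h5 : p % 5 = 4) : (sols p).card ≤ p + 1 := by
  have : Fact p.Prime := ⟨hp⟩
  have hp2 : p ≠ 2 := by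
    rintro rfl
    omega
  have h2 : (2 : ZMod p) ≠ 0 := by
    intro h
    have h' : ((2 : ℕ) : ZMod p) = 0 := by exact_mod_cast h
    rw [ZMod.natCast_eq_zero_iff] at h'
    exact hp2 ((Nat.prime_dvd_prime_iff_eq hp Nat.prime_two).1 h')
  obtain ⟨a, b, hab⟩ := ZMod.sq_add_sq p (-1)
  have : Fact (Nat.Prime 5) := ⟨by norm_num⟩
  have hsq : IsSquare ((5 : ℕ) : ZMod p) := by
    rw [← ZMod.exists_sq_eq_prime_iff_of_mod_four_eq_one (p := 5) (q := p) (by norm_num) hp2]
    have : ((p : ℕ) : ZMod 5) = 4 := by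
      have h : ((p : ℕ) : ZMod 5) = ((p % 5 : ℕ) : ZMod 5) := by simp
      rw [h, h5]
      rfl
    rw [this]
    exact ⟨2, by norm_num⟩
  obtain ⟨s, hs⟩ := hsq
  have hs' : s ^ 2 = 5 := by
    rw [sq, ← hs]
    norm_num
  classical
  let f : (Fin 4 → ℤ) → Option (ZMod p) × (Bool × Bool × Bool) := fun v => (line a b s v, pat v)
  have hfib : ∀ y ∈ (solsS p).image f, ((solsS p).filter (fun v => f v = y)).card ≤ 2 := by
    intro y _
    by_contra hcon
    rw [not_le] at hcon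
    obtain ⟨v, w, z, hv, hw, hz, h12, h13, h23⟩ := Finset.two_lt_card_iff.1 hcon
    rw [Finset.mem_filter] at hv hw hz
    have zero : ∀ {v : Fin 4 → ℤ}, v ∈ solsS p → (Bf v v : ZMod p) = 0 := by
      intro v hv
      unfold solsS at hv
      rw [Finset.mem_filter] at hv
      rw [hv.2.2.2]
      push_cast
      simp
    have key : ∀ {v w : Fin 4 → ℤ}, v ∈ solsS p → w ∈ solsS p → f v = f w → v ≠ w → Bf v w = -2 * p := by
      intro v w hv hw h hne
      have h1 : line a b s v = line a b s w := congrArg Prod.fst h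
      have h2' : pat v = pat w := congrArg Prod.snd h
      exact two_vals hp h5 hv hw h2' (dvd_of_line hab hs' h2 (zero hv) (zero hw) h1) hne
    exact no_three hp h5 hv.1 hw.1 hz.1 (key hv.1 hw.1 (hv.2.trans hw.2.symm) h12)
      (key hv.1 hz.1 (hv.2.trans hz.2.symm) h13) (key hw.1 hz.1 (hw.2.trans hz.2.symm) h23)
  have h3 := Finset.card_le_mul_card_image (solsS p) 2 hfib
  have h4 : ((solsS p).image f).card ≤ (p + 1) * 8 := by
    refine (Finset.card_le_univ _).trans ?_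
    rw [Fintype.card_prod, Fintype.card_option, ZMod.card]
    simp
  have h5' := card_sols_le p
  omega

end E8T5
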