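import Pool.Agent.E8T5.TB
import Pool.Agent.E8X.F1

/-!
# [E8T5] the signed number of solutions is bounded by `2 (p + 1)`
-/

set_option autoImplicit false

open PowerSeries
open E8X

namespace E8T5

/-- `±1` on the integers `≡ 3 mod 10`: the sign of `m` for `x = 10 m + 3` -/
def f3 (x : ℤ) : ℤ := if x % 20 = 3 then 1 else if x % 20 = 13 then -1 else 0

/-- the weights of the fourth variable: `±1` on `10 m + 1`, `±2` on `10 m + 3` -/
def g5 (x : ℤ) : ℤ := if x % 20 = 1 then 1 else if x % 20 = 11 then -1 else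
  if x % 20 = 3 then 2 else if x % 20 = 13 then -2 else 0

/-- `∑ ± X^(x²+y²+z²+5w²)` -/
noncomputable def TS : PowerSeries ℤ := ts 1 f3 ^ 3 * ts 5 g5

/-- the signed number of solutions of `x² + y² + z² + 5 w² = 8 n`, with a minus sign -/
noncomputable def trc (n : ℕ) : ℤ := -coeff (8 * n) TS

theorem f3_abs (x : ℤ) : |f3 x| ≤ 1 ∧ (f3 x ≠ 0 → x % 10 = 3) := by
  unfold f3
  split_ifs with h1 h2
  · exact ⟨by norm_num, fun _ => by omega⟩
  · exact ⟨by norm_num, fun _ => by omega⟩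
  · exact ⟨by norm_num, fun h => absurd rfl h⟩

theorem g5_abs (x : ℤ) : |g5 x| ≤ 2 ∧ (g5 x ≠ 0 → x % 10 = 1 ∨ x % 10 = 3) := by
  unfold g5
  split_ifs with h1 h2 h3 h4
  · exact ⟨by norm_num, fun _ => by omega⟩
  · exact ⟨by norm_num, fun _ => by omega⟩
  · exact ⟨by norm_num, fun _ => by omega⟩
  · exact ⟨by norm_num, fun _ => by omega⟩
  · exact ⟨by norm_num, fun h => absurd rfl h⟩

theorem TS_eq : TS = ∏ i : Fin 4, ts ((![1, 1, 1, 5] : Fin 4 → ℕ) i) ((![f3, f3, f3, g5] : Fin 4 → ℤ → ℤ) i) := by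
  rw [Fin.prod_univ_four, TS]
  simp only [Matrix.cons_val]
  ring

/-- the coefficient as a finite sum -/
theorem TS_coeff (n : ℕ) : coeff n TS =
    ∑ v ∈ Fintype.piFinset (fun _ : Fin 4 => Finset.Icc (-(n : ℤ)) n),
      if v 0 ^ 2 + v 1 ^ 2 + v 2 ^ 2 + 5 * v 3 ^ 2 = n then f3 (v 0) * f3 (v 1) * f3 (v 2) * g5 (v 3) else 0 := by
  rw [TS_eq, ts_prod _ (by intro i; fin_cases i <;> simp) _ (le_refl n)]
  refine Finset.sum_congr rfl fun v _ => ?_
  rw [Fin.sum_univ_four, Fin.prod_univ_four]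
  simp only [Matrix.cons_val]
  norm_num

/-- the solutions with entries in the classes of the theta series -/
noncomputable def clsols (n : ℕ) : Finset (Fin 4 → ℤ) :=
  (Fintype.piFinset (fun _ : Fin 4 => Finset.Icc (-((8 * n : ℕ) : ℤ)) ((8 * n : ℕ) : ℤ))).filter
    (fun v => (∀ i : Fin 4, i ≠ 3 → v i % 10 = 3) ∧ (v 3 % 10 = 1 ∨ v 3 % 10 = 3) ∧ Bf v v = 8 * n)

theorem trc_le_cls (n : ℕ) : |trc n| ≤ 2 * (clsols n).card := by
  rw [trc, abs_neg, TS_coeff]
  refine (Finset.abs_sum_le_sum_abs _ _).trans ?_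
  have h2 : (2 : ℤ) * (clsols n).card = ∑ v ∈ Fintype.piFinset
      (fun _ : Fin 4 => Finset.Icc (-((8 * n : ℕ) : ℤ)) ((8 * n : ℕ) : ℤ)),
      if (∀ i : Fin 4, i ≠ 3 → v i % 10 = 3) ∧ (v 3 % 10 = 1 ∨ v 3 % 10 = 3) ∧ Bf v v = 8 * n then (2 : ℤ) else 0 := by
    rw [clsols, ← Finset.sum_filter, Finset.sum_const]
    simp only [nsmul_eq_mul]
    ring
  rw [h2]
  refine Finset.sum_le_sum fun v _ => ?_
  by_cases hn : v 0 ^ 2 + v 1 ^ 2 + v 2 ^ 2 + 5 * v 3 ^ 2 = ((8 * n : ℕ) : ℤ)
  · rw [if_pos hn]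
    by_cases h0 : f3 (v 0) = 0 ∨ f3 (v 1) = 0 ∨ f3 (v 2) = 0 ∨ g5 (v 3) = 0
    · have : f3 (v 0) * f3 (v 1) * f3 (v 2) * g5 (v 3) = 0 := by
        rcases h0 with h | h | h | h <;> rw [h] <;> ring
      rw [this, abs_zero]
      split_ifs <;> norm_num
    · push Not at h0
      have hc : (∀ i : Fin 4, i ≠ 3 → v i % 10 = 3) ∧ (v 3 % 10 = 1 ∨ v 3 % 10 = 3) ∧ Bf v v = 8 * n := by
        refine ⟨?_, (g5_abs _).2 h0.2.2.2, ?_⟩
        · intro i hi
          fin_cases i
          · exact (f3_abs _).2 h0.1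
          · exact (f3_abs _).2 h0.2.1
          · exact (f3_abs _).2 h0.2.2.1
          · exact absurd rfl hi
        · unfold Bf
          push_cast at hn
          linear_combination hn
      rw [if_pos hc, abs_mul, abs_mul, abs_mul]
      have a0 := (f3_abs (v 0)).1
      have a1 := (f3_abs (v 1)).1
      have a2 := (f3_abs (v 2)).1
      have a3 := (g5_abs (v 3)).1
      have b : |f3 (v 0)| * |f3 (v 1)| * |f3 (v 2)| ≤ 1 := by
        have := mul_le_one₀ a0 (abs_nonneg (f3 (v 1))) a1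
        exact mul_le_one₀ this (abs_nonneg _) a2
      calc |f3 (v 0)| * |f3 (v 1)| * |f3 (v 2)| * |g5 (v 3)| ≤ 1 * |g5 (v 3)| :=
            mul_le_mul_of_nonneg_right b (abs_nonneg _)
        _ ≤ 2 := by rw [one_mul]; exact a3
  · rw [if_neg hn, abs_zero]
    split_ifs <;> norm_num

theorem cls_le (n : ℕ) : (clsols n).card ≤ (sols n).card := by
  refine Finset.card_le_card_of_injOn (fun v i => |v i|) ?_ ?_
  · intro v hv
    have hv := Finset.mem_coe.1 hv
    unfold clsols at hv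
    rw [Finset.mem_filter, Fintype.mem_piFinset] at hv
    obtain ⟨h0, h1, h2, h3⟩ := hv
    refine Finset.mem_coe.2 ?_
    unfold sols
    rw [Finset.mem_filter, Fintype.mem_piFinset]
    have hodd : ∀ i, v i % 2 = 1 := by
      intro i
      by_cases hi : i = 3
      · subst hi
        omega
      · have := h1 i hi
        omega
    refine ⟨?_, ?_, ?_, ?_⟩
    · intro i
      have := h0 i
      rw [Finset.mem_Icc] at this ⊢
      push_cast at this
      push_cast
      refine ⟨?_, abs_le.2 ⟨this.1, this.2⟩⟩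
      have h9 : (0 : ℤ) ≤ |v i| := abs_nonneg (v i)
      linarith
    · intro i
      have := hodd i
      rcases abs_choice (v i) with h | h
      · refine ⟨abs_pos.2 (by omega), ?_⟩
        show |v i| % 2 = 1
        omega
      · refine ⟨abs_pos.2 (by omega), ?_⟩
        show |v i| % 2 = 1
        omega
    · intro i hi
      have := h1 i hi
      show |v i| % 5 = 2 ∨ |v i| % 5 = 3
      rcases abs_choice (v i) with h | h <;> omega
    · rw [← h3]
      unfold Bf
      simp only [abs_mul_abs_self]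
  · intro v hv w hw h
    have hv := Finset.mem_coe.1 hv
    have hw := Finset.mem_coe.1 hw
    unfold clsols at hv hw
    rw [Finset.mem_filter] at hv hw
    funext i
    have hi : |v i| = |w i| := congrFun h i
    rcases abs_eq_abs.1 hi with h' | h'
    · exact h'
    · exfalso
      by_cases hi3 : i = 3
      · subst hi3
        have h1 := hv.2.2.1
        have h2 := hw.2.2.1
        omega
      · have h1 := hv.2.1 i hi3
        have h2 := hw.2.1 i hi3
        omega

/-- **The bound.** -/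
theorem trc_bound {p : ℕ} (hp : p.Prime) (h5 : p % 5 = 4) : |trc p| ≤ 2 * (p + 1) := by
  have h1 := trc_le_cls p
  have h2 := cls_le p
  have h3 := sols_card hp h5
  have : ((clsols p).card : ℤ) ≤ p + 1 := by exact_mod_cast h2.trans h3
  linarith

end E8T5
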